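import Pool.Agent.Work.MP_82fd4a_nt.E.Sys
import Pool.Agent.Work.MP_678620_nt.SPFinal

/-! The twisted correlation estimate. -/

set_option autoImplicit false
open Finset Filter

namespace Pool.Agent.Work.MP_82fd4a_nt.E

open Pool.Agent.Work.MP_678620_nt Pool.Agent.Work.MP_82fd4a_nt.Z

theorem sparse_coreT (A : ℕ) {c0 : ℝ} (hc0 : 0 < c0) : ∃ k0 B : ℕ, ∀ᶠ X : ℕ in atTop,
    ∀ N : ℕ, X ≤ N ^ 2 → N ≤ X ^ 2 → ∀ E : Finset ℕ, Eok X c0 E → ∀ k k' : ℕ, k0 ≤ k → k0 ≤ k' →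
    (k : ℝ) ≤ A * Real.log (Real.log X) → (k' : ℝ) ≤ A * Real.log (Real.log X) →
    ∀ h : ℤ, h ≠ 0 → |(h : ℝ)| ≤ Real.log X ^ A → ∀ τ : ℝ, ∀ f g : ℤ → ℂ,
    (∀ n : ℤ, 1 ≤ n → n ≤ (X : ℤ) ^ 3 → ‖f n‖ ≤ 1) → (∀ n : ℤ, 1 ≤ n → n ≤ (X : ℤ) ^ 3 → ‖g n‖ ≤ 1) →
    (∀ p ∈ E, ∀ n : ℤ, f (p * n) = f n) → (∀ p ∈ E, ∀ n : ℤ, g (p * n) = g n) →
    MRBt N (fun n => nzi τ n * if wE E n = k' then g n else 0) (nz τ) h (Real.exp (Real.log X ^ c0))
      (Real.exp (Real.log X ^ (1 / 4 : ℝ))) ⌊Real.log X ^ B⌋₊ ⌊Real.exp √(Real.log X)⌋₊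
      (1 / Real.log X ^ (4 * B)) →
    ‖∑ n ∈ Ioc (N : ℤ) (2 * N), ((starRingEnd ℂ) (nzi τ n) * if wE E n = k then f n else 0) *
        (nzi τ (n + h) * if wE E (n + h) = k' then g (n + h) else 0)‖ ≤ N / Real.log X ^ A := by
  classical
  obtain ⟨B, hB⟩ : ∃ B, B = 68 * A + 130 := ⟨_, rfl⟩
  obtain ⟨k0, hk0⟩ : ∃ k0, k0 = 10 * B + 1 := ⟨_, rfl⟩
  refine ⟨k0, B, ?_⟩
  filter_upwards [SPF_ev (10000 * (B + 1) + k0.factorial + Real.exp 72) hc0,
    eventually_ge_atTop 20] with X ⟨t, ht, hl, hc⟩ hX N hN1 hN2 E hE k k' hk hk' hkA hkA' h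
    hh hhA τ f g hf1 hg1 hf hg hMR
  obtain ⟨M0, hM0'⟩ : ∃ M0 : ℕ, M0 = 1 := ⟨_, rfl⟩
  have hM0 : 1 ≤ M0 := hM0'.ge
  have X0 : (0 : ℝ) < X := by exact_mod_cast (by omega : 0 < X)
  obtain ⟨s, n, J, M, W, Q, t4, l4, s3, s1, s2, n1, n2, J1, J2, M1, M2, M3, ⟨w, hW⟩, W1, W3, eN,
    hQ, Q0, Q1, Q2, lN, n0, n3, N0, H1, H2, ks, Dge, hH, g1, L1, L2, L3, L4, L5, L6, u1, u2⟩ :=
    SPF_par (H0 := Real.exp (Real.log X ^ c0)) hB hk0 ht hl (Real.exp_log X0)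
      (Real.exp_le_exp.2 (le_trans (by
        gcongr
        linarith [Real.exp_pos 72, Nat.cast_nonneg (α := ℝ) k0.factorial]) hc)) hN1 hN2
  clear ht hc
  have t0 : 0 < t := by linarith
  have e4 : Real.log X ^ (1 / 4 : ℝ) = t ^ 5 := by
    rw [hl, ← Real.rpow_natCast, ← Real.rpow_mul t0.le, ← Real.rpow_natCast]; norm_num
  have e2 : √(Real.log X) = t ^ 10 := by
    rw [hl, show t ^ 20 = (t ^ 10) ^ 2 by ring, Real.sqrt_sq (by positivity)]
  have hEhi := hE.hi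
  have hElo := hE.lo
  have hEp := hE.prime
  have hEb := hE.big
  rw [e4] at hMR hEhi
  rw [e2, ← hQ] at hMR
  clear hE e4 e2 hl hQ
  generalize Real.exp (Real.log X ^ c0) = H0 at *
  generalize Real.log X = l at *
  generalize hJm : ⌊Real.exp (t ^ 10)⌋₊ = Jm at *
  have l1 : 1 ≤ l := by linarith
  have lA0 : 1 ≤ l ^ A := one_le_pow₀ l1
  have hM0A : (M0 : ℝ) ≤ l ^ A := by rw [hM0', Nat.cast_one]; exact lA0
  have s4 : (1 : ℝ) ≤ s := by exact_mod_cast s3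
  have t5 : 1 ≤ t ^ 5 := one_le_pow₀ (by linarith)
  have hEs : 2 * s ≤ E.card := by
    have h1 : ∑ p ∈ E, (p : ℝ)⁻¹ ≤ E.card • H0⁻¹ :=
      sum_le_card_nsmul _ _ _ fun p hp => inv_anti₀ (by linarith) (hElo p hp)
    have h2 := hEb.trans h1
    rw [nsmul_eq_mul, ← div_eq_mul_inv, le_div_iff₀ (by linarith)] at h2
    exact_mod_cast (by linarith : (2 * s : ℝ) ≤ E.card)
  have hL := SPF_L (E := E) t5 fun p hp => ⟨hEp p hp, hEhi p hp⟩
  have hWc : ∀ p ∈ E, Nat.Coprime W p := fun p hp => by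
    rw [hW]
    refine Nat.Coprime.pow_left _ ((Nat.coprime_primes Nat.prime_two (hEp p hp)).2 fun e => ?_)
    have := hElo p hp
    rw [← e] at this; push_cast at this; linarith
  have Jm0 : 1 ≤ Jm := hJm ▸ Nat.le_floor (by simpa using by positivity)
  have JN : 1 ≤ Jm * N := Nat.mul_pos Jm0 (by omega)
  have hWE : W ∉ E := fun hp => by
    have := hWc W hp
    rw [Nat.coprime_self] at this
    omega
  let ι := {x : ℕ // x ∈ insert W E}
  let E' : Finset ι := E.subtype _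
  have mE : ∀ {i : ι}, i ∈ E' ↔ i.1 ∈ E := mem_subtype
  have cE : E'.card = E.card := by
    rw [card_subtype, filter_true_of_mem fun x hx => mem_insert_of_mem hx]
  have sE : ∑ p ∈ E', ((p.1 : ℕ) : ℝ)⁻¹ = ∑ p ∈ E, (p : ℝ)⁻¹ :=
    sum_subtype_of_mem (fun p : ℕ => (p : ℝ)⁻¹) fun x hx => mem_insert_of_mem hx
  have η0 : 0 < 1 / l ^ (A + 1) := by positivity
  have η1 : 1 / l ^ (A + 1) ≤ 1 := (div_le_one (by positivity)).2 (one_le_pow₀ l1)
  obtain ⟨DD, lab, T, d0, hne, hDD, hlab, hcl, hlc, hγ⟩ := exists_DD (fun i : ι => i.1) E'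
    (H1 := Real.exp (t ^ 5)) (fun p hp => ⟨(hEp _ (mE.1 hp)).two_le, hEhi _ (mE.1 hp)⟩) s3
    (by omega) hM0 η0 η1
  rw [Real.log_exp] at hlc hγ
  have g2 : (M0 : ℝ) * (4 * (s : ℝ) ^ 2 * t ^ 5 / (1 / l ^ (A + 1)) + 1) ≤ l ^ (2 * A + 2) := by
    rw [show 2 * A + 2 = A + (A + 2) by ring, pow_add l A (A + 2)]
    gcongr
  have g3 : (M0 : ℝ) * (4 * (s : ℝ) * t ^ 5 / (1 / l ^ (A + 1)) + 1) ≤ l ^ (2 * A + 4) := by
    refine le_trans ?_ (g2.trans (pow_le_pow_right₀ l1 (by omega)))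
    gcongr
    exact le_self_pow₀ s4 (by norm_num)
  have M00 : (1 : ℝ) ≤ M0 := by exact_mod_cast hM0
  have g0 : 0 < (M0 : ℝ) * (4 * (s : ℝ) ^ 2 * t ^ 5 / (1 / l ^ (A + 1)) + 1) := by positivity
  obtain ⟨d1, hd1⟩ := id hne
  have T1 : (T : ℝ) ≤ Real.exp (s * t ^ 5) := by
    obtain ⟨a1, a2, a3, -⟩ := hDD d1 hd1
    calc (T : ℝ) ≤ ∏ i ∈ d1, ((i.1 : ℕ) : ℝ) := by exact_mod_cast a3
      _ ≤ ∏ _i ∈ d1, Real.exp (t ^ 5) :=
          prod_le_prod (fun _ _ => by positivity) fun i hi => hEhi _ (mE.1 (a1 hi))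
      _ = _ := by rw [prod_const, a2, ← Real.exp_nat_mul]
  have T0 : 1 ≤ T := by
    obtain ⟨a1, -, -, a4, -⟩ := hDD d1 hd1
    have : 0 < ∏ i ∈ d1, i.1 := prod_pos fun i hi => (hEp _ (mE.1 (a1 hi))).pos
    rcases Nat.eq_zero_or_pos T with rfl | h0
    · have : (0 : ℝ) < ((∏ i ∈ d1, i.1 : ℕ) : ℝ) := by exact_mod_cast this
      simp only [Nat.cast_zero, mul_zero] at a4
      linarith
    · exact h0
  have TJ : T ≤ Jm := hJm ▸ Nat.le_floor (T1.trans (Real.exp_le_exp.2 u1))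
  let S : Sys ι :=
    { m := fun i => i.1
      E := E'
      DD := DD
      lab := lab
      s := s
      k := k
      k' := k'
      T := T
      Q := Q
      h := h
      H0 := H0
      H1 := Real.exp (t ^ 5)
      Λ := l ^ (2 * A + 4)
      m_pos := fun i => by
        rcases mem_insert.1 i.2 with e | e
        · rw [e]; omega
        · exact (hEp _ e).pos
      cop := fun i j hij => by
        have hne' : i.1 ≠ j.1 := fun e => hij (Subtype.ext e)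
        rcases mem_insert.1 i.2 with e | e <;> rcases mem_insert.1 j.2 with e' | e'
        · exact absurd (e.trans e'.symm) hne'
        · rw [e]; exact hWc _ e'
        · rw [e']; exact (hWc _ e).symm
        · exact (Nat.coprime_primes (hEp _ e) (hEp _ e')).2 hne'
      prime := fun p hp => hEp _ (mE.1 hp)
      lo := fun p hp => hElo _ (mE.1 hp)
      hi := fun p hp => hEhi _ (mE.1 hp)
      DD_sub := fun d hd => (hDD d hd).1
      DD_card := fun d hd => (hDD d hd).2.1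
      DD_lo := fun d hd => (hDD d hd).2.2.1
      DD_hi := fun d hd => by
        have a1 := (hDD d hd).2.2.2.1
        have a2 : (1 + 1 / l ^ (A + 1)) * T ≤ 2 * T := by gcongr; linarith
        exact_mod_cast a1.trans a2
      lab_DD := hlab
      lab_close := hcl
      h_ne := hh
      T_pos := T0
      Q_ge := Q0
      k_ge := by omega
      k_le := ks k hkA
      k'_ge := by omega
      k'_le := ks k' hkA'
      big := L3
      eL := by rw [sE]; exact (Real.exp_le_exp.2 hL).trans L2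
      s_le := L4
      lab_le := hlc.trans g3
      logT := by
        have a0 : (1 : ℝ) ≤ T := by exact_mod_cast T0
        have a1 : Real.log T ≤ s * t ^ 5 := (Real.log_le_iff_le_exp (by linarith)).2 T1
        have a2 : Real.log 4 ≤ 3 := by
          linarith [Real.log_le_sub_one_of_pos (x := 4) (by norm_num)]
        rw [Real.log_mul (by norm_num) (by linarith)]
        linarith
      logH := by rw [Real.log_exp]; exact L6
      h_le := hhA.trans (pow_le_pow_right₀ l1 (by omega))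
      H0_ge := hH k k' hkA hkA'
      H01 := by
        obtain ⟨p, hp⟩ : E.Nonempty := card_pos.1 (by omega)
        exact (hElo p hp).trans (hEhi p hp) }
  let i0 : ι := ⟨W, mem_insert_self _ _⟩
  have hi0 : i0 ∉ S.E := fun h => hWE (mE.1 h)
  have hW' : 10 * (S.T * N) < S.m i0 :=
    lt_of_le_of_lt (Nat.mul_le_mul_left _ (Nat.mul_le_mul_right _ TJ)) W1
  have hSL : S.L = ∑ p ∈ E, (p : ℝ)⁻¹ := sE
  have hZ : ∀ y : ℤ, (S.Zi y).card = wE E y := fun y => by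
    refine card_bij (fun i _ => i.1) (fun i hi => ?_) (fun i _ j _ e => Subtype.ext e)
      fun p hp => ?_
    · obtain ⟨a1, a2⟩ := mem_filter.1 hi
      exact mem_filter.2 ⟨mE.1 a1, (ZMod.intCast_zmod_eq_zero_iff_dvd y i.1).1 a2⟩
    · obtain ⟨a1, a2⟩ := mem_filter.1 hp
      exact ⟨⟨p, mem_insert_of_mem a1⟩, mem_filter.2
        ⟨mE.2 a1, (ZMod.intCast_zmod_eq_zero_iff_dvd y p).2 a2⟩, rfl⟩
  have hh' : (h.natAbs : ℝ) ≤ l ^ A := by rwa [Nat.cast_natAbs, Int.cast_abs]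
  have hN40 : 40 * (n * h.natAbs) ≤ N := by
    have a1 : (40 * (n * h.natAbs) : ℝ) ≤ 40 * (n * l ^ A) := by gcongr
    exact_mod_cast a1.trans n3
  have hN10 : 10 * h.natAbs ≤ n * h.natAbs := Nat.mul_le_mul_right _ n0
  have hR : (S.R : ℝ) ≤ Real.exp (3 * (s * t ^ 5) / 2) := by
    calc (S.R : ℝ) = T * (2 * h.natAbs) := by simp only [Sys.R, S]; push_cast; ring
      _ ≤ Real.exp (s * t ^ 5) * Real.exp (s * t ^ 5 / 2) := by gcongr; linarith
      _ = _ := by rw [← Real.exp_add]; congr 1; ring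
  obtain ⟨q1, q2, q3, q4⟩ := SPF_num (L := S.L) t4 s1 s2 n1 n2 J1 J2 M1 hR
    (by rw [hSL]; positivity) (hSL ▸ hL.trans L1) W3 eN
  have q5 : Real.exp (-(2 * (s * t ^ 5))) ≤ S.es (S.s + S.k') := by
    refine le_trans ?_ (SPF_esym (I := E') (ν := S.nu) (b := (Real.exp (t ^ 5))⁻¹) (by positivity)
      (fun i hi => inv_anti₀ (by exact_mod_cast (hEp _ (mE.1 hi)).pos) (hEhi _ (mE.1 hi)))
      (j := s + k') (by have := ks k' hkA'; omega))
    rw [← Real.exp_neg, ← Real.exp_nat_mul]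
    refine Real.exp_le_exp.2 ?_
    have a1 : (k' : ℝ) ≤ s := by exact_mod_cast ks k' hkA'
    have a2 : (k' : ℝ) * t ^ 5 ≤ s * t ^ 5 := by gcongr
    push_cast
    linarith
  let cl : (ℤ → ℂ) → ℤ → ℂ := fun φ y => if ‖φ y‖ ≤ 1 then φ y else 0
  have cl1 : ∀ φ y, ‖cl φ y‖ ≤ 1 := fun φ y => by
    simp only [cl]; split_ifs with a
    · exact a
    · simp
  have cl2 : ∀ φ : ℤ → ℂ, (∀ p ∈ E, ∀ n : ℤ, φ (p * n) = φ n) → ∀ d ∈ S.DD, ∀ y : ℤ,
      cl φ (S.pr d * y) = cl φ y := fun φ hφ d hd y => by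
    simp only [cl, Sys.pr]
    rw [SPF_inv hφ S.m d fun i hi => mE.1 ((hDD d hd).1 hi)]
  have cl3 : ∀ y, ‖nzi τ y * cl g y‖ ≤ 1 := fun y => by
    rw [norm_mul]
    exact mul_le_one₀ (norm_nzi_le _ _) (norm_nonneg _) (cl1 g y)
  have NX : 20 * (N : ℤ) ≤ (X : ℤ) ^ 3 := by
    have : 20 * N ≤ X ^ 3 := by rw [pow_succ']; exact Nat.mul_le_mul hX hN2
    exact_mod_cast this
  have hh2 : 100 * |h| + 100 ≤ (N : ℤ) := by rw [← Int.natCast_natAbs]; omega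
  have e : S.h = h := rfl
  have dp : ∀ d ∈ S.DD, S.pr d ≠ 0 := fun d _ => (S.pr_pos d).ne'
  have key := mainT S (N := N) (i0 := i0) (by rw [e]; omega) hW'
    (hSL ▸ hEb) (by rw [hSL]; exact (hL.trans L1).trans s1)
    (γ := ((M0 : ℝ) * (4 * (s : ℝ) ^ 2 * t ^ 5 / (1 / l ^ (A + 1)) + 1))⁻¹) (ε := 1 / l ^ (4 * B))
    (inv_pos.2 g0) ((inv_mul_le_iff₀ g0).2 hγ) hne η0.le (fun d hd => (hDD d hd).2.2.2.1)
    (by positivity) (F0 := fun y => (starRingEnd ℂ) (nzi τ y) * cl f y)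
    (F := fun y => (starRingEnd ℂ) (nzi τ y) * cl f y) (g := fun y => nzi τ y * cl g y)
    (fun y => by
      rw [norm_mul, Complex.norm_conj]
      exact mul_le_one₀ (norm_nzi_le _ _) (norm_nonneg _) (cl1 f y)) cl3
    (fun d hd y y' => by
      rw [cl2 f hf d hd, cl2 g hg d hd, nzi_mul, nzi_mul, map_mul]
      linear_combination (starRingEnd ℂ) (nzi τ y) * cl f y * (nzi τ y' * cl g y') *
        conj_nz_mul τ (dp d hd))
    (χ := nz τ) (norm_nz_le τ) (nz_mul τ)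
    (fun d hd y => by rw [cl2 g hg d hd, nzi_mul, mul_assoc]) TJ
    (MRBt_congr (lA0.trans H1.le) hh2 (fun y y1 y2 => by
      simp only [hZ, cl, if_pos (hg1 y y1 (y2.trans NX)), mul_ite, mul_zero]; rfl) hMR)
    (S.ip_GX_le hi0 (by omega) hN40 hW' M2 M3 q1 q2 q3 (q4.trans q5) cl3)
  refine le_trans (le_of_eq ?_) (key.trans (SPF_fin (by linarith) hB (Dge k hk) (Dge k' hk')
    Q2 Q1 (inv_pos.2 g0) (by rw [one_div, inv_inv]; exact g2) lN))
  congr 1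
  refine sum_congr rfl fun y hy => ?_
  obtain ⟨y1, y2⟩ := mem_Ioc.1 hy
  simp only [hZ, e, cl, if_pos (hf1 y (by omega) (by omega)),
    if_pos (hg1 (y + h) (by omega) (by omega)), mul_ite, mul_zero]
  rfl

end Pool.Agent.Work.MP_82fd4a_nt.E
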