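import Pool.Agent.Work.MP_82fd4a_nt.Z.Defs
import Pool.Agent.Work.MP_678620_nt.SPIface

/-! Twisted sparse correlations: definitions. -/

set_option autoImplicit false
open Finset Pool.Agent.Lib.LargeSieve

namespace Pool.Agent.Work.MP_82fd4a_nt.E

open Pool.Agent.Work.MP_82fd4a_nt.Z

/-- the twist on the integers -/
noncomputable def nzi (t : ℝ) (n : ℤ) : ℂ := nz t n.toNat

/-- Twisted cancellation in short progressions on the major arcs. -/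
def MRBt (N : ℕ) (c : ℤ → ℂ) (χ : ℕ → ℂ) (h : ℤ) (H0 H1 : ℝ) (Q Jm : ℕ) (ε : ℝ) : Prop :=
  ∀ (P : ℝ) (I V : Finset ℕ) (J H : ℕ) (θ : ℚ), H0 ≤ P → P ≤ H1 →
    (∀ p ∈ I, p.Prime ∧ P ≤ p ∧ (p : ℝ) ≤ 2 * P) →
    (∀ p ∈ I, ∀ w ∈ V, J ≤ 2 * (p * w) ∧ p * w ≤ 5 * J) →
    P ≤ J → J ≤ Jm → J ≤ 2 * Q ^ 2 * H → H ≤ J → θ.den ≤ Q →
    ∑ x ∈ Icc ((J * N / 2 : ℕ) : ℤ) (5 * J * N : ℕ),
      ‖∑ i ∈ range H, (∑ p ∈ I, ∑ w ∈ V, if ((p * w : ℕ) : ℤ) ∣ x + h * i then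
        χ (p * w) * c ((x + h * i) / (p * w : ℕ) + h) else 0) * ee (θ * i)‖ ^ 2
      ≤ ε * H ^ 2 * J * N

lemma norm_nzi_le (t : ℝ) (n : ℤ) : ‖nzi t n‖ ≤ 1 := norm_nz_le _ _

lemma nzi_nat (t : ℝ) (n : ℕ) : nzi t n = nz t n := by rw [nzi, Int.toNat_natCast]

lemma nzi_mul (t : ℝ) (d : ℕ) (n : ℤ) : nzi t (d * n) = nz t d * nzi t n := by
  rw [nzi, nzi, ← nz_mul]
  congr 1
  rcases le_total 0 n with h | h
  · lift n to ℕ using h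
    rw [← Nat.cast_mul, Int.toNat_natCast, Int.toNat_natCast]
  · rw [Int.toNat_eq_zero.2 h, Int.toNat_eq_zero.2
      (mul_nonpos_of_nonneg_of_nonpos (Int.natCast_nonneg d) h), mul_zero]

lemma MRBt_congr {N : ℕ} {c c' : ℤ → ℂ} {χ : ℕ → ℂ} {h : ℤ} {H0 H1 ε : ℝ} {Q Jm : ℕ} (hH : 1 ≤ H0)
    (hN : 100 * |h| + 100 ≤ N) (hc : ∀ n : ℤ, 1 ≤ n → n ≤ 20 * N → c' n = c n)
    (H : MRBt N c χ h H0 H1 Q Jm ε) : MRBt N c' χ h H0 H1 Q Jm ε := by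
  intro P I V J K θ h1 h2 h3 h4 h5 h6 h7 h8 h9
  refine le_trans (le_of_eq ?_) (H P I V J K θ h1 h2 h3 h4 h5 h6 h7 h8 h9)
  refine sum_congr rfl fun x hx => ?_
  congr 2
  refine sum_congr rfl fun i hi => ?_
  congr 1
  refine sum_congr rfl fun p hp => sum_congr rfl fun w hw => ?_
  split_ifs with hd
  swap
  · rfl
  obtain ⟨n, hn⟩ := hd
  obtain ⟨v1, v2⟩ := h4 p hp w hw
  have J1 : 1 ≤ J := by exact_mod_cast hH.trans (h1.trans h5)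
  obtain ⟨v, hv⟩ : ∃ v : ℕ, v = p * w := ⟨_, rfl⟩
  rw [← hv] at hn v1 v2 ⊢
  have v0 : (0 : ℤ) < v := by exact_mod_cast (by omega : 0 < v)
  rw [hn, Int.mul_ediv_cancel_left _ v0.ne']
  obtain ⟨x1, x2⟩ := mem_Icc.1 hx
  have i1 : (i : ℤ) ≤ J := by exact_mod_cast ((mem_range.1 hi).le.trans h8)
  have i0 : (0 : ℤ) ≤ i := Int.natCast_nonneg i
  have x3 : (J : ℤ) * N ≤ 2 * x + 1 := by
    have : J * N ≤ 2 * (J * N / 2) + 1 := by omega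
    have : ((J * N : ℕ) : ℤ) ≤ 2 * ((J * N / 2 : ℕ) : ℤ) + 1 := by exact_mod_cast this
    push_cast at this x1
    linarith
  push_cast at x2
  have v1' : (J : ℤ) ≤ 2 * v := by exact_mod_cast v1
  have v2' : (v : ℤ) ≤ 5 * J := by exact_mod_cast v2
  have J1' : (1 : ℤ) ≤ J := by exact_mod_cast J1
  have a0 := abs_nonneg h
  have a1 := le_abs_self h
  have a2 := neg_abs_le h
  have hi1 : h * i ≤ |h| * J := by nlinarith
  have hi2 : -(|h| * J) ≤ h * i := by nlinarith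
  have n1 : |h| + 1 ≤ n := by
    by_contra hc'
    have : v * n ≤ v * |h| := mul_le_mul_of_nonneg_left (by omega) v0.le
    nlinarith
  have n2 : n ≤ 11 * N := by
    by_contra hc'
    have : (J : ℤ) * (11 * N) ≤ 2 * v * n :=
      mul_le_mul v1' (by omega) (by omega) (by omega)
    nlinarith
  rw [hc (n + h) (by omega) (by omega)]

lemma MRBt.smul {N : ℕ} {c : ℤ → ℂ} {χ : ℕ → ℂ} {h : ℤ} {H0 H1 : ℝ} {Q Jm : ℕ} {ε : ℝ} {t : ℂ}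
    (ht : ‖t‖ ≤ 1) (H : MRBt N c χ h H0 H1 Q Jm ε) :
    MRBt N (fun n => t * c n) χ h H0 H1 Q Jm ε := by
  intro P I V J H' θ h1 h2 h3 h4 h5 h6 h7 h8 h9
  refine le_trans (sum_le_sum fun x _ => ?_) (H P I V J H' θ h1 h2 h3 h4 h5 h6 h7 h8 h9)
  simp only [mul_left_comm _ t, ← mul_ite_zero, ← mul_sum, mul_assoc, norm_mul]
  exact pow_le_pow_left₀ (by positivity) (mul_le_of_le_one_left (norm_nonneg _) ht) 2

end Pool.Agent.Work.MP_82fd4a_nt.E
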