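import Pool.Agent.Work.MP_82fd4a_nt.E.Two
import Pool.Agent.Work.MP_82fd4a_nt.Z.TypeII

/-! Bilinear forms in short intervals with a saving of any power of the logarithm. -/

set_option autoImplicit false
open Filter Topology Finset

namespace Pool.Agent.Work.MP_82fd4a_nt.E

open Pool.Agent.Lib.MR Pool.Agent.Work.MP_678620_nt Pool.Agent.Work.MP_82fd4a_nt.Z

lemma recip_q {N : ℕ} {P : ℝ} (hP : 1 ≤ P) (hN : 65 * P ^ 6 ≤ N) {c : ℝ}
    (c0 : 1 / P * (N : ℝ) ^ 2 ≤ |c|) (c1 : |c| ≤ P * (N : ℝ) ^ 2) :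
    ‖∑ u ∈ Ioc N (9 * N), ce (c / u)‖ ≤ 64 / P * N := by
  have P0 : 0 < P := by linarith
  have q3 : 1 ≤ P ^ 3 := one_le_pow₀ hP
  have q5 : 1 ≤ P ^ 5 := one_le_pow₀ hP
  have q6 : P ^ 5 ≤ P ^ 6 := pow_le_pow_right₀ hP (by norm_num)
  obtain ⟨H0, h0, h0'⟩ : ∃ H0 : ℕ, 63 * P ^ 3 ≤ H0 ∧ (H0 : ℝ) ≤ 64 * P ^ 3 :=
    ⟨⌈63 * P ^ 3⌉₊, Nat.le_ceil _, by
      linarith [Nat.ceil_lt_add_one (show 0 ≤ 63 * P ^ 3 by positivity)]⟩
  obtain ⟨H, h1, h1'⟩ : ∃ H : ℕ, 64 * P ^ 5 ≤ H ∧ (H : ℝ) ≤ 65 * P ^ 5 :=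
    ⟨⌈64 * P ^ 5⌉₊, Nat.le_ceil _, by
      linarith [Nat.ceil_lt_add_one (show 0 ≤ 64 * P ^ 5 by positivity)]⟩
  have N3 : (3 : ℝ) ≤ N := by linarith
  have n3 : 3 ≤ N := by exact_mod_cast N3
  have nH : H ≤ N := by exact_mod_cast (by linarith : (H : ℝ) ≤ N)
  have key := es_recip c (1 / P * (N : ℝ) ^ 2) (P * (N : ℝ) ^ 2) N (10 * N) (1 / P) (N + 1) (8 * N)
    H H0 (by linarith) (by push_cast; linarith) (by push_cast; linarith) (by positivity) c0 c1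
    (by exact_mod_cast (by linarith : (1 : ℝ) ≤ H0)) (by exact_mod_cast (by linarith : (1 : ℝ) ≤ H))
    (by omega) (by positivity) ((div_le_one P0).2 hP) ?_ ?_ ?_
  · have e : ∑ u ∈ Ioc N (9 * N), ce (c / u) =
        ∑ k ∈ range (8 * N), ce (c / (((N + 1 : ℕ) : ℝ) + k)) := by
      rw [← Finset.Ico_add_one_add_one_eq_Ioc, sum_Ico_eq_sum_range,
        show 9 * N + 1 - (N + 1) = 8 * N by omega]
      simp only [Nat.cast_add]
    rw [e]
    refine key.trans (le_of_eq ?_)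
    push_cast
    ring
  · rw [show (H : ℝ) * (2 * (P * (N : ℝ) ^ 2) / (N : ℝ) ^ 3) = 2 * (H * P) / N by
      field_simp, div_le_iff₀ (by linarith)]
    have : (H : ℝ) * P ≤ 65 * P ^ 5 * P := by gcongr
    have e : 65 * P ^ 5 * P = 65 * P ^ 6 := by ring
    nlinarith [Real.pi_gt_three]
  · refine h0'.trans ?_
    calc 64 * P ^ 3 = (1 / P) ^ 2 * (64 * P ^ 5) := by field_simp
      _ ≤ _ := by gcongr
  · rw [show (1 / P) ^ 2 * (8 * N : ℕ) * H0 * (2 * (1 / P * (N : ℝ) ^ 2) / (10 * N) ^ 3) =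
      H0 * 16 / (1000 * P ^ 3) by push_cast; field_simp; ring, one_le_div (by positivity)]
    linarith

lemma sq_det {l N R : ℕ} (hl : 1 ≤ l) {a R₀ C x : ℝ} (ha : 0 < a) (R1 : 1 ≤ R₀) {w : ℕ → ℝ}
    (hC : 1 ≤ C) (w1 : ∀ n, |w n| ≤ C)
    (h1 : ∀ i < l, ∀ j < l, i < j → ∀ c : ℝ, |c| ≤ 2 * Real.pi * R₀ * 64 * (N : ℝ) ^ 2 →
      ‖∑ u ∈ Ioc N (9 * N), ((w (u + i) * w (u + j) : ℝ) : ℂ) * ce (c / u)‖
        ≤ 1 / (l * (1 + R₀)) * N)
    (h2 : ∀ c : ℝ, a * (N : ℝ) ^ 2 ≤ |c| → |c| ≤ 2 * Real.pi * R₀ * 64 * (N : ℝ) ^ 2 →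
      ‖∑ u ∈ Ioc N (9 * N), ce (c / u)‖ ≤ 1 / R₀ * N)
    (x1 : a * (N : ℝ) ^ 2 ≤ x) (x2 : x ≤ 64 * (N : ℝ) ^ 2) (r1 : 1 ≤ R) (RR : (R : ℝ) ≤ R₀) :
    ∑ u ∈ Ioc N (9 * N), (∑ i ∈ range l, w (u + i)) ^ 2 * (‖gs R (x / u)‖ ^ 2 / R)
      ≤ 10 * l * C ^ 2 * N := by
  have hπ := Real.pi_pos
  have hπ3 := Real.pi_gt_three
  have l1 : (1 : ℝ) ≤ l := by exact_mod_cast hl
  have N0 : (0 : ℝ) ≤ N := Nat.cast_nonneg N
  have x0 : 0 ≤ x := le_trans (by positivity) x1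
  have hc : ∀ r < R, ∀ r' < R, |2 * Real.pi * ((r : ℝ) - r') * x| ≤
      2 * Real.pi * R₀ * 64 * (N : ℝ) ^ 2 := fun r hr r' hr' => by
    have a1 : (r : ℝ) ≤ R := by exact_mod_cast hr.le
    have a2 : (r' : ℝ) ≤ R := by exact_mod_cast hr'.le
    have a3 : |(r : ℝ) - r'| ≤ R₀ := by
      rw [abs_le]
      constructor <;> linarith [Nat.cast_nonneg (α := ℝ) r, Nat.cast_nonneg (α := ℝ) r']
    rw [abs_mul, abs_mul, abs_of_nonneg x0, abs_of_pos (by positivity : 0 < 2 * Real.pi)]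
    calc _ ≤ 2 * Real.pi * R₀ * (64 * (N : ℝ) ^ 2) := by gcongr
      _ = _ := by ring
  have hc' : ∀ r r' : ℕ, r ≠ r' → a * (N : ℝ) ^ 2 ≤ |2 * Real.pi * ((r : ℝ) - r') * x| :=
    fun r r' h => by
      have a3 : (1 : ℝ) ≤ |(r : ℝ) - r'| := by
        have : (1 : ℤ) ≤ |(r : ℤ) - r'| := Int.one_le_abs (by omega)
        exact_mod_cast this
      rw [abs_mul, abs_mul, abs_of_nonneg x0, abs_of_pos (by positivity : 0 < 2 * Real.pi)]
      calc a * (N : ℝ) ^ 2 ≤ 1 * 1 * x := by linarith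
        _ ≤ _ := by gcongr; linarith
  set Kf : ℕ → ℝ := fun u => ‖gs R (x / u)‖ ^ 2 / R with hK
  have K0 : ∀ u, 0 ≤ Kf u := fun u => by positivity
  have d1 : ∑ u ∈ Ioc N (9 * N), Kf u ≤ 9 * N := by
    have := quad_le (Ioc N (9 * N)) (fun _ => 1) (fun u => x / u) r1 (E₀ := 8 * N)
      (E := 1 / R₀ * N) (by positivity)
      (by
        rw [sum_const, Nat.card_Ioc, show 9 * N - N = 8 * N by omega]
        simp)
      (fun r hr r' hr' h => by
        have := h2 _ (hc' r r' h) (hc r hr r' hr')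
        simpa only [Complex.ofReal_one, one_mul, mul_div_assoc] using this)
    simp only [one_mul] at this
    refine (le_abs_self _).trans (this.trans ?_)
    have : (R : ℝ) * (1 / R₀ * N) ≤ R₀ * (1 / R₀ * N) := by gcongr
    have e : R₀ * (1 / R₀ * N) = N := by field_simp
    linarith
  have d2 : ∀ i < l, ∀ j < l, i < j →
      ∑ u ∈ Ioc N (9 * N), w (u + i) * w (u + j) * Kf u ≤ N / l := fun i hi j hj hij => by
    have g := h1 i hi j hj hij
    have := quad_le (Ioc N (9 * N)) (fun u => w (u + i) * w (u + j)) (fun u => x / u) r1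
      (E₀ := 1 / (l * (1 + R₀)) * N) (E := 1 / (l * (1 + R₀)) * N) (by positivity)
      (by
        have := g 0 (by rw [abs_zero]; positivity)
        simp only [zero_div, Major_ce0, mul_one] at this
        rwa [← Complex.ofReal_sum, Complex.norm_real] at this)
      (fun r hr r' hr' _ => by
        have := g _ (hc r hr r' hr')
        simpa only [mul_div_assoc] using this)
    refine (le_abs_self _).trans (this.trans ?_)
    calc _ ≤ 1 / (l * (1 + R₀)) * N + R₀ * (1 / (l * (1 + R₀)) * N) := by gcongr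
      _ = _ := by field_simp
  have d3 : ∀ i ∈ range l, ∀ j ∈ range l, ∑ u ∈ Ioc N (9 * N), w (u + i) * w (u + j) * Kf u ≤
      (if j = i then C ^ 2 * (9 * N) else 0) + N / l := fun i hi j hj => by
    rcases lt_trichotomy i j with h | h | h
    · rw [if_neg h.ne', zero_add]
      exact d2 i (mem_range.1 hi) j (mem_range.1 hj) h
    · subst h
      rw [if_pos rfl]
      have : ∑ u ∈ Ioc N (9 * N), w (u + i) * w (u + i) * Kf u ≤
          C ^ 2 * ∑ u ∈ Ioc N (9 * N), Kf u := by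
        rw [mul_sum]
        refine sum_le_sum fun u _ => mul_le_mul_of_nonneg_right ?_ (K0 u)
        rw [← sq, ← sq_abs]
        exact pow_le_pow_left₀ (abs_nonneg _) (w1 _) 2
      have h3 : C ^ 2 * ∑ u ∈ Ioc N (9 * N), Kf u ≤ C ^ 2 * (9 * N) := by gcongr
      have : (0 : ℝ) ≤ N / l := by positivity
      linarith
    · rw [if_neg h.ne, zero_add]
      simp only [mul_comm (w (_ + i))]
      exact d2 j (mem_range.1 hj) i (mem_range.1 hi) h
  have e : ∑ u ∈ Ioc N (9 * N), (∑ i ∈ range l, w (u + i)) ^ 2 * Kf u =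
      ∑ i ∈ range l, ∑ j ∈ range l, ∑ u ∈ Ioc N (9 * N), w (u + i) * w (u + j) * Kf u := by
    have e1 : ∀ u ∈ Ioc N (9 * N), (∑ i ∈ range l, w (u + i)) ^ 2 * Kf u =
        ∑ i ∈ range l, ∑ j ∈ range l, w (u + i) * w (u + j) * Kf u := fun u _ => by
      rw [sq, sum_mul_sum, sum_mul]
      exact sum_congr rfl fun i _ => sum_mul _ _ _
    rw [sum_congr rfl e1, sum_comm]
    exact sum_congr rfl fun i _ => sum_comm
  change ∑ u ∈ Ioc N (9 * N), (∑ i ∈ range l, w (u + i)) ^ 2 * Kf u ≤ _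
  rw [e]
  refine (sum_le_sum fun i hi => sum_le_sum fun j hj => d3 i hi j hj).trans ?_
  have e2 : ∀ i ∈ range l, ∑ j ∈ range l,
      ((if j = i then C ^ 2 * (9 * (N : ℝ)) else 0) + (N : ℝ) / (l : ℝ)) =
      C ^ 2 * (9 * (N : ℝ)) + (N : ℝ) := fun i hi => by
    rw [sum_add_distrib, sum_ite_eq', if_pos hi, sum_const, card_range, nsmul_eq_mul]
    field_simp
  rw [sum_congr rfl e2, sum_const, card_range, nsmul_eq_mul]
  have : (N : ℝ) ≤ C ^ 2 * N := le_mul_of_one_le_left N0 (one_le_pow₀ hC)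
  calc (l : ℝ) * (C ^ 2 * (9 * N) + N) ≤ l * (C ^ 2 * (9 * N) + C ^ 2 * N) := by gcongr
    _ = _ := by ring

lemma ev_sqrt {p : ℕ → Prop} (h : ∀ᶠ X : ℕ in atTop, p X) : ∀ᶠ x : ℕ in atTop, p x.sqrt := by
  obtain ⟨a, ha⟩ := eventually_atTop.1 h
  filter_upwards [eventually_ge_atTop (a * a)] with x hx
  exact ha _ (Nat.le_sqrt.2 hx)

theorem typeII_log (A : ℕ) {c0 : ℝ} (hc0 : 0 < c0) : ∃ k0 : ℕ, ∀ᶠ x : ℕ in atTop,
    ∀ E : Finset ℕ, Eok x.sqrt c0 E → ∀ k : ℕ, k0 ≤ k → (k : ℝ) ≤ Real.log (Real.log x.sqrt) →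
    ∀ Y : ℕ, Win (Real.log x.sqrt ^ (7 * (A + 10))) x Y → ∀ B : ℕ → ℝ, (∀ n, |B n| ≤ 1) →
    ∀ T : ℝ, 2 ≤ T → T ≤ Real.log x.sqrt ^ A * √(x : ℝ) →
    |BilY x Y T B (wd (zz x.sqrt) E k)| ≤ Gam x T / Real.log x.sqrt ^ A := by
  obtain ⟨k0, H⟩ := two_range (28 * (A + 10)) hc0
  refine ⟨k0, ?_⟩
  filter_upwards [ev_sqrt H, ev_sqrt wd_le, ev_sqrt (TB_tend.eventually_ge_atTop 1000),
    ev_sqrt (SPTwo_pow (84 * (A + 10))), ev_sqrt (eventually_ge_atTop 8)]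
    with x H hw hl hp X8 E hE k hk hkA Y hY B hB T t1 t2
  have s1 : ((x.sqrt : ℕ) : ℝ) ≤ √(x : ℝ) := Real.nat_sqrt_le_real_sqrt
  have s2 : √(x : ℝ) ≤ (x.sqrt : ℕ) + 1 := Real.real_sqrt_le_nat_sqrt_succ
  generalize x.sqrt = X at *
  have X8' : (8 : ℝ) ≤ X := by exact_mod_cast X8
  have hxx : √(x : ℝ) * √(x : ℝ) = x := Real.mul_self_sqrt (Nat.cast_nonneg x)
  rw [mul_comm 7, pow_mul] at hY
  rw [mul_comm 84, pow_mul] at hp
  simp only [mul_comm 28, pow_mul] at H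
  set l := Real.log X with hld
  have l1 : 1 ≤ l := by linarith
  have m1 : l ^ A * 1000 ≤ l ^ (A + 10) := by
    calc l ^ A * 1000 ≤ l ^ A * l ^ 10 := by
          gcongr
          exact hl.trans (le_self_pow₀ l1 (by norm_num))
      _ = _ := by ring
  have m2 : 52000 * l ^ 6 ≤ l ^ (A + 10) := by
    calc 52000 * l ^ 6 ≤ l ^ 2 * l ^ 6 := by gcongr; nlinarith
      _ = l ^ 8 := by ring
      _ ≤ _ := pow_le_pow_right₀ l1 (by omega)
  have m3 : 4 * l ^ 3 * l ^ A ≤ l ^ (A + 10) := by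
    calc 4 * l ^ 3 * l ^ A ≤ l * l ^ 3 * l ^ A := by gcongr; linarith
      _ = l ^ (A + 4) := by ring
      _ ≤ _ := pow_le_pow_right₀ l1 (by omega)
  have a1 : 1 ≤ l ^ A := one_le_pow₀ l1
  have a3 : 1 ≤ l ^ 3 := one_le_pow₀ l1
  have a6 : l ^ 3 ≤ l ^ 6 := pow_le_pow_right₀ l1 (by norm_num)
  generalize l ^ (A + 10) = m at *
  have m0 : 1000 ≤ m := by linarith
  have mo : 1 ≤ m := by linarith
  have mono : ∀ {a b : ℕ}, a ≤ b → m ^ a ≤ m ^ b := fun h => pow_le_pow_right₀ mo h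
  have up : ∀ (c : ℝ) (a : ℕ), c ≤ 1000 → c * m ^ a ≤ m ^ (a + 1) := fun c a hc => by
    rw [pow_succ']
    gcongr
    linarith
  have m7 : 1 ≤ m ^ 7 := one_le_pow₀ mo
  have m84 : m ^ 7 ≤ m ^ 84 := mono (by norm_num)
  obtain ⟨w1, w2⟩ := t2_win m7 hY (by linarith)
  obtain ⟨L, L1, L2⟩ : ∃ L : ℕ, m ^ 3 ≤ L ∧ (L : ℝ) ≤ 2 * m ^ 3 :=
    ⟨⌈m ^ 3⌉₊, Nat.le_ceil _, by
      linarith [Nat.ceil_lt_add_one (show 0 ≤ m ^ 3 by positivity), one_le_pow₀ (n := 3) mo]⟩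
  have L0 : (1 : ℝ) ≤ L := (one_le_pow₀ mo).trans L1
  have L0' : 1 ≤ L := by exact_mod_cast L0
  have L4 : (L : ℝ) ≤ m ^ 4 := L2.trans (up 2 3 (by norm_num))
  set N := x / (4 * Y) with hN
  have n1 : (X : ℝ) ≤ 8 * N := by linarith
  have n2 : 72 * m ^ 84 ≤ N := by linarith
  have n3 : (N : ℝ) ≤ m ^ 7 * X := by
    refine w2.trans ?_
    have : m ^ 7 * √(x : ℝ) ≤ m ^ 7 * (2 * X) := by gcongr; linarith
    linarith
  have n4 : 16 * N ≤ X ^ 2 := by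
    have : (16 * N : ℝ) ≤ (X : ℝ) ^ 2 := by nlinarith
    exact_mod_cast this
  have N0 : (0 : ℝ) < N := by linarith
  have LN : L < N := by
    have : m ^ 4 ≤ m ^ 84 := mono (by norm_num)
    exact_mod_cast (by linarith : (L : ℝ) < N)
  have N8 : 8 ≤ N := by exact_mod_cast (by linarith : (8 : ℝ) ≤ N)
  have XX : X ^ 2 ≤ X ^ 3 := Nat.pow_le_pow_right (by omega) (by norm_num)
  obtain ⟨w, v0, v1⟩ : ∃ w : ℕ → ℝ, (∀ a ≤ 16 * N, w a = wd (zz X) E k a) ∧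
      ∀ n, |w n| ≤ l ^ 3 := by
    refine ⟨fun n => if n ≤ 16 * N then wd (zz X) E k n else 0, fun a h => if_pos h, fun n => ?_⟩
    beta_reduce
    split_ifs with h
    · exact hw E k n (by omega)
    · rw [abs_zero]; linarith
  have pi4 := Real.pi_le_four
  have b1 : 2 * Real.pi * m ^ 9 * 64 ≤ m ^ 10 := by
    refine le_trans ?_ (up 512 9 (by norm_num))
    nlinarith [pow_pos (show 0 < m by linarith) 9]
  have m9 : 1 ≤ m ^ 9 := one_le_pow₀ mo
  have key := t2_key (x := x) (Y := Y) (l := L) (T := T) (H := l ^ A) (D := m ^ 7) (E := l ^ 3)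
    (κ := 1 / m) (d := 0) a1 a3 (by positivity) L0'
    (by
      refine le_trans ?_ L1
      rw [div_le_iff₀ (by positivity)]
      calc 52000 * (l ^ 3) ^ 2 = 52000 * l ^ 6 := by ring
        _ ≤ m := m2
        _ = _ := by field_simp)
    (by linarith [le_self_pow₀ mo (show 7 ≠ 0 by norm_num)])
    (by
      rw [div_div_eq_mul_div, div_one]
      calc 24 * l ^ A * L * l ^ 3 * m ≤ 24 * m * (2 * m ^ 3) * m * m := by gcongr <;> linarith
        _ = 48 * m ^ 6 := by ring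
        _ ≤ _ := up 48 6 (by norm_num))
    hY (by linarith)
    (by
      have := le_self_pow₀ mo (show 84 ≠ 0 by norm_num)
      calc l ^ A * √(x : ℝ) ≤ √(x : ℝ) * √(x : ℝ) := by gcongr; linarith
        _ = x := hxx)
    N8 t1 t2 (B := B) (A := wd (zz X) E k) (w := w) (fun n _ => (hB n).trans a3)
    (by rw [abs_zero]; linarith) (fun a ha => by rw [sub_zero, v0 a ha]) v1
    fun R r1 r2 => sq_det L0' (a := 1 / m ^ 14) (R₀ := m ^ 9) (by positivity) m9 a3 v1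
      (fun i hi j hj hij c hc => ?_) (fun c c1 c2 => ?_) ?_ ?_ r1 ?_
  · rw [zero_mul, sub_zero] at key
    have hG0 : 0 < Gam x T := lt_of_lt_of_le (by
      have : (0 : ℝ) < x := by nlinarith
      positivity) (Gam_ge (x := x) (by linarith : 1 ≤ T) (t2.trans (by
        have := le_self_pow₀ mo (show 84 ≠ 0 by norm_num)
        calc l ^ A * √(x : ℝ) ≤ √(x : ℝ) * √(x : ℝ) := by gcongr; linarith
          _ = x := hxx)))
    rw [abs_div, abs_of_pos hG0, div_le_iff₀' hG0] at key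
    refine key.trans ?_
    rw [div_eq_mul_one_div (Gam x T)]
    gcongr
    rw [mul_one_div, div_le_div_iff₀ (by positivity) (by positivity)]
    linarith
  · obtain ⟨δ, rfl⟩ : ∃ δ, j = i + δ := ⟨j - i, by omega⟩
    have hδ : 1 ≤ δ := by omega
    have δ1 : (1 : ℝ) ≤ δ := by exact_mod_cast hδ
    have δ2 : (δ : ℝ) ≤ L := by exact_mod_cast (by omega : δ ≤ L)
    have hc' : |c| ≤ m ^ 10 * (N : ℝ) ^ 2 := hc.trans (by gcongr)
    have ht : |c / δ| ≤ (X : ℝ) ^ 3 / 2 := by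
      rw [abs_div, abs_of_pos (by linarith : (0 : ℝ) < δ)]
      refine (div_le_self (abs_nonneg c) δ1).trans (hc'.trans ?_)
      have : m ^ 24 ≤ m ^ 84 := mono (by norm_num)
      calc m ^ 10 * (N : ℝ) ^ 2 ≤ m ^ 10 * (m ^ 7 * X) ^ 2 := by gcongr
        _ = m ^ 24 * (X : ℝ) ^ 2 := by ring
        _ ≤ X / 2 * (X : ℝ) ^ 2 := by gcongr; linarith
        _ = _ := by ring
    have h2 := corr_recip w (N := N) (i := i) (l := L) hδ hj.le LN c (E := N / m ^ 28)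
      fun M m1 m2 => by
        refine le_of_eq_of_le (congrArg norm (sum_congr rfl fun n hn => ?_))
          (H N (by exact_mod_cast n1) (by omega) E hE k hk hkA δ hδ
            (δ2.trans (L4.trans (mono (by norm_num)))) _ ht M m1 m2)
        have := mem_range.1 hn
        rw [v0 n (by omega), v0 (n + δ) (by omega)]
    simp only [← add_assoc]
    refine h2.trans ?_
    have h3 : |c| * (L / (N : ℝ) ^ 2) ≤ m ^ 14 := by
      calc |c| * (L / (N : ℝ) ^ 2) ≤ m ^ 10 * (N : ℝ) ^ 2 * (m ^ 4 / (N : ℝ) ^ 2) := by gcongr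
        _ = _ := by field_simp
    have h4 : 1 ≤ m ^ 14 := one_le_pow₀ mo
    have h5 : L * (1 + m ^ 9) ≤ 4 * m ^ 12 := by
      calc L * (1 + m ^ 9) ≤ 2 * m ^ 3 * (m ^ 9 + m ^ 9) := by gcongr
        _ = _ := by ring
    calc _ ≤ (m ^ 14 + m ^ 14) * (2 * (N / m ^ 28)) := by gcongr
      _ = 1 / (4 * m ^ 12) * N * (16 / (m * m)) := by field_simp; ring
      _ ≤ 1 / (4 * m ^ 12) * N := mul_le_of_le_one_right (by positivity)
          ((div_le_one (by positivity)).2 (by nlinarith))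
      _ ≤ _ := by gcongr
  · refine (recip_q (P := m ^ 14) (one_le_pow₀ mo) (by rw [← pow_mul]; linarith) c1
      (c2.trans (by gcongr; exact b1.trans (mono (by norm_num))))).trans ?_
    gcongr ?_ * _
    rw [div_le_div_iff₀ (by positivity) (by positivity), one_mul]
    exact (up 64 9 (by norm_num)).trans (mono (by norm_num))
  · rw [one_div, inv_mul_le_iff₀ (by positivity)]
    calc (N : ℝ) ^ 2 ≤ (m ^ 7 * √(x : ℝ) / 2) ^ 2 := by gcongr
      _ = m ^ 14 * (√(x : ℝ) * √(x : ℝ)) / 4 := by ring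
      _ ≤ _ := by
        rw [hxx]
        have : 0 ≤ m ^ 14 * x := by positivity
        linarith
  · calc (x : ℝ) = 64 * (√(x : ℝ) / 8) ^ 2 := by rw [div_pow, sq, hxx]; ring
      _ ≤ _ := by gcongr
  · refine r2.trans ?_
    have h1 : l ^ A * m ^ 7 ≤ m * m ^ 7 := by gcongr; linarith
    have h2 : 2 * m ^ 8 ≤ m ^ 9 := up 2 8 (by norm_num)
    have h3 : m * m ^ 7 = m ^ 8 := by ring
    have h4 : 1 ≤ m ^ 8 := one_le_pow₀ mo
    linarith

end Pool.Agent.Work.MP_82fd4a_nt.E
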