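import Pool.Agent.Work.MP_82fd4a_nt.E.TI
import Pool.Agent.Work.MP_82fd4a_nt.E.TII
import Pool.Agent.Work.MP_82fd4a_nt.Fund
import Pool.Agent.Work.MP_678620_nt.TBCore

/-! The lower bound for the model. -/

set_option autoImplicit false
open Filter Topology Finset

namespace Pool.Agent.Work.MP_82fd4a_nt.E

open Pool.Agent.Work.MP_82fd4a_nt.Z Pool.Agent.Work.MP_678620_nt

lemma bonf_odd (I : Finset ℕ) {ν : ℕ → ℝ} (h0 : ∀ i ∈ I, 0 ≤ ν i) (h1 : ∀ i ∈ I, ν i ≤ 1)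
    (j : ℕ) :
    ∑ T ∈ I.powerset.filter (fun T => T.card ≤ 2 * j + 1), (-1 : ℝ) ^ T.card * ∏ i ∈ T, ν i
      ≤ ∏ i ∈ I, (1 - ν i) ∧
    ∏ i ∈ I, (1 - ν i) - 2 * esym I ν (2 * j + 1) ≤
      ∑ T ∈ I.powerset.filter (fun T => T.card ≤ 2 * j + 1), (-1 : ℝ) ^ T.card * ∏ i ∈ T, ν i := by
  have a := abs_le.1 (bonf_prod I h0 h1 (2 * j))
  rw [sum_powerset_le_card, sum_range_succ, pow_succ, pow_mul]
  simp only [even_two, Even.neg_pow, one_pow, one_mul]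
  constructor <;> linarith [a.1, a.2]

lemma low_sieve : ∀ᶠ X : ℕ in atTop, ∃ (D : Finset ℕ) (lam : ℕ → ℝ),
    (∀ e ∈ D, 1 ≤ e ∧ (e : ℝ) ≤ (X : ℝ) ^ del) ∧ (∀ e, |lam e| ≤ 1) ∧
    (∀ m : ℕ, ∑ e ∈ D with e ∣ m, lam e ≤ rf (zz X) m) ∧
    Vz (zz X) / 2 ≤ ∑ e ∈ D, lam e / e := by
  have hdel : 0 < del := by norm_num [del]
  filter_upwards [TB_ev_small (C := 12) (by norm_num) hdel, TB_mertens, Vz_inv_le,
    TB_tend.eventually_ge_atTop (4 * Real.exp 432), TB_tend.eventually_ge_atTop 1,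
    eventually_ge_atTop 1] with X hs hm hV hl l1 X1
  set l := Real.log X with hldef
  set z := zz X with hzdef
  have z0 : 0 < z := Real.exp_pos _
  have ll : 0 ≤ Real.log l := Real.log_nonneg l1
  set j := ⌈6 * Real.log l⌉₊ with hj
  have j1 : 6 * Real.log l ≤ j := Nat.le_ceil _
  have j2 : (j : ℝ) < 6 * Real.log l + 1 := Nat.ceil_lt_add_one (by positivity)
  set F := (PZ z).powerset.filter (fun T => T.card ≤ 2 * j + 1) with hF
  have hFp : ∀ T ∈ F, ∀ p ∈ T, p ∈ PZ z := fun T hT p hp =>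
    mem_powerset.1 (mem_filter.1 hT).1 hp
  have hE : ∀ T ∈ F, ∏ p ∈ T, p ∈ F.image (fun T => ∏ p ∈ T, p) := fun T hT =>
    mem_image_of_mem _ hT
  refine ⟨F.image (fun T => ∏ p ∈ T, p), fundLam F, fun e he => ?_,
    fund_abs_lam F fun T hT p hp => PZ_prime (hFp T hT p hp), fun m => ?_, ?_⟩
  · obtain ⟨T, hT, rfl⟩ := mem_image.1 he
    refine ⟨prod_pos fun p hp => (PZ_prime (hFp T hT p hp)).pos, ?_⟩
    have a : ((∏ p ∈ T, p : ℕ) : ℝ) ≤ z ^ T.card := by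
      rw [Nat.cast_prod]
      exact (prod_le_prod (fun _ _ => by positivity)
        fun p hp => ((mem_PZ z0.le).1 (hFp T hT p hp)).2).trans_eq (prod_const _)
    refine a.trans ?_
    have c : (T.card : ℝ) ≤ 2 * j + 1 := by exact_mod_cast (mem_filter.1 hT).2
    have p1 : 0 ≤ l ^ (24 / 25 : ℝ) := by positivity
    have p2 : 0 ≤ l ^ (1 / 4 : ℝ) := by positivity
    rw [hzdef, zz, ← Real.exp_nat_mul, Real.rpow_def_of_pos (x := X) (by exact_mod_cast X1),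
      Real.exp_le_exp, ← hldef]
    have : (T.card : ℝ) * l ^ (24 / 25 : ℝ) ≤ (12 * Real.log l + 3) * l ^ (24 / 25 : ℝ) := by
      gcongr; linarith
    nlinarith
  · have a := fund_sum_lam F _ hE (fun e => if e ∣ m then 1 else 0)
    have b := (bonf_odd (PZ z) (ν := fun p => if p ∣ m then (1 : ℝ) else 0)
      (fun p _ => by positivity) (fun p _ => by split_ifs <;> norm_num) j).1
    rw [sum_filter]
    simp only [mul_ite, mul_one, mul_zero] at a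
    rw [a]
    refine le_trans (le_of_eq (sum_congr rfl fun T hT => ?_)) (b.trans ?_)
    · rw [← fund_ind m T fun p hp => PZ_prime (hFp T hT p hp)]
      split_ifs <;> simp
    · unfold rf
      split_ifs with h
      · exact prod_le_one (fun p _ => by split_ifs <;> norm_num)
          fun p _ => by split_ifs <;> norm_num
      · simp only [Rough, not_forall, not_lt] at h
        obtain ⟨p, hp, hd, hz⟩ := h
        exact (prod_eq_zero ((mem_PZ z0.le).2 ⟨hp, hz⟩) (by simp [hd])).le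
  · have a := fund_sum_lam F _ hE (fun e => (e : ℝ)⁻¹)
    have h0 : ∀ p ∈ PZ z, (0 : ℝ) ≤ (p : ℝ)⁻¹ := fun p _ => by positivity
    have b := (bonf_odd (PZ z) (ν := fun p => (p : ℝ)⁻¹) h0
      (fun p hp => inv_le_one_of_one_le₀ (by exact_mod_cast (PZ_prime hp).pos)) j).2
    simp only [div_eq_mul_inv (fundLam F _)]
    rw [a]
    simp only [Nat.cast_prod, ← prod_inv_distrib]
    refine le_trans ?_ b
    have c := esym_le_pow h0 (2 * j + 1)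
    have d := TB_e4 l1 (n := 2 * j + 1) (by push_cast; linarith)
    have s0 : 0 ≤ ∑ p ∈ PZ z, (p : ℝ)⁻¹ := sum_nonneg h0
    have e : (∑ p ∈ PZ z, (p : ℝ)⁻¹) ^ (2 * j + 1) / ((2 * j + 1).factorial : ℝ) ≤
        (2 * (Real.log l + 72)) ^ (2 * j + 1) / ((2 * j + 1).factorial : ℝ) := by
      gcongr; linarith
    have V0 := Vz_pos z
    have f : 1 ≤ Vz z * l := by
      rwa [inv_le_iff_one_le_mul₀' V0] at hV
    have g : l ^ 5 * esym (PZ z) (fun p => (p : ℝ)⁻¹) (2 * j + 1) ≤ Real.exp 432 :=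
      (mul_le_mul_of_nonneg_left (c.trans e) (by positivity)).trans d
    have e0 := esym_nonneg h0 (2 * j + 1)
    change Vz z / 2 ≤ Vz z - _
    set t := esym (PZ z) (fun p => (p : ℝ)⁻¹) (2 * j + 1)
    have h2 : l ^ 2 ≤ l ^ 5 := pow_le_pow_right₀ l1 (by norm_num)
    have h3 : l ^ 2 * t ≤ l / 4 := by nlinarith
    have h4 : l * t ≤ 1 / 4 := by
      by_contra hc
      nlinarith
    have h5 : l * (4 * t) ≤ l * Vz z := by linarith
    have := le_of_mul_le_mul_left h5 (by linarith)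
    linarith

/-- the products of `k` distinct primes of `E` -/
noncomputable def DE (E : Finset ℕ) (k : ℕ) : Finset ℕ :=
  (E.powersetCard k).image fun S => ∏ q ∈ S, q

lemma DE_sum {E : Finset ℕ} (hE : ∀ p ∈ E, p.Prime) (k : ℕ) :
    ∑ d ∈ DE E k, (d : ℝ)⁻¹ = ek E k := by
  rw [DE, sum_image, ek, esym]
  · simp only [Nat.cast_prod, ← prod_inv_distrib]
  · intro S hS S' hS' h
    have a : ∀ p ∈ S, p.Prime := fun p hp => hE p ((mem_powersetCard.1 hS).1 hp)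
    have b : ∀ p ∈ S', p.Prime := fun p hp => hE p ((mem_powersetCard.1 hS').1 hp)
    rw [← Nat.primeFactors_prod a, ← Nat.primeFactors_prod b]
    exact congrArg _ h

lemma DE_size {E : Finset ℕ} {H : ℝ} (hE : ∀ p ∈ E, p.Prime ∧ (p : ℝ) ≤ H) {k d : ℕ}
    (hd : d ∈ DE E k) : 1 ≤ d ∧ (d : ℝ) ≤ H ^ k := by
  obtain ⟨S, hS, rfl⟩ := mem_image.1 hd
  obtain ⟨s1, s2⟩ := mem_powersetCard.1 hS
  refine ⟨prod_pos fun p hp => (hE p (s1 hp)).1.pos, ?_⟩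
  rw [Nat.cast_prod, ← s2]
  exact (prod_le_prod (fun _ _ => by positivity) fun p hp => (hE p (s1 hp)).2).trans_eq
    (prod_const _)

lemma DE_spec {z : ℝ} {E : Finset ℕ} {k d m : ℕ} (hz : 0 ≤ z)
    (hE : ∀ p ∈ E, p.Prime ∧ (p : ℝ) ≤ z) (hd : d ∈ DE E k) (hm : Rou z m) (m0 : m ≠ 0) :
    RE z E k (d * m : ℕ) ∧ sp z (d * m) = d ∧ rp z (d * m) = m := by
  have d1 := (DE_size hE hd).1
  obtain ⟨S, hS, rfl⟩ := mem_image.1 hd
  obtain ⟨s1, s2⟩ := mem_powersetCard.mp hS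
  have h1 : ∀ r : ℕ, r.Prime → r ∣ ∏ q ∈ S, q → r ∈ S := fun r hr h => by
    obtain ⟨q, hq, h⟩ := (Prime.dvd_finsetProd_iff hr.prime _).mp h
    rwa [(Nat.prime_dvd_prime_iff_eq hr (hE q (s1 hq)).1).mp h]
  have h2 : ∀ r : ℕ, r.Prime → (r : ℝ) ≤ z → (r : ℤ) ∣ ((∏ q ∈ S, q) * m : ℕ) → r ∈ S :=
    fun r hr hrz h => by
      rw [Int.natCast_dvd_natCast] at h
      rcases (Nat.Prime.dvd_mul hr).mp h with h | h
      · exact h1 r hr h
      · exact absurd (hm r hr h) (not_lt.mpr hrz)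
  refine ⟨⟨?_, fun r hr h => s1 (h2 r (PZ_prime hr) ((mem_PZ hz).mp hr).2 h)⟩,
    sp_eq (fun r hr h => (hE r (s1 (h1 r hr h))).2) hm (mul_ne_zero (by omega) m0)⟩
  rw [← s2, wE]
  congr 1
  ext r
  rw [mem_filter]
  refine ⟨fun h => h2 r (hE r h.1).1 (hE r h.1).2 h.2, fun h => ⟨s1 h, ?_⟩⟩
  rw [Int.natCast_dvd_natCast]
  exact (dvd_prod_of_mem _ h).mul_right m

lemma FF_ge {z : ℝ} {E : Finset ℕ} {k a : ℕ} (hz : 0 ≤ z) (hE : ∀ p ∈ E, p.Prime ∧ (p : ℝ) ≤ z)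
    (ha : ∀ d ∈ DE E k, d < a) :
    (Vz z)⁻¹ * ∑ d ∈ DE E k, (if d ∣ a then rf z (a / d) else 0) ≤ FF z E k a := by
  have key : ∀ d ∈ DE E k, (if d ∣ a then rf z (a / d) else 0) ≠ 0 →
      RE z E k a ∧ sp z a = d ∧ z < rp z a := by
    intro d hd h
    have h1 : d ∣ a := by by_contra hc; exact h (if_neg hc)
    rw [if_pos h1] at h
    have h2 : Rough z (a / d) := by by_contra hc; exact h (if_neg hc)
    have d1 := (DE_size hE hd).1
    obtain ⟨m, rfl⟩ := h1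
    rw [Nat.mul_div_cancel_left _ d1] at h2
    have m1 : 1 < m := by
      by_contra hc
      have := ha d hd
      have : d * m ≤ d * 1 := Nat.mul_le_mul_left _ (by omega)
      omega
    obtain ⟨a1, a2, a3⟩ := DE_spec hz hE hd h2 (by omega)
    refine ⟨a1, a2, ?_⟩
    rw [a3]
    exact (h2 _ (Nat.minFac_prime (by omega)) (Nat.minFac_dvd m)).trans_le
      (by exact_mod_cast Nat.minFac_le (by omega))
  by_cases h : ∃ d ∈ DE E k, (if d ∣ a then rf z (a / d) else 0) ≠ 0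
  · obtain ⟨d, hd, h⟩ := h
    obtain ⟨a1, a2, a3⟩ := key d hd h
    rw [FF, if_pos ⟨a1, a3⟩, sum_eq_single d (fun e he hne => by
      by_contra hc
      exact hne ((key e he hc).2.1.symm.trans a2)) fun hc => absurd hd hc]
    refine mul_le_of_le_one_right (inv_pos.2 (Vz_pos z)).le ?_
    split_ifs
    · exact rf_le_one _ _
    · exact zero_le_one
  · rw [sum_eq_zero fun d hd => by by_contra hc; exact h ⟨d, hd, hc⟩, mul_zero]
    exact FF_nonneg _ _ _ _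

/-- the weighted sum over the multiples of products of two primes -/
noncomputable def PS (x : ℕ) (T : ℝ) (P Q : Finset ℕ) (w : ℕ → ℝ) : ℝ :=
  ∑ p ∈ P, ∑ q ∈ Q, ∑ a ∈ Icc 1 (2 * x), w a * gk x T (p * q * a)

lemma log_sqrt_le (x : ℕ) : Real.log x.sqrt ≤ Real.log x := by
  rcases Nat.eq_zero_or_pos x with rfl | h
  · simp
  · exact Real.log_le_log (by exact_mod_cast Nat.sqrt_pos.2 h) (by exact_mod_cast Nat.sqrt_le_self x)

lemma ev_H (k : ℕ) : ∀ᶠ X : ℕ in atTop, Real.exp (Real.log X ^ (1 / 4 : ℝ)) ≤ zz X ∧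
    2 * Real.exp (Real.log X ^ (1 / 4 : ℝ)) ^ k ≤ (X : ℝ) ^ del := by
  have hdel : 0 < del := by norm_num [del]
  filter_upwards [TB_ev_small (C := k + 1) (by positivity) hdel, TB_tend.eventually_ge_atTop 1,
    eventually_ge_atTop 1] with X hs l1 X1
  refine ⟨Real.exp_le_exp.2 (Real.rpow_le_rpow_of_exponent_le l1 (by norm_num)), ?_⟩
  set l := Real.log X with hldef
  have ll : 0 ≤ Real.log l := Real.log_nonneg l1
  have p1 : 0 ≤ l ^ (24 / 25 : ℝ) := by positivity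
  have p2 : 0 ≤ l ^ (1 / 4 : ℝ) := by positivity
  have p3 := mul_nonneg ll p1
  have k0 : (0 : ℝ) ≤ k := Nat.cast_nonneg k
  have h2 : (2 : ℝ) ≤ Real.exp 1 := by linarith [Real.add_one_le_exp 1]
  refine (mul_le_mul_of_nonneg_right h2 (by positivity)).trans ?_
  rw [← Real.exp_nat_mul, ← Real.exp_add, Real.rpow_def_of_pos (x := X) (by exact_mod_cast X1),
    Real.exp_le_exp, ← hldef]
  nlinarith [mul_nonneg k0 ll, mul_nonneg k0 p1, mul_nonneg k0 p3]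

lemma sum4 (P Q D E : Finset ℕ) (f : ℕ → ℝ) (G : ℝ) :
    ∑ p ∈ P, ∑ q ∈ Q, ∑ d ∈ D, ∑ e ∈ E, f e * (G / ((p : ℝ) * q * d * e)) =
      G * ((∑ p ∈ P, (p : ℝ)⁻¹) * (∑ q ∈ Q, (q : ℝ)⁻¹) * ∑ d ∈ D, (d : ℝ)⁻¹) *
        ∑ e ∈ E, f e / e := by
  have h : ∀ p q d : ℕ, ∑ e ∈ E, f e * (G / ((p : ℝ) * q * d * e)) =
      (p : ℝ)⁻¹ * ((q : ℝ)⁻¹ * ((d : ℝ)⁻¹ * (G * ∑ e ∈ E, f e / e))) := fun p q d => by
    simp only [mul_sum]
    exact sum_congr rfl fun e _ => by ring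
  simp only [h, ← mul_sum, ← sum_mul]
  ring

theorem flat_ge (A k : ℕ) : ∀ᶠ x : ℕ in atTop, ∀ (P Q E : Finset ℕ),
    (∀ p ∈ P, (x : ℝ) ^ (1 / 6 : ℝ) ≤ p ∧ (p : ℝ) ≤ 2 * (x : ℝ) ^ (1 / 6 : ℝ)) →
    (∀ q ∈ Q, 1 ≤ q ∧ q * (x : ℝ) ^ (1 / 6 : ℝ) ≤ (x : ℝ) ^ (1 / 2 + del)) →
    (∀ p ∈ P, ∀ q ∈ Q, ((p * q : ℕ) : ℝ) ≤ 2 * √(x : ℝ)) →
    (∀ p ∈ E, p.Prime ∧ (p : ℝ) ≤ Real.exp (Real.log x.sqrt ^ (1 / 4 : ℝ))) →
    ∀ T : ℝ, Real.log x ^ 2 ≤ T → T ≤ Real.log x ^ A * √(x : ℝ) →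
    Gam x T * ((∑ p ∈ P, (p : ℝ)⁻¹) * (∑ q ∈ Q, (q : ℝ)⁻¹) * ek E k / 2
      - Real.log x * (x : ℝ) ^ (-del)) ≤ PS x T P Q (FF (zz x.sqrt) E k) := by
  have hdel : 0 < del := by norm_num [del]
  filter_upwards [TI2 A, ev_sqrt low_sieve, ev_sqrt (ev_H k), ev_sqrt Vz_inv_le,
    eventually_ge_atTop 1, su_ev 4 (show (0 : ℝ) < 1 / 4 by norm_num)]
    with x hI hS hH hV x1 h4 P Q E hP hQ hPQ hE T hT hT'
  obtain ⟨D, lam, hD, hl, hpt, hm⟩ := hS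
  have hx1 : (1 : ℝ) ≤ x := by exact_mod_cast x1
  have hx0 : (0 : ℝ) < x := by linarith
  set z := zz x.sqrt with hz
  have z0 : 0 < z := Real.exp_pos _
  have V0 := Vz_pos z
  have sd : (x.sqrt : ℝ) ^ del ≤ (x : ℝ) ^ del :=
    Real.rpow_le_rpow (by positivity) (by exact_mod_cast Nat.sqrt_le_self x) hdel.le
  have hEz : ∀ p ∈ E, p.Prime ∧ (p : ℝ) ≤ z := fun p hp => ⟨(hE p hp).1, (hE p hp).2.trans hH.1⟩
  have hDE : ∀ d ∈ DE E k, 1 ≤ d ∧ 2 * (d : ℝ) ≤ (x : ℝ) ^ del := fun d hd =>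
    ⟨(DE_size hE hd).1, by linarith [(DE_size hE hd).2, hH.2]⟩
  have key := (abs_le.1 (hI P Q (DE E k) D lam hP hQ hDE
    (fun e he => ⟨(hD e he).1, (hD e he).2.trans sd⟩) hl T hT hT')).1
  have P1 : ∀ p ∈ P, 1 ≤ p := fun p hp => by
    exact_mod_cast (Real.one_le_rpow hx1 (by norm_num)).trans (hP p hp).1
  have G0 : 0 ≤ Gam x T := sum_nonneg fun _ _ => gk_nonneg _ _ _
  have a1 : (Vz z)⁻¹ * ∑ p ∈ P, ∑ q ∈ Q, ∑ d ∈ DE E k, ∑ e ∈ D, lam e * siG x T (p * q * d * e)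
      ≤ PS x T P Q (FF z E k) := by
    rw [PS, mul_sum]
    refine sum_le_sum fun p hp => ?_
    rw [mul_sum]
    refine sum_le_sum fun q hq => ?_
    have pq : 0 < p * q := Nat.mul_pos (P1 p hp) (hQ q hq).1
    have b1 : ∀ d ∈ DE E k, ∑ e ∈ D, lam e * siG x T (p * q * d * e) ≤
        ∑ a ∈ Icc 1 (2 * x), (if d ∣ a then rf z (a / d) else 0) * gk x T (p * q * a) := by
      intro d hd
      have d1 := (hDE d hd).1
      rw [si_swap x T (Nat.mul_pos pq d1) D (fun e he => (hD e he).1)]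
      simp only [ite_mul, zero_mul]
      rw [si_dvd_sum x T pq d1 (fun a => rf z (a / d))]
      refine sum_le_sum fun m _ => ?_
      rw [Nat.mul_div_cancel_left _ d1, mul_assoc (p * q)]
      exact mul_le_mul_of_nonneg_right (hpt m) (gk_nonneg _ _ _)
    refine (mul_le_mul_of_nonneg_left (sum_le_sum b1) (inv_pos.2 V0).le).trans ?_
    rw [sum_comm, mul_sum]
    refine sum_le_sum fun a _ => ?_
    rw [← sum_mul, ← mul_assoc]
    by_cases hg : gk x T (p * q * a) = 0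
    · rw [hg, mul_zero, mul_zero]
    refine mul_le_mul_of_nonneg_right (FF_ge z0.le hEz fun d hd => ?_) (gk_nonneg _ _ _)
    have c1 : (x : ℝ) < 2 * ((p * q : ℕ) * a) := by exact_mod_cast (gk_ne_zero hg).1
    have c2 := mul_le_mul_of_nonneg_right (hPQ p hp q hq) (Nat.cast_nonneg (α := ℝ) a)
    have c3 : (x : ℝ) ^ del ≤ (x : ℝ) ^ (1 / 4 : ℝ) :=
      Real.rpow_le_rpow_of_exponent_le hx1 (by norm_num [del])
    have c4 : (x : ℝ) ^ (1 / 4 : ℝ) * (x : ℝ) ^ (1 / 4 : ℝ) = √(x : ℝ) := by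
      rw [← Real.rpow_add hx0, Real.sqrt_eq_rpow]; norm_num
    have c5 := Real.mul_self_sqrt hx0.le
    have c6 : 0 < √(x : ℝ) := Real.sqrt_pos.2 hx0
    have c7 : √(x : ℝ) < 4 * a := by
      by_contra hc
      nlinarith
    have c8 : (d : ℝ) < a := by nlinarith [(hDE d hd).2]
    exact_mod_cast c8
  have a2 : ∑ p ∈ P, ∑ q ∈ Q, ∑ d ∈ DE E k, ∑ e ∈ D, lam e *
        (siG x T (p * q * d * e) - Gam x T / ((p : ℝ) * q * d * e))
      = ∑ p ∈ P, ∑ q ∈ Q, ∑ d ∈ DE E k, ∑ e ∈ D, lam e * siG x T (p * q * d * e) -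
        Gam x T * ((∑ p ∈ P, (p : ℝ)⁻¹) * (∑ q ∈ Q, (q : ℝ)⁻¹) * ek E k) *
          ∑ e ∈ D, lam e / e := by
    rw [← DE_sum fun p hp => (hE p hp).1]
    simp only [mul_sub, sum_sub_distrib, sum4]
  rw [a2] at key
  refine le_trans ?_ a1
  have s0 : 0 ≤ Gam x T * ((∑ p ∈ P, (p : ℝ)⁻¹) * (∑ q ∈ Q, (q : ℝ)⁻¹) * ek E k) :=
    mul_nonneg G0 (mul_nonneg (by positivity) (ek_nonneg _ _))
  have a3 := mul_le_mul_of_nonneg_left hm s0
  have a4 : (Vz z)⁻¹ * (Gam x T * (x : ℝ) ^ (-del)) ≤ Real.log x * (Gam x T * (x : ℝ) ^ (-del)) :=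
    mul_le_mul_of_nonneg_right (hV.trans (log_sqrt_le x)) (by positivity)
  set W := Gam x T * ((∑ p ∈ P, (p : ℝ)⁻¹) * (∑ q ∈ Q, (q : ℝ)⁻¹) * ek E k) with hW
  have a5 : (Vz z)⁻¹ * (W * (Vz z / 2) - Gam x T * (x : ℝ) ^ (-del)) ≤ _ :=
    mul_le_mul_of_nonneg_left (show _ ≤ ∑ p ∈ P, ∑ q ∈ Q, ∑ d ∈ DE E k, ∑ e ∈ D,
      lam e * siG x T (p * q * d * e) by linarith) (inv_pos.2 V0).le
  refine le_trans ?_ a5
  have a6 : (Vz z)⁻¹ * (W * (Vz z / 2)) = W / 2 := by field_simp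
  rw [mul_sub (Vz z)⁻¹, a6, hW]
  linarith

end Pool.Agent.Work.MP_82fd4a_nt.E
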