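import Pool.Agent.Work.MP_82fd4a_nt.E.Defs
import Pool.Agent.Work.MP_678620_nt.SPInt1

/-! The dilation identity for twisted functions. -/

set_option autoImplicit false
open Finset Pool.Agent.Lib.LargeSieve

namespace Pool.Agent.Work.MP_82fd4a_nt.E

open Pool.Agent.Work.MP_678620_nt

variable {ι : Type} [Fintype ι] [DecidableEq ι] (S : Sys ι)

lemma term_diffT {N : ℕ} (hN : 2 * S.h.natAbs ≤ N) {F0 F g : ℤ → ℂ}
    (hF1 : ∀ y, ‖F y‖ ≤ 1) (hg1 : ∀ y, ‖g y‖ ≤ 1) {d : Finset ι} (hd : d ∈ S.DD)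
    (hF : ∀ n n' : ℤ, F (S.pr d * n) * g (S.pr d * n') = F0 n * g n') {n : ℤ}
    (hn : n ∈ Ioc (N : ℤ) (2 * N)) :
    ‖(if (S.Zi n).card = S.k then F0 n else 0) *
        (if (S.Zi (n + S.h)).card = S.k' then g (n + S.h) else 0) - S.Bt F g d (S.pr d * n)‖
      ≤ (if n ∈ S.ExS N d then (1 : ℝ) else 0) + (if n + S.h ∈ S.ExS N d then (1 : ℝ) else 0) := by
  have e1 : (S.pr d : ℤ) * n + S.jp d = S.pr d * (n + S.h) := by unfold Sys.jp; ring
  have hb : ‖F0 n * g (n + S.h)‖ ≤ 1 := by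
    rw [← hF, norm_mul]
    exact mul_le_one₀ (hF1 _) (norm_nonneg _) (hg1 _)
  have hle : ‖(if (S.Zi n).card = S.k then F0 n else 0) *
        (if (S.Zi (n + S.h)).card = S.k' then g (n + S.h) else 0) - S.Bt F g d (S.pr d * n)‖
      ≤ 1 := by
    unfold Sys.Bt Sys.Gt
    rw [e1]
    split_ifs <;> simp only [hF, mul_zero, zero_mul, sub_self, sub_zero, zero_sub, norm_neg,
      norm_zero, zero_le_one, hb]
  rw [mem_Ioc] at hn
  by_cases h1 : n ∈ S.ExS N d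
  · refine hle.trans ?_
    rw [if_pos h1]
    split_ifs <;> norm_num
  by_cases h2 : n + S.h ∈ S.ExS N d
  · refine hle.trans ?_
    rw [if_neg h1, if_pos h2]
    norm_num
  rw [if_neg h1, if_neg h2]
  have m1 : n ∈ Icc (1 : ℤ) (3 * N) := by rw [mem_Icc]; omega
  have m2 : n + S.h ∈ Icc (1 : ℤ) (3 * N) := by rw [mem_Icc]; omega
  simp only [Sys.ExS, mem_filter, m1, m2, true_and, not_or] at h1 h2
  have c1 := S.card_Zi_mul hd h1.1
  have c2 := S.card_Zi_mul hd h2.1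
  have i1 : (S.Zi (S.pr d * n)).card = S.s + S.k ↔ (S.Zi n).card = S.k := by omega
  have i2 : S.Cg ((S.pr d * (n + S.h) : ℤ) : S.G) ↔ (S.Zi (n + S.h)).card = S.k' := by
    constructor
    · intro hc
      have : (S.Zi (S.pr d * (n + S.h))).card = S.s + S.k' := hc.1
      omega
    · intro hc
      have h3 : (S.Zi (S.pr d * (n + S.h))).card = S.s + S.k' := by omega
      refine ⟨h3, ?_⟩
      by_contra hng
      exact h2.2 ⟨h3, hng⟩
  unfold Sys.Bt Sys.Gt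
  rw [e1]
  simp only [i1, i2]
  split_ifs <;> simp [hF]

lemma step1T {N : ℕ} (hN : 2 * S.h.natAbs ≤ N) {η : ℝ} (hη0 : 0 ≤ η) {F0 F g : ℤ → ℂ}
    (hF1 : ∀ y, ‖F y‖ ≤ 1) (hg1 : ∀ y, ‖g y‖ ≤ 1) {d : Finset ι} (hd : d ∈ S.DD)
    (hη : (S.pr d : ℝ) ≤ (1 + η) * S.T)
    (hF : ∀ n n' : ℤ, F (S.pr d * n) * g (S.pr d * n') = F0 n * g n') :
    ‖S.S0 N F0 g - ∑ n ∈ S.Rg N d, S.Bt F g d (S.pr d * n)‖
      ≤ 2 * (S.ExS N d).card + (3 * η * N + 2) := by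
  set I : Finset ℤ := Ioc (N : ℤ) (2 * N) with hI
  set B : ℤ → ℂ := fun n => S.Bt F g d (S.pr d * n) with hB
  have hB1 : ∀ n, ‖B n‖ ≤ 1 := fun n => S.norm_Bt_le hF1 hg1 _ _
  have hTd : S.T ≤ S.pr d := S.DD_lo d hd
  have hT : 1 ≤ S.T := S.T_pos
  have hTr : (0 : ℝ) < S.T := by exact_mod_cast hT
  have hNr : (0 : ℝ) ≤ N := by positivity
  have a1 : ‖S.S0 N F0 g - ∑ n ∈ I, B n‖ ≤ 2 * (S.ExS N d).card := by
    unfold Sys.S0
    rw [← sum_sub_distrib]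
    refine (norm_sum_le _ _).trans ?_
    refine (sum_le_sum fun n hn => term_diffT S hN hF1 hg1 hd hF hn).trans ?_
    rw [sum_add_distrib, sum_boole, sum_boole, two_mul ((S.ExS N d).card : ℝ)]
    refine add_le_add ?_ ?_
    · exact_mod_cast card_le_card fun n hn => (mem_filter.1 hn).2
    · have : (filter (fun n => n + S.h ∈ S.ExS N d) (Ioc (N : ℤ) (2 * N))).card
          ≤ (S.ExS N d).card := by
        refine card_le_card_of_injOn (fun n => n + S.h) (fun n hn => ?_) ?_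
        · exact (mem_filter.1 (mem_coe.1 hn)).2
        · intro x _ y _ hxy
          exact add_right_cancel hxy
      exact_mod_cast this
  have a2 : ((I \ S.Rg N d).card : ℝ) ≤ 2 * η * N + 1 := by
    refine card_le_of_window _ (2 * N) (by positivity) fun n hn => ?_
    rw [mem_sdiff, hI, mem_Ioc] at hn
    obtain ⟨⟨h1, h2⟩, h3⟩ := hn
    refine ⟨?_, h2⟩
    have m1 : n ∈ Icc (1 : ℤ) (2 * N) := by rw [mem_Icc]; omega
    simp only [Sys.Rg, mem_filter, m1, true_and, mem_Ioc, not_and, not_le] at h3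
    have hlo : ((S.T * N : ℕ) : ℤ) < S.pr d * n := by
      push_cast
      have : (S.T : ℤ) ≤ S.pr d := by exact_mod_cast hTd
      have hT' : (1 : ℤ) ≤ S.T := by exact_mod_cast hT
      nlinarith
    have h4 : ((2 * (S.T * N) : ℕ) : ℝ) < (S.pr d : ℝ) * n := by exact_mod_cast h3 hlo
    push_cast at h4
    have hn0 : (0 : ℝ) ≤ n := by exact_mod_cast (by omega : (0 : ℤ) ≤ n)
    have hn2 : (n : ℝ) ≤ 2 * N := by exact_mod_cast h2
    have h5 : (S.T : ℝ) * (2 * N) < S.T * ((1 + η) * n) := by nlinarith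
    have h6 := lt_of_mul_lt_mul_left h5 hTr.le
    push_cast
    nlinarith
  have a3 : ((S.Rg N d \ I).card : ℝ) ≤ η * N + 1 := by
    refine card_le_of_window _ N (by positivity) fun n hn => ?_
    rw [mem_sdiff, hI, mem_Ioc] at hn
    obtain ⟨h1, h3⟩ := hn
    simp only [Sys.Rg, mem_filter, mem_Icc, mem_Ioc] at h1
    obtain ⟨⟨h1, h2⟩, h4, _⟩ := h1
    have hnN : n ≤ N := by omega
    refine ⟨?_, hnN⟩
    have h5 : ((S.T * N : ℕ) : ℝ) < (S.pr d : ℝ) * n := by exact_mod_cast h4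
    push_cast at h5
    have hn0 : (0 : ℝ) ≤ n := by exact_mod_cast (by omega : (0 : ℤ) ≤ n)
    have hn2 : (n : ℝ) ≤ N := by exact_mod_cast hnN
    have h6 : (S.T : ℝ) * N < S.T * ((1 + η) * n) := by nlinarith
    have h7 := lt_of_mul_lt_mul_left h6 hTr.le
    push_cast
    nlinarith
  have a4 : ‖∑ n ∈ I, B n - ∑ n ∈ S.Rg N d, B n‖ ≤ 3 * η * N + 2 := by
    rw [← sum_sdiff_sub_sum_sdiff]
    refine (norm_sub_le _ _).trans ?_
    have b1 := norm_sum_le_card (I \ S.Rg N d) (f := B) fun n _ => hB1 n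
    have b2 := norm_sum_le_card (S.Rg N d \ I) (f := B) fun n _ => hB1 n
    linarith
  calc _ = ‖(S.S0 N F0 g - ∑ n ∈ I, B n) + (∑ n ∈ I, B n - ∑ n ∈ S.Rg N d, B n)‖ := by
        congr 1; ring
    _ ≤ _ := (norm_add_le _ _).trans (add_le_add a1 a4)

theorem int1T {N : ℕ} (hN : 2 * S.h.natAbs ≤ N) {i0 : ι} (hW : 10 * (S.T * N) < S.m i0) {η : ℝ}
    (hη0 : 0 ≤ η) (hη : ∀ d ∈ S.DD, (S.pr d : ℝ) ≤ (1 + η) * S.T) {F0 F g : ℤ → ℂ}
    (hF1 : ∀ y, ‖F y‖ ≤ 1) (hg1 : ∀ y, ‖g y‖ ≤ 1)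
    (hF : ∀ d ∈ S.DD, ∀ n n' : ℤ, F (S.pr d * n) * g (S.pr d * n') = F0 n * g n') :
    S.DD.card * ‖S.S0 N F0 g‖ ≤ √(2 * (S.T * N) * S.es (S.s + S.k)) * √(S.TA (S.GX N g))
      + 2 * S.Ex N + S.DD.card * (3 * η * N + 2) := by
  have h3 := S.step3 hN hW (g := g) hF1
  have h1 : ‖∑ d ∈ S.DD, (S.S0 N F0 g - ∑ n ∈ S.Rg N d, S.Bt F g d (S.pr d * n))‖
      ≤ 2 * S.Ex N + S.DD.card * (3 * η * N + 2) := by
    refine (norm_sum_le _ _).trans ?_
    refine (sum_le_sum fun d hd =>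
      step1T S hN hη0 hF1 hg1 hd (hη d hd) (hF d hd)).trans (le_of_eq ?_)
    rw [sum_add_distrib, ← mul_sum, S.Ex_eq, sum_const, nsmul_eq_mul]
    push_cast
    rfl
  have e : (S.DD.card : ℝ) * ‖S.S0 N F0 g‖
      = ‖∑ d ∈ S.DD, ∑ n ∈ S.Rg N d, S.Bt F g d (S.pr d * n)
        + ∑ d ∈ S.DD, (S.S0 N F0 g - ∑ n ∈ S.Rg N d, S.Bt F g d (S.pr d * n))‖ := by
    rw [sum_sub_distrib, add_sub_cancel, sum_const, nsmul_eq_mul, norm_mul, Complex.norm_natCast]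
  rw [e]
  refine (norm_add_le _ _).trans ?_
  linarith

end Pool.Agent.Work.MP_82fd4a_nt.E
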