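import Pool.Agent.Work.MP_82fd4a_nt.E.Up
import Pool.Agent.Work.MP_82fd4a_nt.Mert
import Pool.Agent.Work.MP_678620_nt.TBSing

/-! Squarefree integers with a given large number of prime factors in very short intervals. -/

set_option autoImplicit false
open Filter Topology Finset

namespace Pool.Agent.Work.MP_82fd4a_nt.E

open Pool.Agent.Work.MP_82fd4a_nt.Z Pool.Agent.Work.MP_678620_nt

lemma pr_mass : ∀ᶠ lo : ℝ in atTop, 1 / (4 * lo) ≤ ∑ p ∈ Pr lo (lo + 1 / 3), (p : ℝ)⁻¹ ∧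
    ∑ p ∈ Pr lo (lo + 1 / 3), (p : ℝ)⁻¹ ≤ 1 := by
  filter_upwards [mertens_pnt 2, eventually_ge_atTop 100] with lo h h1
  have l0 : 0 < lo := by linarith
  obtain ⟨a, b⟩ := abs_le.1 (h (lo + 1 / 3) (by linarith))
  have p : 0 < (lo + 1 / 3) / lo := by positivity
  have c := Real.one_sub_inv_le_log_of_pos p
  have d := Real.log_le_sub_one_of_pos p
  have e1 : 1 - ((lo + 1 / 3) / lo)⁻¹ = 1 / (3 * lo + 1) := by field_simp; ring
  have e2 : (lo + 1 / 3) / lo - 1 ≤ 1 / 2 := by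
    rw [sub_le_iff_le_add, div_le_iff₀ l0]; linarith
  have e3 : 1 / lo ^ 2 ≤ 1 / 2 := one_div_le_one_div_of_le (by norm_num) (by nlinarith)
  have e4 : 1 / (4 * lo) + 1 / lo ^ 2 ≤ 1 / (3 * lo + 1) := by
    rw [div_add_div _ _ (by positivity) (by positivity), div_le_div_iff₀ (by positivity)
      (by positivity)]
    nlinarith [mul_pos l0 l0, mul_nonneg (mul_pos l0 l0).le (show 0 ≤ lo - 100 by linarith)]
  constructor <;> linarith

lemma ev_Eok : ∀ᶠ X : ℕ in atTop,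
    Eok X (1 / 8) (Pr (Real.log X ^ (1 / 8 : ℝ)) (Real.log X ^ (1 / 4 : ℝ))) := by
  have t : Tendsto (fun X : ℕ => Real.log X ^ (1 / 8 : ℝ)) atTop atTop :=
    (tendsto_rpow_atTop (by norm_num)).comp TB_tend
  filter_upwards [t.eventually (mertens_pnt 1), t.eventually_ge_atTop 3,
    TB_tend.eventually_ge_atTop 1] with X h h3 l1
  have e : Real.log X ^ (1 / 4 : ℝ) = Real.log X ^ (1 / 8 : ℝ) * Real.log X ^ (1 / 8 : ℝ) := by
    rw [← Real.rpow_add (by linarith)]; norm_num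
  refine ⟨fun p hp => (mem_Pr.1 hp).1, fun p hp => ?_, fun p hp => ?_, ?_⟩
  · obtain ⟨a, b, -⟩ := mem_Pr.1 hp
    exact ((Real.lt_log_iff_exp_lt (by exact_mod_cast a.pos)).1 b).le
  · obtain ⟨a, -, b⟩ := mem_Pr.1 hp
    exact (Real.log_le_iff_le_exp (by exact_mod_cast a.pos)).1 b
  · set u := Real.log X ^ (1 / 8 : ℝ)
    have a := (abs_le.1 (h (Real.log X ^ (1 / 4 : ℝ)) (by rw [e]; nlinarith))).1
    have b : Real.log X ^ (1 / 4 : ℝ) / u = u := by rw [e]; field_simp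
    have c : 1 ≤ Real.log u := by
      rw [Real.le_log_iff_exp_le (by linarith)]; linarith [Real.exp_one_lt_d9]
    have d : 1 / u ^ 1 ≤ 1 / 2 := one_div_le_one_div_of_le (by norm_num) (by linarith)
    rw [b] at a
    linarith

lemma win_of {D : ℝ} {x : ℕ} (hD : 1 ≤ D) (hx : 1 ≤ x) (h : 2 * D ≤ (x : ℝ) ^ (1 / 100 : ℝ)) :
    ∃ Y : ℕ, Win D x Y ∧ 1 ≤ Y ∧ (Y : ℝ) ≤ √(x : ℝ) ∧
      Real.log x / 2 - Real.log x / 100 ≤ Real.log Y ∧ Real.log Y ≤ Real.log x / 2 := by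
  have x1 : (1 : ℝ) ≤ x := by exact_mod_cast hx
  have D0 : 0 < D := by linarith
  have h1 : D ≤ √(x : ℝ) := by
    rw [Real.sqrt_eq_rpow]
    linarith [Real.rpow_le_rpow_of_exponent_le x1 (show (1 / 100 : ℝ) ≤ 1 / 2 by norm_num)]
  have h2 := Real.log_le_log (by positivity) h
  rw [Real.log_rpow (by linarith)] at h2
  have s0 : 0 < √(x : ℝ) := by linarith
  have a1 : 1 ≤ √(x : ℝ) / D := (one_le_div D0).2 h1
  have Y1 : 1 ≤ ⌊√(x : ℝ) / D⌋₊ := Nat.le_floor (by exact_mod_cast a1)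
  have Y2 : (1 : ℝ) ≤ ⌊√(x : ℝ) / D⌋₊ := by exact_mod_cast Y1
  have a2 := Nat.floor_le (show 0 ≤ √(x : ℝ) / D by positivity)
  have a3 := Nat.lt_floor_add_one (√(x : ℝ) / D)
  set Y := ⌊√(x : ℝ) / D⌋₊
  rw [le_div_iff₀ D0] at a2
  rw [div_lt_iff₀ D0] at a3
  have w1 : √(x : ℝ) ≤ 2 * D * Y := by nlinarith
  have w2 : (Y : ℝ) ≤ √(x : ℝ) := by nlinarith
  have e : Real.log √(x : ℝ) = Real.log x / 2 := Real.log_sqrt (Nat.cast_nonneg x)
  refine ⟨Y, ⟨w1, by linarith⟩, Y1, w2, ?_, ?_⟩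
  · have := Real.log_le_log s0 w1
    rw [Real.log_mul (by positivity) (by positivity), e] at this
    linarith
  · rw [← e]
    exact Real.log_le_log (by linarith) w2

lemma log_le_sqrt {x : ℕ} (hx : 16 ≤ x) : Real.log x ≤ 3 * Real.log x.sqrt := by
  have a : 4 ≤ x.sqrt := Nat.le_sqrt.2 hx
  have b := Nat.lt_succ_sqrt x
  have c : x ≤ x.sqrt ^ 3 := by
    have : (x.sqrt + 1) * (x.sqrt + 1) ≤ x.sqrt ^ 3 := by nlinarith [Nat.mul_le_mul a a]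
    exact b.le.trans this
  exact spc_log_three c

lemma fin_num {L κ δ G a b e : ℝ} (hL : 1 ≤ L) (hκ : 1409 ≤ κ * L) (hG : 0 < G)
    (hδ : δ ≤ 1 / L ^ 4) (h1 : G * (κ / (4 * L ^ 2) - L * δ) ≤ a)
    (h2 : b ≤ 2 * L * (G * (1 / L ^ 4 + δ) + δ * (80 * G * 2))) (h3 : a - b ≤ G * e)
    (h4 : e ≤ 27 / L ^ 3) : False := by
  have L0 : 0 < L := by linarith
  have h5 : G * (κ / (4 * L ^ 2)) ≤ G * (L * δ + 2 * L * (1 / L ^ 4) + 322 * (L * δ) + e) := by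
    linarith
  have h6 := le_of_mul_le_mul_left h5 hG
  have h7 : L * δ ≤ 1 / L ^ 3 :=
    (mul_le_mul_of_nonneg_left hδ L0.le).trans_eq (by field_simp)
  have h8 : 2 * L * (1 / L ^ 4) = 2 * (1 / L ^ 3) := by field_simp
  have h9 : 27 / L ^ 3 = 27 * (1 / L ^ 3) := by ring
  have h10 : κ / (4 * L ^ 2) = κ * L / 4 * (1 / L ^ 3) := by field_simp
  have h11 : 0 < 1 / L ^ 3 := by positivity
  nlinarith

theorem near (A : ℕ) : ∃ k0 : ℕ, ∀ k : ℕ, k0 ≤ k → ∀ᶠ x : ℕ in atTop, ∃ n : ℕ,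
    Squarefree n ∧ n.primeFactors.card = k ∧ |(n : ℝ) - x| < √(x : ℝ) / Real.log x ^ A := by
  obtain ⟨k0, hII⟩ := typeII_log (A + 3) (show (0 : ℝ) < 1 / 8 by norm_num)
  refine ⟨k0 + 3, fun K hK => ?_⟩
  obtain ⟨k, rfl⟩ : ∃ k, K = k + 3 := ⟨K - 3, by omega⟩
  have hdel : 0 < del := by norm_num [del]
  set κ : ℝ := (1 / 4) ^ k / k.factorial with hκ
  have κ0 : 0 < κ := by positivity
  obtain ⟨lo0, hlo⟩ := eventually_atTop.1 pr_mass
  have tll : Tendsto (fun X : ℕ => Real.log (Real.log X)) atTop atTop :=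
    Real.tendsto_log_atTop.comp TB_tend
  filter_upwards [hII, flat_ge (A + 3) k, gg_le (A + 3) k, ev_sqrt ev_Eok,
    ev_sqrt (tll.eventually_ge_atTop k), ev_pow 2 (7 * (A + 3 + 10)) (show (0 : ℝ) < 1 / 100 by norm_num),
    ev_sqrt (TB_tend.eventually_ge_atTop (4 * 3 ^ (A + 1))), TB_tend.eventually_ge_atTop (6 * lo0),
    TB_tend.eventually_ge_atTop 10, TB_tend.eventually_ge_atTop (1409 / κ), ev_pow 1 4 hdel,
    ev_sqrt (TB_ev_exp (4 * k + 200) 4 (show (0 : ℝ) < 1 / 8 by norm_num)), ev_sqrt (zz_big 0),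
    eventually_ge_atTop 16, su_ev 2 hdel, ev_pow 2 2 (show (0 : ℝ) < 1 / 2 by norm_num),
    ev_pow 1 (A + 3) (show (0 : ℝ) < 1 / 2 by norm_num)]
    with x h2 hF hG hE hk hD hl hL1 hL2 hL3 hδ hH hz x16 d2 hs1 hs2
  by_contra hc
  simp only [not_exists, not_and, not_lt] at hc
  have hx16 : (16 : ℝ) ≤ x := by exact_mod_cast x16
  have hx1 : (1 : ℝ) ≤ x := by linarith
  have hx0 : (0 : ℝ) < x := by linarith
  have lL := log_sqrt_le x
  have Ll := log_le_sqrt x16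
  rw [← Real.sqrt_eq_rpow] at hs1 hs2
  rw [one_mul] at hs2 hδ
  set L := Real.log x with hL
  set l := Real.log x.sqrt with hldef
  have l1 : 1 ≤ l := by linarith
  have L0 : 0 < L := by linarith
  have s0 : 0 < √(x : ℝ) := Real.sqrt_pos.2 hx0
  have ss := Real.mul_self_sqrt hx0.le
  obtain ⟨Y, hY, Y1, Y2, Y3, Y4⟩ := win_of (D := l ^ (7 * (A + 3 + 10))) (one_le_pow₀ l1)
    (show 1 ≤ x by omega) (le_trans (by gcongr) hD)
  have Y0 : (0 : ℝ) < Y := by exact_mod_cast Y1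
  set E := Pr (l ^ (1 / 8 : ℝ)) (l ^ (1 / 4 : ℝ)) with hEdef
  set P := Pr (L / 6) (L / 6 + 1 / 3) with hP
  set Q := Pr (Real.log Y - L / 6) (Real.log Y - L / 6 + 1 / 3) with hQ
  set T := l ^ (A + 3) * √(x : ℝ) with hT
  have lo1 : lo0 ≤ L / 6 := by linarith
  obtain ⟨p1, p2⟩ := hlo _ lo1
  obtain ⟨q1, q2⟩ := hlo (Real.log Y - L / 6) (by linarith)
  have e6 : (x : ℝ) ^ (1 / 6 : ℝ) = Real.exp (L / 6) := by
    rw [Real.rpow_def_of_pos hx0]; congr 1; ring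
  have l2 := Real.log_two_gt_d9
  have e13 : Real.exp (1 / 3) ≤ 2 := by
    rw [← Real.le_log_iff_exp_le (by norm_num)]; linarith
  have hP1 : ∀ p ∈ P, (x : ℝ) ^ (1 / 6 : ℝ) ≤ p ∧ (p : ℝ) ≤ 2 * (x : ℝ) ^ (1 / 6 : ℝ) := by
    intro p hp
    obtain ⟨a, b, c⟩ := mem_Pr.1 hp
    have p0 : (0 : ℝ) < p := by exact_mod_cast a.pos
    rw [e6]
    refine ⟨((Real.lt_log_iff_exp_lt p0).1 b).le, ((Real.log_le_iff_le_exp p0).1 c).trans ?_⟩
    rw [Real.exp_add, mul_comm]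
    gcongr
  have hQ1 : ∀ q ∈ Q, 1 ≤ q ∧ q * (x : ℝ) ^ (1 / 6 : ℝ) ≤ (x : ℝ) ^ (1 / 2 + del) := by
    intro q hq
    obtain ⟨a, -, c⟩ := mem_Pr.1 hq
    have q0 : (0 : ℝ) < q := by exact_mod_cast a.pos
    refine ⟨a.pos, ?_⟩
    rw [e6, Real.rpow_add hx0, ← Real.sqrt_eq_rpow]
    calc (q : ℝ) * Real.exp (L / 6) ≤ Real.exp (Real.log Y - L / 6 + 1 / 3) * Real.exp (L / 6) := by
          gcongr; exact (Real.log_le_iff_le_exp q0).1 c
      _ = Y * Real.exp (1 / 3) := by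
          rw [← Real.exp_add, ← Real.exp_log Y0, ← Real.exp_add, Real.log_exp]; congr 1; ring
      _ ≤ _ := by gcongr; linarith
  have hPQ : ∀ p ∈ P, ∀ q ∈ Q, Y < p * q ∧ p * q ≤ 2 * Y := by
    intro p hp q hq
    obtain ⟨a, b, c⟩ := mem_Pr.1 hp
    obtain ⟨a', b', c'⟩ := mem_Pr.1 hq
    have p0 : (0 : ℝ) < p := by exact_mod_cast a.pos
    have q0 : (0 : ℝ) < q := by exact_mod_cast a'.pos
    have e := Real.log_mul p0.ne' q0.ne'
    have u1 : (Y : ℝ) < p * q := (Real.log_lt_log_iff Y0 (by positivity)).1 (by linarith)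
    have u2 : (p : ℝ) * q ≤ 2 * Y := (Real.log_le_log_iff (by positivity) (by positivity)).1 (by
      rw [Real.log_mul two_ne_zero Y0.ne']; linarith)
    exact ⟨by exact_mod_cast u1, by exact_mod_cast u2⟩
  have hPQ' : ∀ p ∈ P, ∀ q ∈ Q, ((p * q : ℕ) : ℝ) ≤ 2 * √(x : ℝ) := fun p hp q hq => by
    have : ((p * q : ℕ) : ℝ) ≤ 2 * Y := by exact_mod_cast (hPQ p hp q hq).2
    linarith
  have hpr : ∀ p ∈ P, ∀ q ∈ Q, p.Prime ∧ q.Prime ∧ zz x.sqrt < p ∧ p < q := by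
    intro p hp q hq
    obtain ⟨a, b, c⟩ := mem_Pr.1 hp
    obtain ⟨a', b', c'⟩ := mem_Pr.1 hq
    have p0 : (0 : ℝ) < p := by exact_mod_cast a.pos
    have q0 : (0 : ℝ) < q := by exact_mod_cast a'.pos
    refine ⟨a, a', ?_, ?_⟩
    · refine lt_of_le_of_lt (hz.2.2.trans ?_) ((Real.lt_log_iff_exp_lt p0).1 b)
      rw [← e6]
      exact (Real.rpow_le_rpow (by positivity) (by exact_mod_cast Nat.sqrt_le_self x)
        (by norm_num)).trans (Real.rpow_le_rpow_of_exponent_le hx1 (by norm_num))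
    · exact_mod_cast (Real.log_lt_log_iff p0 q0).1 (by linarith)
  have hEh : ∀ p ∈ E, p.Prime ∧ (p : ℝ) ≤ Real.exp (l ^ (1 / 4 : ℝ)) := fun p hp =>
    ⟨hE.prime p hp, hE.hi p hp⟩
  have T1 : √(x : ℝ) ≤ T := le_mul_of_one_le_left s0.le (one_le_pow₀ l1)
  have T2 : T ≤ L ^ (A + 3) * √(x : ℝ) := by rw [hT]; gcongr
  have T3 : 2 * L ^ 2 ≤ T := hs1.trans T1
  have T4 : T ≤ x := T2.trans ((mul_le_mul_of_nonneg_right hs2 s0.le).trans ss.le)
  have T5 : 2 ≤ T := by nlinarith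
  have T0 : 0 < T := by linarith
  have g1 := Gam_ge (show 1 ≤ T by linarith) T4
  have g2 := Gam_le (x := x) (show 0 < T / 2 by linarith) (by linarith)
  have G0 : 0 < Gam x T := lt_of_lt_of_le (by positivity) g1
  have g3 : Gam x (T / 2) ≤ 80 * Gam x T := by
    refine g2.trans (le_trans (le_of_eq ?_) (mul_le_mul_of_nonneg_left g1 (by norm_num)))
    field_simp; norm_num
  have r1 := h2 E hE k (by omega) hk Y hY _
    (card_le_one_pairs fun p hp q hq => ⟨(hpr p hp q hq).1, (hpr p hp q hq).2.1,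
      (hpr p hp q hq).2.2.2⟩) T T5 le_rfl
  rw [PS_bil T hPQ] at r1
  have r2 := hF P Q E hP1 hQ1 hPQ' hEh T (by nlinarith) T2
  have r3 := hG P Q E hP1 hQ1 hPQ' hpr p2 q2 hEh T _ T3 T2 hc
  have r4 : PS x T P Q (wd (zz x.sqrt) E k) =
      PS x T P Q (GG (zz x.sqrt) E k) - PS x T P Q (FF (zz x.sqrt) E k) := by
    simp only [PS, wd, sub_mul, sum_sub_distrib]
  have k0' : (0 : ℝ) ≤ k := Nat.cast_nonneg k
  have l4 : 1 ≤ l ^ 4 := one_le_pow₀ l1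
  have m1 : κ ≤ ek E k := TB_ek_ge (Real.exp_pos _) hE.lo hE.big k (by nlinarith)
  have m2 : ∑ r ∈ E, ((r : ℝ) ^ 2)⁻¹ ≤ 1 / L ^ 4 := by
    have c1 : L ^ 4 ≤ ⌈L ^ 4⌉₊ := Nat.le_ceil _
    have c2 : (⌈L ^ 4⌉₊ : ℝ) < L ^ 4 + 1 := Nat.ceil_lt_add_one (by positivity)
    have c3 : L ^ 4 ≤ (3 * l) ^ 4 := by gcongr
    refine (TB_inv_sq E (w := ⌈L ^ 4⌉₊) (Nat.ceil_pos.2 (by positivity)) fun p hp => ?_).trans ?_
    · have : (⌈L ^ 4⌉₊ : ℝ) < p := by nlinarith [hE.lo p hp]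
      exact_mod_cast this
    · rw [one_div]; exact inv_anti₀ (by positivity) c1
  have m3 : (x : ℝ) ^ (-del) ≤ 1 / L ^ 4 := by
    rw [Real.rpow_neg hx0.le, one_div]; exact inv_anti₀ (by positivity) hδ
  have m4 : Real.exp (-(T * (√(x : ℝ) / L ^ A) / (4 * x))) ≤ (x : ℝ) ^ (-del) := by
    rw [Real.rpow_def_of_pos hx0, Real.exp_le_exp, ← hL, mul_neg, neg_le_neg_iff]
    have e : T * (√(x : ℝ) / L ^ A) / (4 * x) = l ^ (A + 3) / (4 * L ^ A) := by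
      rw [hT, mul_assoc, ← mul_div_assoc, ss]; field_simp
    rw [e, le_div_iff₀ (by positivity)]
    have c1 : L ^ (A + 1) ≤ (3 * l) ^ (A + 1) := by gcongr
    have c2 : l ^ (A + 1) * l ≤ l ^ (A + 3) := by
      rw [← pow_succ]; exact pow_le_pow_right₀ l1 (by omega)
    have c3 := mul_le_mul_of_nonneg_left hl (show 0 ≤ l ^ (A + 1) by positivity)
    have c4 : del ≤ 1 := by norm_num [del]
    rw [mul_pow] at c1
    calc L * del * (4 * L ^ A) = 4 * L ^ (A + 1) * del := by ring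
      _ ≤ 4 * L ^ (A + 1) := mul_le_of_le_one_right (by positivity) c4
      _ ≤ _ := by linarith
  have m5 : κ / (4 * L ^ 2) ≤ (∑ p ∈ P, (p : ℝ)⁻¹) * (∑ q ∈ Q, (q : ℝ)⁻¹) * ek E k / 2 := by
    have c1 : 1 / L ≤ ∑ p ∈ P, (p : ℝ)⁻¹ :=
      (one_div_le_one_div_of_le (by positivity) (by linarith)).trans p1
    have c2 : 1 / (2 * L) ≤ ∑ q ∈ Q, (q : ℝ)⁻¹ :=
      (one_div_le_one_div_of_le (by linarith) (by linarith)).trans q1
    calc κ / (4 * L ^ 2) = 1 / L * (1 / (2 * L)) * κ / 2 := by field_simp; norm_num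
      _ ≤ _ := by gcongr
  have d0 : 0 ≤ (x : ℝ) ^ (-del) := by positivity
  refine fin_num (L := L) (κ := κ) (δ := (x : ℝ) ^ (-del)) (G := Gam x T) (e := 1 / l ^ (A + 3))
    (by linarith) (by rwa [div_le_iff₀' κ0] at hL3) G0 m3
    ((mul_le_mul_of_nonneg_left (by linarith) G0.le).trans r2) (r3.trans ?_) ?_ ?_
  · have : 0 ≤ Gam x (T / 2) := sum_nonneg fun _ _ => gk_nonneg _ _ _
    gcongr
  · rw [r4] at r1
    rw [mul_one_div]
    linarith [(abs_le.1 r1).1]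
  · rw [div_le_div_iff₀ (by positivity) (by positivity)]
    have c1 : L ^ 3 ≤ (3 * l) ^ 3 := by gcongr
    have c2 : l ^ 3 ≤ l ^ (A + 3) := pow_le_pow_right₀ l1 (by omega)
    nlinarith

theorem almost_prime_gaps (A : ℕ) : ∃ k0 : ℕ, ∀ k : ℕ, k0 ≤ k → ∃ t₀ : ℝ, ∀ t : ℝ, t₀ ≤ t →
    ∃ n : ℕ, t < n ∧ √(n : ℝ) - √t < 1 / Real.log t ^ A ∧ Squarefree n ∧
      n.primeFactors.card = k := by
  obtain ⟨k0, h⟩ := near (A + 1)
  refine ⟨k0, fun k hk => ?_⟩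
  obtain ⟨x₀, hx₀⟩ := eventually_atTop.1 (h k hk)
  have h2 := (isLittleO_log_rpow_rpow_atTop (A : ℝ) (show (0 : ℝ) < 1 / 2 by norm_num)).bound
    (show (0 : ℝ) < 1 / 4 by norm_num)
  obtain ⟨t₀, ht₀⟩ := eventually_atTop.1 (h2.and ((Real.tendsto_log_atTop.eventually_ge_atTop 4).and
    ((eventually_ge_atTop (x₀ : ℝ)).and (eventually_ge_atTop 1))))
  refine ⟨t₀, fun t ht => ?_⟩
  obtain ⟨a1, a2, a3, a4⟩ := ht₀ t ht
  have p1 : 1 ≤ Real.log t ^ A := one_le_pow₀ (by linarith)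
  have t0 : 0 < √t := Real.sqrt_pos.2 (by linarith)
  rw [Real.rpow_natCast, ← Real.sqrt_eq_rpow, Real.norm_of_nonneg (by linarith),
    Real.norm_of_nonneg t0.le] at a1
  obtain ⟨C, hC, hC1, hCc, q5⟩ : ∃ C : ℝ, 0 < C ∧ C ≤ 1 / 4 ∧ 4 * C = 1 / Real.log t ^ A ∧
      1 ≤ C * √t := by
    refine ⟨1 / (4 * Real.log t ^ A), by positivity,
      one_div_le_one_div_of_le (by norm_num) (by linarith), by field_simp, ?_⟩
    rw [one_div_mul_eq_div, one_le_div (by positivity)]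
    linarith
  have t1 : √t * √t = t := Real.mul_self_sqrt (by linarith)
  have t2 : 1 ≤ √t := Real.one_le_sqrt.2 a4
  set x : ℕ := ⌈t + 2 * C * √t⌉₊ with hx
  have x1 : t + 2 * C * √t ≤ x := Nat.le_ceil _
  have x2 : (x : ℝ) < t + 2 * C * √t + 1 := Nat.ceil_lt_add_one (by linarith)
  have x3 : x₀ ≤ x := by
    have : (x₀ : ℝ) ≤ x := by linarith
    exact_mod_cast this
  have x4 : √(x : ℝ) ≤ 2 * √t := by
    rw [Real.sqrt_le_left (by positivity)]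
    nlinarith
  obtain ⟨n, hs, hk, hn⟩ := hx₀ x x3
  have l1 : Real.log t ≤ Real.log x := Real.log_le_log (by linarith) (by linarith)
  have x5 : √(x : ℝ) / Real.log x ^ (A + 1) ≤ C * (2 * √t) := by
    have e : C = 1 / (Real.log t ^ A * 4) := by rw [← div_div, ← hCc]; ring
    rw [e, one_div_mul_eq_div, pow_succ]
    gcongr
    linarith
  obtain ⟨n1, n2⟩ := abs_lt.1 hn
  have n3 : √(n : ℝ) < √t + 4 * C := by
    rw [Real.sqrt_lt' (by positivity)]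
    nlinarith
  exact ⟨n, by linarith, by linarith, hs, hk⟩

end Pool.Agent.Work.MP_82fd4a_nt.E
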