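import Pool.Agent.Work.MP_82fd4a_nt.E.Defs
import Pool.Agent.Work.MP_82fd4a_nt.Z.Exc
import Pool.Agent.Work.MP_678620_nt.MRRed1

/-! Short sums of the twisted triple convolution. -/

set_option autoImplicit false
open Finset Filter MeasureTheory Pool.Agent.Lib.MR

namespace Pool.Agent.Work.MP_82fd4a_nt.E

open Pool.Agent.Work.MP_678620_nt Pool.Agent.Work.MP_82fd4a_nt.Z

lemma MS_shift {F : ℝ → ℂ} (hF : Trig F) {T T₂ τ : ℝ} (hT : 0 < T₂) {U V : Set ℝ}
    (hU : MeasurableSet U) (hV : MeasurableSet V) (h : ∀ u ∈ U, u + τ ∈ V)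
    (h2 : ∀ v ∈ V, |v| ≤ T₂) : MS T U (fun u => F (u + τ)) ≤ 2 * MS T₂ V F := by
  have hG : Trig fun u => F (u + τ) :=
    ⟨hF.1.comp (continuous_add_const τ), hF.2.imp fun C hC u => hC _⟩
  rw [MRShort_MS_eq T hU, MRShort_MS_eq T₂ hV, ← integral_indicator hU, ← integral_indicator hV,
    ← integral_add_right_eq_self (V.indicator fun u => wt T₂ u * ‖F u‖ ^ 2) τ,
    ← integral_const_mul]
  refine integral_mono ((MRShort_int hG T).indicator hU)
    ((((MRShort_int hF T₂).indicator hV).comp_add_right τ).const_mul 2) fun u => ?_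
  by_cases hu : u ∈ U
  · beta_reduce
    rw [Set.indicator_of_mem hu, Set.indicator_of_mem (h u hu), ← mul_assoc]
    refine mul_le_mul_of_nonneg_right ((wt_le_one T u).trans ?_) (by positivity)
    have h3 : (u + τ) ^ 2 ≤ T₂ ^ 2 := by
      rw [← sq_abs]
      exact pow_le_pow_left₀ (abs_nonneg _) (h2 _ (h u hu)) 2
    rw [wt, ← mul_div_assoc, le_div_iff₀ (by positivity)]
    linarith
  · beta_reduce
    rw [Set.indicator_of_notMem hu]
    exact mul_nonneg (by norm_num) (Set.indicator_nonneg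
      (fun v _ => mul_nonneg (wt_nonneg _ _) (by positivity)) _)

lemma DP_nit (S : Finset ℕ) (τ u : ℝ) :
    DP S (fun n => nit n τ) u = DP S (fun _ => 1) (u + τ) := by
  rw [← exc_DP]
  simp only [one_mul]

lemma DP_tcT {I V S : Finset ℕ} (τ : ℝ) (c : ℕ → ℂ) {Y : ℕ}
    (h : ∀ p ∈ I, ∀ w ∈ V, ∀ n ∈ S, p * w * n ∈ Icc 1 Y) (hS : ∀ n ∈ S, n ≠ 0) (u : ℝ) :
    DP (Icc 1 Y) (fun m => nz τ m * tc I V S (fun n => (starRingEnd ℂ) (nz τ n) * c n) m) u =
      DP I (fun n => nit n τ) u * DP V (fun n => nit n τ) u * DP S c u := by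
  have e1 : DP S c u = DP S (fun n => (starRingEnd ℂ) (nz τ n) * c n) (u + τ) := by
    rw [← exc_DP]
    refine sum_congr rfl fun n hn => ?_
    beta_reduce
    rw [← nz_of_ne τ (hS n hn)]
    linear_combination (-(c n * nit n u)) * conj_nz_mul τ (hS n hn)
  rw [DP_nit, DP_nit, e1, ← DP_tc _ h, ← exc_DP]
  refine sum_congr rfl fun m hm => ?_
  have := (mem_Icc.1 hm).1
  beta_reduce
  rw [nz_of_ne τ (by omega), mul_comm (nit m τ)]

theorem red1T (A : ℕ) {c0 : ℝ} (hc0 : 0 < c0) : ∃ A' : ℕ, ∀ᶠ X : ℕ in atTop,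
    ∀ N : ℕ, X ≤ N ^ 2 → N ≤ X ^ 2 → ∀ c : ℤ → ℂ,
    (∀ n : ℤ, 1 ≤ n → n ≤ 20 * N → ‖c n‖ ≤ Real.log X ^ 3) → KeyP X N (c0 / 2) A' c →
    ∀ τ : ℝ, |τ| ≤ (X : ℝ) ^ 3 / 2 →
    ∀ h : ℤ, |(h : ℝ)| ≤ Real.log X ^ A → ∀ r : ℕ, 1 ≤ r → (r : ℝ) ≤ Real.log X ^ A →
    ∀ ψ : ℕ → ℂ, (∀ n, ‖ψ n‖ ≤ 1) → (∀ n, ψ (n + r) = ψ n) →
    ∀ (P : ℝ) (I V : Finset ℕ) (J H : ℕ), Real.exp (Real.log X ^ c0) ≤ P → P ≤ J →
    (J : ℝ) ≤ Real.exp √(Real.log X) → (∀ p ∈ I, p.Prime ∧ P ≤ p ∧ (p : ℝ) ≤ 2 * P) →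
    (∀ p ∈ I, ∀ w ∈ V, J ≤ 2 * (p * w) ∧ p * w ≤ 5 * J) →
    (J : ℝ) ≤ Real.log X ^ A * H → (H : ℝ) ≤ Real.log X ^ A * J →
    ∑ x ∈ Icc (J * N / 4) (60 * J * N), ‖∑ j ∈ range H,
        nz τ (x + 1 + j) * tc I V (Ioc (N / 12) (12 * N)) (fun n => (starRingEnd ℂ) (nz τ n) *
          (nzi τ (n + h) * c (n + h) * ψ n)) (x + 1 + j)‖ ^ 2
      ≤ (H : ℝ) ^ 2 * J * N / Real.log X ^ A := by
  have h0 : Tendsto (fun X : ℕ => Real.log X) atTop atTop :=
    Real.tendsto_log_atTop.comp tendsto_natCast_atTop_atTop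
  refine ⟨15 * A + 36, ?_⟩
  filter_upwards [h0.eventually_ge_atTop (10 ^ 14), MRRed1_ev (2 * A + 5) hc0,
    MRRed1_ev (5 * A + 18) one_pos, large_sparse (2 * A + 6) hc0, eventually_ge_atTop 1]
    with X hl x1 x2 hsp X1 N hN1 hN2 c hc hK τ hτ h hh r hr hrl ψ hψ1 hψ P I V J H hP hPJ hJ hI hIV hJH hHJ
  have X1' : (1 : ℝ) ≤ X := by exact_mod_cast X1
  have hX : Real.exp (Real.log X) = X := Real.exp_log (by positivity)
  rw [Real.rpow_one, hX] at x2
  have e1 : ∀ i j : ℕ, Real.log X ^ (i * A + j) = (Real.log X ^ A) ^ i * Real.log X ^ j :=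
    fun i j => by ring
  simp only [KeyP, e1] at x1 x2 hsp hK
  generalize hl' : Real.log X = l at *
  have l1 : 1 ≤ l := le_trans (by norm_num) hl
  have hm : 1 ≤ l ^ A := one_le_pow₀ l1
  generalize l ^ A = m at *
  have lm : l ≤ m * l := le_mul_of_one_le_left (by positivity) hm
  have mon : ∀ {i j i' j' : ℕ}, i ≤ i' → j ≤ j' → m ^ i * l ^ j ≤ m ^ i' * l ^ j' :=
    fun hi hj => by gcongr
  have P1 : 1 ≤ P := (by simpa using mon (Nat.zero_le 2) (Nat.zero_le 5) : (1 : ℝ) ≤ _).trans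
    (x1.trans hP)
  have J1 : (1 : ℝ) ≤ J := P1.trans hPJ
  have J1' : 1 ≤ J := by exact_mod_cast J1
  have nN : m * l ≤ N := by
    have : (X : ℝ) ≤ (N : ℝ) ^ 2 := by exact_mod_cast hN1
    refine (pow_le_pow_iff_left₀ (by positivity) (by positivity) two_ne_zero).1 ?_
    rw [mul_pow]
    exact (mon (by norm_num) (by norm_num)).trans (x2.trans this)
  have N1 : (10 : ℝ) ^ 14 ≤ N := hl.trans (lm.trans nN)
  have n0 : (0 : ℝ) < N := lt_of_lt_of_le (by norm_num) N1
  have N2 : (N : ℝ) ≤ (X : ℝ) ^ 2 := by exact_mod_cast hN2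
  have hhN : 100 * h.natAbs + 100 ≤ N := by
    have : (100 * h.natAbs + 100 : ℝ) ≤ N := by
      rw [Nat.cast_natAbs, Int.cast_abs]
      nlinarith
    exact_mod_cast this
  have sl : √l ≤ l / 4 := by
    rw [Real.sqrt_le_left (by positivity)]
    nlinarith
  have JX : (J : ℝ) ≤ X := hJ.trans (hX ▸ Real.exp_le_exp.2 (by linarith))
  set S := Ioc (N / 12) (12 * N) with hS
  have hS1 : S ⊆ Icc 1 (12 * N) := fun n hn => by
    rw [hS, mem_Ioc] at hn
    exact mem_Icc.2 ⟨by omega, hn.2⟩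
  have hc' : ∀ n ∈ S, ‖nzi τ (n + h) * c (n + h) * ψ n‖ ≤ l ^ 3 := fun n hn => by
    rw [hS, mem_Ioc] at hn
    rw [norm_mul, norm_mul]
    exact (mul_le_of_le_one_right (by positivity) (hψ1 n)).trans
      ((mul_le_of_le_one_left (norm_nonneg _) (norm_nzi_le _ _)).trans
        (hc _ (by omega) (by omega)))
  have hc'' : ∀ n ∈ S, ‖(starRingEnd ℂ) (nz τ n) * (nzi τ (n + h) * c (n + h) * ψ n)‖ ≤ l ^ 3 :=
    fun n hn => by
      rw [norm_mul, Complex.norm_conj]
      exact (mul_le_of_le_one_left (norm_nonneg _) (norm_nz_le _ _)).trans (hc' n hn)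
  rcases I.eq_empty_or_nonempty with rfl | ⟨p, hp⟩
  · simp only [tc, sum_empty, mul_zero, sum_const_zero, norm_zero]
    simp only [ne_eq, OfNat.ofNat_ne_zero, not_false_eq_true, zero_pow, sum_const_zero]
    positivity
  have T0 : (0 : ℝ) < N * (m ^ 2 * l ^ 5) := by positivity
  have T3 : N * (m ^ 5 * l ^ 17) ≤ (X : ℝ) ^ 3 / 2 := by
    have a1 : m ^ 5 * l ^ 17 ≤ X / 2 := by
      have a2 : m ^ 5 * l ^ 17 * 2 ≤ m ^ 5 * l ^ 17 * l := by gcongr; linarith
      have a3 : m ^ 5 * l ^ 17 * l = m ^ 5 * l ^ 18 := by ring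
      linarith
    calc _ ≤ (X : ℝ) ^ 2 * (X / 2) := by gcongr
      _ = _ := by ring
  have ms := MRRed1_MS (Trig.DP I fun n => nit n τ) (Trig.DP V fun n => nit n τ)
    (a := fun n => nzi τ (n + h) * c (n + h) * ψ n) (P := P) (J := J) (le_trans (by norm_num) hl) hm
    (by positivity) (by positivity) (by exact_mod_cast n0) hS1
    (by
      refine (sum_le_card_nsmul _ _ ((l ^ 3) ^ 2) fun n hn => ?_).trans ?_
      · exact pow_le_pow_left₀ (norm_nonneg _) (hc' n hn) 2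
      · rw [nsmul_eq_mul, ← pow_mul]
        gcongr
        exact_mod_cast (card_le_card hS1).trans (by simp))
    (fun u => (norm_DP_le_card _ (fun n => (norm_nit n τ).le) u).trans (Moment_card P1 hI))
    (fun u => (norm_DP_le_card _ (fun n => (norm_nit n τ).le) u).trans
      (MRRed1_card (by positivity) J1' hp (hI p hp).2.1 hIV))
    (by
      have m2 : MeasurableSet ({u | P / (m ^ 2 * l ^ 6) < ‖DP I (fun n => nit n τ) u‖} ∩
          {u : ℝ | |u| ≤ N * (m ^ 5 * l ^ 17)}) :=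
        (isOpen_lt continuous_const (Trig.DP _ _).1.norm).measurableSet.inter
          (isClosed_le continuous_abs continuous_const).measurableSet
      have m3 : MeasurableSet ({u | P / (m ^ 2 * l ^ 6) < ‖DP I (fun _ => 1) u‖} ∩
          {u : ℝ | |u| ≤ (X : ℝ) ^ 3}) :=
        (isOpen_lt continuous_const (Trig.DP _ _).1.norm).measurableSet.inter
          (isClosed_le continuous_abs continuous_const).measurableSet
      have X3 : (0 : ℝ) < (X : ℝ) ^ 3 := by positivity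
      have fr : Fr X (c0 / 2) ((X : ℝ) ^ 3) _ := ⟨m3, fun u hu => hu.2,
        (measureReal_mono Set.inter_subset_left).trans (hl' ▸ hsp P _ I hP (hPJ.trans JX) X3
          le_rfl hI)⟩
      refine (shift_MS (c := fun n => nzi τ n * c n) (B := 2 * (N ^ 2 / (m ^ 15 * l ^ 36)))
        hhN hr m2 (fun u hu => hu.2) (fun a y hy => ?_) hψ1 hψ).trans ?_
      · have b1 := hK r a y hr
          (hrl.trans (by simpa using mon (i := 1) (by norm_num) (Nat.zero_le 36))) hy _ _ fr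
        have b2 : (DP (cls r a y) fun n => nzi τ n * c n) =
            fun u => DP (cls r a y) (fun n => c n) (u + τ) := funext fun u => by
          rw [← exc_DP]
          refine sum_congr rfl fun n hn => ?_
          have := (mem_Icc.1 (mem_filter.1 hn).1).1
          beta_reduce
          rw [nzi_nat, nz_of_ne τ (by omega), mul_comm (nit n τ)]
        rw [b2]
        refine (MS_shift (Trig.DP _ _) X3 m2 m3 (fun u hu => ⟨?_, ?_⟩) fun u hu => hu.2).trans
          (mul_le_mul_of_nonneg_left b1 (by norm_num))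
        · have := hu.1
          rwa [Set.mem_ofPred_eq, DP_nit] at this
        · have b3 : |u| ≤ N * (m ^ 5 * l ^ 17) := hu.2
          have b4 := abs_add_le u τ
          change |u + τ| ≤ _
          linarith
      have : 1 + N * (m ^ 5 * l ^ 17) * |(h : ℝ)| / N ≤ 2 * (m ^ 6 * l ^ 17) := by
        have a1 : (1 : ℝ) ≤ m ^ 6 * l ^ 17 := by
          simpa using mon (Nat.zero_le 6) (Nat.zero_le 17)
        have a2 : N * (m ^ 5 * l ^ 17) * |(h : ℝ)| / N ≤ m ^ 6 * l ^ 17 := by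
          calc _ ≤ N * (m ^ 5 * l ^ 17) * m / N := by gcongr
            _ = _ := by field_simp
        linarith
      calc _ ≤ 10 ^ 9 * m ^ 2 * (2 * (m ^ 6 * l ^ 17)) ^ 2 *
            (2 * (N ^ 2 / (m ^ 15 * l ^ 36))) := by
            gcongr
        _ = N ^ 2 / (3000 * m) * (24 * 10 ^ 12 / (l * l)) := by field_simp; ring
        _ ≤ _ := mul_le_of_le_one_right (by positivity)
            ((div_le_one (by positivity)).2 (by nlinarith)))
  have jn : (20 : ℝ) ≤ J * N := by nlinarith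
  have jn' : 20 ≤ J * N := by exact_mod_cast jn
  have x0 : (J * N : ℝ) / 5 ≤ (J * N / 4 : ℕ) := by
    have : J * N ≤ 5 * (J * N / 4) := by omega
    have : (J * N : ℝ) ≤ 5 * (J * N / 4 : ℕ) := by exact_mod_cast this
    linarith
  have hH : (H : ℝ) ≤ J * N := by
    refine hHJ.trans ?_
    rw [mul_comm]
    gcongr
    exact (le_mul_of_one_le_right (by positivity) l1).trans nN
  have hY : ((60 * J * N : ℕ) : ℝ) + H ≤ 61 * (J * N) := by push_cast; linarith
  refine (short_le_MS2 (fun m => nz τ m * tc I V S (fun n => (starRingEnd ℂ) (nz τ n) *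
    (nzi τ (n + h) * c (n + h) * ψ n)) m) T0 (by omega) _ H).trans ?_
  rw [funext (DP_tcT τ (fun n => nzi τ (n + h) * c (n + h) * ψ n) (fun p hp w hw n hn => ?_)
    fun n hn => by have := (mem_Icc.1 (hS1 hn)).1; omega)]
  swap
  · obtain ⟨h1, h2⟩ := hIV p hp w hw
    obtain ⟨h3, h4⟩ := mem_Icc.1 (hS1 hn)
    refine mem_Icc.2 ⟨Nat.mul_pos (by omega) h3, ?_⟩
    calc p * w * n ≤ 5 * J * (12 * N) := Nat.mul_le_mul h2 h4
      _ = 60 * J * N := by ring
      _ ≤ _ := Nat.le_add_right _ _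
  have lg : 1 + Real.log (5 * J) ≤ l := by
    rw [Real.log_mul (by norm_num) (by positivity)]
    have a1 := Real.log_le_sub_one_of_pos (x := 5) (by norm_num)
    have a2 := (Real.log_le_iff_le_exp (by positivity)).2 hJ
    linarith
  have lg0 : 0 ≤ 1 + Real.log (5 * J) := by
    have := Real.log_nonneg (x := 5 * J) (by linarith)
    linarith
  have pi3 := Real.pi_gt_three
  have r1 : 1 + 2 * (((60 * J * N : ℕ) : ℝ) + H) / (N * (m ^ 2 * l ^ 5))
      ≤ 123 * (m * H) / (m ^ 2 * l ^ 5) := by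
    have a1 : 1 ≤ J / (m ^ 2 * l ^ 5) := (one_le_div (by positivity)).2 (x1.trans (hP.trans hPJ))
    calc _ ≤ J / (m ^ 2 * l ^ 5) + 2 * (61 * (J * N)) / (N * (m ^ 2 * l ^ 5)) := by gcongr
      _ = 123 * J / (m ^ 2 * l ^ 5) := by field_simp; ring
      _ ≤ _ := by gcongr
  calc _ ≤ 2 * (H : ℝ) ^ 2 / (3 * (J * N / 5)) * (J ^ 2 * N ^ 2 / (10 * m)) +
        8 * (123 * (m * H) / (m ^ 2 * l ^ 5)) ^ 2 *
          (1000 * (l ^ 3) ^ 2 * l ^ 3 * (61 * (J * N))) := by
        gcongr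
        · exact MS_nonneg _ _ _
        · refine (sum_le_sum fun n _ => pow_le_pow_left₀ (norm_nonneg _) ((norm_mul _ _).trans_le
            (mul_le_of_le_one_left (norm_nonneg _) (norm_nz_le _ _))) 2).trans ?_
          refine (sum_sq_tc J1' (fun p hp => (hI p hp).1) hIV hc'').trans ?_
          rw [Nat.cast_add]
          gcongr
    _ = H ^ 2 * J * N / m * (1 / 3 + 7382952000 / (m * l)) := by field_simp; ring
    _ ≤ _ := by
        refine mul_le_of_le_one_right (by positivity) ?_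
        have : 7382952000 / (m * l) ≤ 1 / 2 := by
          rw [div_le_iff₀ (by positivity)]
          linarith
        linarith

end Pool.Agent.Work.MP_82fd4a_nt.E
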