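import Pool.Agent.Work.MP_82fd4a_nt.E.Red1
import Pool.Agent.Work.MP_678620_nt.MRFinal

/-! From sparse frequencies to twisted short progressions. -/

set_option autoImplicit false
open Finset Filter MeasureTheory Pool.Agent.Lib.MR Pool.Agent.Lib.LargeSieve

namespace Pool.Agent.Work.MP_82fd4a_nt.E

open Pool.Agent.Work.MP_678620_nt Pool.Agent.Work.MP_82fd4a_nt.Z

lemma red2_tcT {I V S : Finset ℕ} (c : ℤ → ℂ) (h : ℤ) (τ : ℝ) {m : ℕ} (hm : 0 < m)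
    (hS : ∀ p ∈ I, ∀ w ∈ V, ∀ n, p * w * n = m → n ∈ S) :
    (∑ p ∈ I, ∑ w ∈ V, if ((p * w : ℕ) : ℤ) ∣ (m : ℤ) then
        nz τ (p * w) * c (m / (p * w : ℕ) + h) else 0) =
      nz τ m * tc I V S (fun n => (starRingEnd ℂ) (nz τ n) * c (n + h)) m := by
  have e := red2_tc (fun y => (starRingEnd ℂ) (nzi τ (y - h)) * c y) h hm hS
  simp only [add_sub_cancel_right, nzi_nat] at e
  rw [← e, mul_sum]
  refine sum_congr rfl fun p _ => ?_
  rw [mul_sum]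
  refine sum_congr rfl fun w _ => ?_
  split_ifs with hd
  · obtain ⟨n, hn⟩ := Int.natCast_dvd_natCast.1 hd
    have hpw : 0 < p * w := Nat.pos_of_ne_zero fun e => by rw [e] at hn; omega
    have hn0 : n ≠ 0 := fun e => by rw [e] at hn; omega
    rw [hn, Nat.cast_mul (p * w), Int.mul_ediv_cancel_left _ (by exact_mod_cast hpw.ne'), nzi_nat,
      nz_mul τ (p * w)]
    linear_combination (-(nz τ (p * w) * c (n + h))) * conj_nz_mul τ hn0
  · rw [mul_zero]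

/-- The finite form of the reduction. -/
lemma red2_coreT {N J H : ℕ} {h : ℤ} (hh : h ≠ 0) (θ : ℚ) {I V : Finset ℕ} (c : ℤ → ℂ) (τ : ℝ)
    {D : ℝ}
    (hJ : 1 ≤ J) (hH : H ≤ J) (hN : 100 * h.natAbs ≤ N)
    (hIV : ∀ p ∈ I, ∀ w ∈ V, J ≤ 2 * (p * w) ∧ p * w ≤ 5 * J)
    (hD : ∀ t, ∑ y ∈ Icc (J * N / 4) (60 * J * N), ‖∑ j ∈ range (h.natAbs * H),
      nz τ (y + 1 + j) * red2T I V (Ioc (N / 12) (12 * N))
        (fun n => (starRingEnd ℂ) (nz τ n) * c (n + h)) (h.natAbs * θ.den) t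
        (y + 1 + j)‖ ^ 2 ≤ D) :
    ∑ x ∈ Icc ((J * N / 2 : ℕ) : ℤ) (5 * J * N : ℕ),
      ‖∑ i ∈ range H, (∑ p ∈ I, ∑ w ∈ V, if ((p * w : ℕ) : ℤ) ∣ x + h * i then
        nz τ (p * w) * c ((x + h * i) / (p * w : ℕ) + h) else 0) * ee (θ * i)‖ ^ 2
      ≤ ((h.natAbs * θ.den : ℕ) : ℝ) ^ 6 * D := by
  set g := h.natAbs with hg
  set r := g * θ.den with hrd
  have g1 : 1 ≤ g := Int.natAbs_pos.2 hh
  have hr : 0 < r := Nat.mul_pos g1 θ.den_pos
  have u1 : g * H ≤ g * J := Nat.mul_le_mul_left _ hH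
  have u2 : 100 * (g * J) ≤ J * N := by
    calc 100 * (g * J) = J * (100 * g) := by ring
      _ ≤ J * N := Nat.mul_le_mul_left _ hN
  have u3 : 1 ≤ g * J := Nat.mul_pos g1 hJ
  have u4 : 5 * J * N = 5 * (J * N) := by ring
  have u5 : 60 * J * N = 60 * (J * N) := by ring
  obtain ⟨s, hs, w⟩ : ∃ s : ℕ, s ≤ g * J ∧ ∀ i : ℤ,
      (1 - (s : ℤ) ≤ h * i ∧ h * i < 1 - s + (g * H : ℕ)) ↔ (0 ≤ i ∧ i < H) := by
    have g0 : (0 : ℤ) < g := by exact_mod_cast g1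
    rcases Int.natAbs_eq h with e | e
    · refine ⟨1, u3, fun i => ?_⟩
      rw [e, ← hg]
      push_cast
      rw [zero_add, mul_nonneg_iff_of_pos_left g0, mul_lt_mul_iff_right₀ g0]
    · refine ⟨g * H, u1, fun i => ?_⟩
      rw [e, ← hg]
      push_cast
      have a1 : (g : ℤ) * i < g * H ↔ i < H := mul_lt_mul_iff_right₀ g0
      have a2 : 0 ≤ (g : ℤ) * i ↔ 0 ≤ i := mul_nonneg_iff_of_pos_left g0
      rw [← a1, ← a2, neg_mul]
      omega
  set T := range r ×ˢ range r ×ˢ range r with hT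
  set U := fun (t : ℕ × ℕ × ℕ) (y : ℕ) => ∑ j ∈ range (g * H),
    nz τ (y + 1 + j) * red2T I V (Ioc (N / 12) (12 * N))
      (fun n => (starRingEnd ℂ) (nz τ n) * c (n + h)) r t (y + 1 + j) with hU
  have hc : (T.card : ℝ) = (r : ℝ) ^ 3 := by
    simp only [hT, card_product, card_range]
    push_cast
    ring
  have key : ∀ x ∈ Icc ((J * N / 2 : ℕ) : ℤ) (5 * J * N : ℕ),
      ‖∑ i ∈ range H, (∑ p ∈ I, ∑ w ∈ V, if ((p * w : ℕ) : ℤ) ∣ x + h * i then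
        nz τ (p * w) * c ((x + h * i) / (p * w : ℕ) + h) else 0) * ee (θ * i)‖ ^ 2 ≤
      (r : ℝ) ^ 3 * ∑ t ∈ T, ‖U t (x - s).toNat‖ ^ 2 := by
    intro x hx
    rw [mem_Icc] at hx
    have w' : ∀ i : ℤ, (((x - s).toNat : ℤ) + 1 ≤ x + h * i ∧
        x + h * i < (x - s).toNat + 1 + (g * H : ℕ)) ↔ (0 ≤ i ∧ i < H) := fun i => by
      rw [← w i]
      omega
    have e1 : ∀ i ∈ range H, (∑ p ∈ I, ∑ w ∈ V, if ((p * w : ℕ) : ℤ) ∣ x + h * i then
        nz τ (p * w) * c ((x + h * i) / (p * w : ℕ) + h) else 0) * ee (θ * i) =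
        nz τ (x + h * i).toNat * tc I V (Ioc (N / 12) (12 * N))
          (fun n => (starRingEnd ℂ) (nz τ n) * c (n + h)) (x + h * i).toNat * ee (θ * i) := by
      intro i hi
      have b := (w' i).2 ⟨by positivity, by exact_mod_cast mem_range.1 hi⟩
      have e2 : (((x + h * i).toNat : ℕ) : ℤ) = x + h * i := by omega
      rw [← red2_tcT c h τ (by omega), e2]
      intro p hp w hw n hn
      obtain ⟨b1, b2⟩ := hIV p hp w hw
      have c1 : J * n ≤ 2 * (p * w * n) := by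
        calc J * n ≤ 2 * (p * w) * n := Nat.mul_le_mul_right _ b1
          _ = _ := by ring
      have c2 : p * w * n ≤ 5 * (J * n) := by
        calc p * w * n ≤ 5 * J * n := Nat.mul_le_mul_right _ b2
          _ = _ := by ring
      have c3 : J * n ≤ J * (12 * N) := by
        rw [mul_left_comm]
        omega
      have c4 : J * N < J * (12 * n) := by
        rw [mul_left_comm]
        omega
      have c5 := Nat.le_of_mul_le_mul_left c3 hJ
      have c6 := Nat.lt_of_mul_lt_mul_left c4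
      rw [mem_Ioc]
      omega
    rw [sum_congr rfl e1, red2_window hh θ x _ H (g * H) (fun m => nz τ m *
      tc I V (Ioc (N / 12) (12 * N)) (fun n => (starRingEnd ℂ) (nz τ n) * c (n + h)) m) w', ← hc]
    refine le_trans (le_of_eq ?_) (red2_cs T (fun t => red2K h θ x (t.1 : ℕ))
      (fun t => U t (x - s).toNat) fun t => red2K_norm _ _ _ _)
    congr 2
    simp only [hU, mul_sum]
    rw [sum_comm]
    refine sum_congr rfl fun j _ => ?_
    rw [← red2K_mod hh, mul_left_comm, red2_split I V _ _ hr (fun a => red2K h θ x (a : ℕ)),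
      mul_sum]
    exact sum_congr rfl fun t _ => mul_left_comm _ _ _
  refine (sum_le_sum key).trans ?_
  rw [← mul_sum, sum_comm]
  have fin : ∀ t ∈ T, ∑ x ∈ Icc ((J * N / 2 : ℕ) : ℤ) (5 * J * N : ℕ),
      ‖U t (x - s).toNat‖ ^ 2 ≤ D := by
    intro t _
    refine le_trans ?_ (hD t)
    rw [← sum_image (f := fun y => ‖U t y‖ ^ 2) (g := fun x : ℤ => (x - s).toNat)
      fun x hx x' hx' e => ?_]
    · refine sum_le_sum_of_subset_of_nonneg (fun y hy => ?_) fun _ _ _ => by positivity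
      obtain ⟨x, hx, rfl⟩ := mem_image.1 hy
      rw [mem_Icc] at hx ⊢
      omega
    · simp only [coe_Icc, Set.mem_Icc] at hx hx'
      dsimp only at e
      omega
  have := sum_le_card_nsmul T _ D fin
  rw [nsmul_eq_mul, hc] at this
  calc (r : ℝ) ^ 3 * _ ≤ (r : ℝ) ^ 3 * ((r : ℝ) ^ 3 * D) :=
        mul_le_mul_of_nonneg_left this (by positivity)
    _ = _ := by ring

theorem MRBt_of_key (A B : ℕ) {c0 : ℝ} (hc0 : 0 < c0) : ∃ A' : ℕ, ∀ᶠ X : ℕ in atTop,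
    ∀ N : ℕ, X ≤ N ^ 2 → N ≤ X ^ 2 → ∀ c : ℤ → ℂ,
    (∀ n : ℤ, 1 ≤ n → n ≤ 20 * N → ‖c n‖ ≤ Real.log X ^ 3) → KeyP X N (c0 / 2) A' c →
    ∀ τ : ℝ, |τ| ≤ (X : ℝ) ^ 3 / 2 → ∀ h : ℤ, h ≠ 0 → |(h : ℝ)| ≤ Real.log X ^ A →
    MRBt N (fun n => nzi τ n * c n) (nz τ) h (Real.exp (Real.log X ^ c0))
      (Real.exp (Real.log X ^ (1 / 4 : ℝ))) ⌊Real.log X ^ B⌋₊ ⌊Real.exp √(Real.log X)⌋₊ (1 / Real.log X ^ (4 * B)) := by
  obtain ⟨A', H1⟩ := red1T (8 * A + 10 * B + 1) hc0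
  refine ⟨A', ?_⟩
  filter_upwards [H1, red2_ev A] with X H1 ⟨l2, lX⟩ N hN1 hN2 c hc hK τ hτ h hh hA
  intro P I V J H θ hP _ hI hIV hPJ hJ hJH hHJ hθ
  set l := Real.log X with hl
  have l1 : 1 ≤ l := by linarith
  have mono : ∀ {a b : ℕ}, a ≤ b → l ^ a ≤ l ^ b := fun h => pow_le_pow_right₀ l1 h
  have hg : (h.natAbs : ℝ) ≤ l ^ A := by rwa [Nat.cast_natAbs, Int.cast_abs]
  have g1 : 1 ≤ h.natAbs := Int.natAbs_pos.2 hh
  have hQ : (⌊l ^ B⌋₊ : ℝ) ≤ l ^ B := Nat.floor_le (by positivity)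
  have hq : (θ.den : ℝ) ≤ l ^ B := le_trans (by exact_mod_cast hθ) hQ
  have hr : ((h.natAbs * θ.den : ℕ) : ℝ) ≤ l ^ (A + B) := by
    rw [Nat.cast_mul, pow_add]
    exact mul_le_mul hg hq (by positivity) (by positivity)
  have hJ1 : 1 ≤ J := by
    have : (0 : ℝ) < J := ((Real.exp_pos _).trans_le hP).trans_le hPJ
    exact_mod_cast this
  have hN : 100 * h.natAbs ≤ N := by
    have a1 : (X : ℝ) ≤ (N : ℝ) ^ 2 := by exact_mod_cast hN1
    have a2 : (100 * (h.natAbs : ℝ)) ^ 2 ≤ (N : ℝ) ^ 2 := by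
      have := pow_le_pow_left₀ (by positivity) hg 2
      linarith
    exact_mod_cast (pow_le_pow_iff_left₀ (by positivity) (by positivity) two_ne_zero).1 a2
  have hJ' : (J : ℝ) ≤ Real.exp √l :=
    le_trans (by exact_mod_cast hJ) (Nat.floor_le (Real.exp_pos _).le)
  have b1 : (J : ℝ) ≤ l ^ (8 * A + 10 * B + 1) * (h.natAbs * H : ℕ) := by
    have a1 : (J : ℝ) ≤ 2 * (⌊l ^ B⌋₊ : ℝ) ^ 2 * H := by exact_mod_cast hJH
    have a2 : 2 * (⌊l ^ B⌋₊ : ℝ) ^ 2 ≤ l ^ (8 * A + 10 * B + 1) := by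
      refine le_trans ?_ (mono (show 1 + B * 2 ≤ _ by omega))
      rw [pow_add, pow_one, pow_mul]
      exact mul_le_mul l2 (pow_le_pow_left₀ (by positivity) hQ 2) (by positivity) (by positivity)
    have a3 : (H : ℝ) ≤ (h.natAbs * H : ℕ) := by exact_mod_cast Nat.le_mul_of_pos_left H g1
    exact a1.trans (mul_le_mul a2 a3 (by positivity) (by positivity))
  have b2 : ((h.natAbs * H : ℕ) : ℝ) ≤ l ^ (8 * A + 10 * B + 1) * J := by
    rw [Nat.cast_mul]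
    exact mul_le_mul (hg.trans (mono (by omega))) (by exact_mod_cast hHJ) (by positivity)
      (by positivity)
  refine (red2_coreT hh θ (fun n => nzi τ n * c n) τ hJ1 hHJ hN hIV
    (D := ((h.natAbs * H : ℕ) : ℝ) ^ 2 * J * N / l ^ (8 * A + 10 * B + 1)) fun t => ?_).trans ?_
  · have := H1 N hN1 hN2 c hc hK τ hτ h
      (hA.trans (mono (by omega))) (h.natAbs * θ.den) (Nat.mul_pos g1 θ.den_pos)
      (hr.trans (mono (by omega)))
      (fun n => if t.2.1 * t.2.2 * n % (h.natAbs * θ.den) = t.1 then 1 else 0)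
      (fun n => by split_ifs <;> simp) (fun n => by rw [mul_add, Nat.add_mul_mod_self_right]) P
      (I.filter fun p => p % (h.natAbs * θ.den) = t.2.1)
      (V.filter fun w => w % (h.natAbs * θ.den) = t.2.2) J (h.natAbs * H) hP hPJ hJ'
      (fun p hp => hI p (mem_filter.1 hp).1)
      (fun p hp w hw => hIV p (mem_filter.1 hp).1 w (mem_filter.1 hw).1) b1 b2
    simpa only [red2T, mul_assoc] using this
  · have c1 : ((h.natAbs * θ.den : ℕ) : ℝ) ^ 6 * (h.natAbs : ℝ) ^ 2 * l ^ (4 * B) ≤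
        l ^ (8 * A + 10 * B + 1) := by
      refine le_trans ?_ (mono (show (A + B) * 6 + A * 2 + 4 * B ≤ _ by omega))
      rw [pow_add, pow_add, pow_mul l (A + B), pow_mul l A]
      gcongr
    have c2 : 0 ≤ (H : ℝ) ^ 2 * J * N := by positivity
    have c3 := mul_le_mul_of_nonneg_right c1 c2
    have c4 : 1 / l ^ (4 * B) * (H : ℝ) ^ 2 * J * N = (H : ℝ) ^ 2 * J * N / l ^ (4 * B) := by ring
    rw [c4, ← mul_div_assoc, div_le_div_iff₀ (by positivity) (by positivity), Nat.cast_mul _ H]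
    linarith

theorem mr_difT (A B : ℕ) {c0 : ℝ} (hc0 : 0 < c0) : ∀ᶠ X : ℕ in atTop,
    ∀ N : ℕ, X ≤ N ^ 2 → N ≤ X ^ 2 → ∀ (β : ℕ → ℂ) (w : ℕ → ℝ), Dat (zz X) 1 β w →
    ∀ τ : ℝ, |τ| ≤ (X : ℝ) ^ 3 / 2 → ∀ h : ℤ, h ≠ 0 → |(h : ℝ)| ≤ Real.log X ^ A →
    MRBt N (fun n => nzi τ n * (MP_678620_nt.conv β (gam (zz X) 1 w) n -
      MP_678620_nt.conv β (flat (zz X) 1 w) n)) (nz τ) h
      (Real.exp (Real.log X ^ c0)) (Real.exp (Real.log X ^ (1 / 4 : ℝ))) ⌊Real.log X ^ B⌋₊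
      ⌊Real.exp √(Real.log X)⌋₊ (1 / Real.log X ^ (4 * B)) := by
  obtain ⟨A', h1⟩ := MRBt_of_key A B hc0
  filter_upwards [h1, key A' 1 le_rfl (half_pos hc0), conv_bound, eventually_ge_atTop 20] with
    X h1 h2 h3 h4 N hN1 hN2 β w hd τ hτ h hh hA
  refine h1 N hN1 hN2 _ (fun n _ hn => (h3 1 β w hd n (hn.trans ?_)).2.2) (h2 N hN1 hN2 β w hd)
    τ hτ h hh hA
  have a1 : (N : ℤ) ≤ (X : ℤ) ^ 2 := by exact_mod_cast hN2
  have a2 : (20 : ℤ) ≤ X := by exact_mod_cast h4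
  nlinarith [sq_nonneg (X : ℤ)]

end Pool.Agent.Work.MP_82fd4a_nt.E
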