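import Pool.Agent.Work.MP_82fd4a_nt.E.Int4
import Pool.Agent.Work.MP_678620_nt.SPSys

/-! The bound for one system, for twisted functions. -/

set_option autoImplicit false
open Finset Pool.Agent.Lib.LargeSieve

namespace Pool.Agent.Work.MP_82fd4a_nt.E

open Pool.Agent.Work.MP_678620_nt

variable {ι : Type} [Fintype ι] [DecidableEq ι] (S : Sys ι)

theorem mainT {N : ℕ} {i0 : ι} (hN : 10 * S.h.natAbs ≤ N) (hW : 10 * (S.T * N) < S.m i0)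
    (hL : 1 / 2 ≤ S.L) (hLs : S.L ≤ S.s) {γ η ε : ℝ} (hγ : 0 < γ)
    (hγs : γ * S.es S.s ≤ ∑ d ∈ S.DD, S.iv d) (hne : S.DD.Nonempty) (hη0 : 0 ≤ η)
    (hη : ∀ d ∈ S.DD, (S.pr d : ℝ) ≤ (1 + η) * S.T) (hε : 0 ≤ ε) {F0 F g : ℤ → ℂ}
    (hF1 : ∀ y, ‖F y‖ ≤ 1) (hg1 : ∀ y, ‖g y‖ ≤ 1)
    (hF : ∀ d ∈ S.DD, ∀ n n' : ℤ, F (S.pr d * n) * g (S.pr d * n') = F0 n * g n')
    {χ : ℕ → ℂ} (hχ1 : ∀ n, ‖χ n‖ ≤ 1) (hχ : ∀ a b, χ (a * b) = χ a * χ b)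
    (hg : ∀ d ∈ S.DD, ∀ n : ℤ, g (S.pr d * n) = χ (S.pr d) * g n) {Jm : ℕ} (hJ : S.T ≤ Jm)
    (hMR : MRBt N (fun n => if (S.Zi n).card = S.k' then g n else 0) χ S.h S.H0 S.H1 S.Q Jm ε)
    (hX : ‖S.ip (S.GX N g) (S.Xop S.Kk (S.GX N g))‖
      ≤ 90 * S.rho * (S.T * N) * S.es (S.s + S.k')) :
    ‖S.S0 N F0 g‖ ≤ 2 * N / γ * √(S.Λ ^ 14 * (1 / S.D + 1 / √S.D' + 1 / √S.Q)
      + S.Λ ^ 4 * (S.Q : ℝ) ^ 2 * ε + S.Λ ^ 4 * (S.Q : ℝ) ^ 6 / N) + 3 * η * N + 2 := by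
  have hΛ := S.big
  have hΛ0 : 0 ≤ S.Λ := by linarith
  have hΛ1 : 1 ≤ S.Λ := by linarith
  have hh : 1 ≤ S.h.natAbs := Int.natAbs_pos.2 S.h_ne
  have hN0 : (0 : ℝ) < N := by exact_mod_cast (show 0 < N by omega)
  have hT : (0 : ℝ) < S.T := by exact_mod_cast S.T_pos
  have hQ : (2 : ℝ) ≤ S.Q := by exact_mod_cast S.Q_ge
  have hQ0 : (0 : ℝ) < S.Q := by linarith
  have hD : (1 : ℝ) ≤ S.D := by exact_mod_cast S.one_le_D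
  have hD' : (1 : ℝ) ≤ S.D' := by exact_mod_cast S.one_le_D'
  have hH : 0 < S.H0 := lt_of_lt_of_le (by norm_num) S.H0_big
  have hw : 0 ≤ S.H0⁻¹ := (inv_pos.2 hH).le
  have hC : (0 : ℝ) < S.DD.card := by exact_mod_cast hne.card_pos
  have he := S.es_nonneg S.s
  have hes : ∀ j, S.es j ≤ S.Λ := fun j =>
    (esym_le_exp (fun i _ => (S.nu_pos i).le) j).trans S.exp_L
  have hadd : ∀ j, ((S.s + j).choose j : ℝ) * S.es (S.s + j) ≤ S.Λ * S.es S.s := fun j => by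
    refine (S.es_add_le S.s j).trans ?_
    rw [mul_comm]
    exact mul_le_mul_of_nonneg_right (hes j) he
  have hDa : (S.D : ℝ) * S.es (S.s + S.k) ≤ S.Λ * S.es S.s := hadd S.k
  have hDa' : (S.D' : ℝ) * S.es (S.s + S.k') ≤ S.Λ * S.es S.s := hadd S.k'
  have ha'' : S.es (S.s + S.k' - 1) ≤ S.Λ * S.es S.s := by
    have e : S.s + S.k' - 1 = S.s + (S.k' - 1) := by have := S.k'_ge; omega
    rw [e]
    refine le_trans ?_ (hadd (S.k' - 1))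
    refine le_mul_of_one_le_left (S.es_nonneg _) ?_
    exact_mod_cast Nat.choose_pos (Nat.le_add_left _ _)
  have hlo : ∑ d ∈ S.DD, S.iv d ≤ S.DD.card * (S.T : ℝ)⁻¹ := by
    rw [← nsmul_eq_mul]
    refine sum_le_card_nsmul _ _ _ fun d hd => ?_
    exact inv_anti₀ hT (by exact_mod_cast S.DD_lo d hd)
  have hhi : (S.DD.card : ℝ) ≤ 2 * S.T * S.es S.s := by
    have h1 : ∑ d ∈ S.DD, S.iv d ≤ S.es S.s := by
      rw [S.es_eq]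
      exact sum_le_sum_of_subset_of_nonneg
        (fun d hd => mem_powersetCard.2 ⟨S.DD_sub d hd, S.DD_card d hd⟩)
        fun d _ _ => (S.iv_pos d).le
    have h2 : S.DD.card • (2 * S.T : ℝ)⁻¹ ≤ ∑ d ∈ S.DD, S.iv d := by
      refine card_nsmul_le_sum _ _ _ fun d hd => ?_
      exact inv_anti₀ (by exact_mod_cast S.pr_pos d) (by exact_mod_cast S.DD_hi d hd)
    rw [nsmul_eq_mul, ← div_eq_mul_inv, div_le_iff₀ (by linarith)] at h2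
    have h3 := mul_le_mul_of_nonneg_right h1 (show (0 : ℝ) ≤ 2 * S.T by linarith)
    linarith
  have hu0 : 0 ≤ (S.T : ℝ) * N * S.es S.s := mul_nonneg (mul_pos hT hN0).le he
  have hu : (S.T : ℝ) * N * S.es S.s ≤ N / γ * S.DD.card := by
    have h1 := hγs.trans hlo
    rw [← div_eq_mul_inv, le_div_iff₀ hT] at h1
    rw [div_mul_eq_mul_div, le_div_iff₀ hγ]
    have := mul_le_mul_of_nonneg_left h1 hN0.le
    linarith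
  have hEx : (S.Ex N : ℝ) ≤ 18 * (S.D' : ℝ) ^ 4 * S.Λ ^ 3 * S.H0⁻¹ * (S.T * N * S.es S.s) := by
    have h1 := S.Ex_le N
    rw [div_eq_mul_inv, div_eq_mul_inv] at h1
    have h2 := mul_le_mul_of_nonneg_left hhi
      (mul_nonneg (mul_nonneg (mul_nonneg (show (0 : ℝ) ≤ 3 by norm_num) hΛ0) hN0.le) hw)
    have h3 := mul_le_mul_of_nonneg_left ha'' (mul_nonneg (mul_nonneg (mul_nonneg
      (mul_nonneg (show (0 : ℝ) ≤ 12 by norm_num) (pow_nonneg (by linarith : (0 : ℝ) ≤ S.D') 4))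
        (pow_nonneg hΛ0 2)) hw) (mul_pos hT hN0).le)
    have h4 : S.Λ ≤ (S.D' : ℝ) ^ 4 * S.Λ ^ 3 :=
      (le_self_pow₀ hΛ1 (by norm_num)).trans
        (le_mul_of_one_le_left (pow_nonneg hΛ0 3) (one_le_pow₀ hD'))
    have h5 := mul_le_mul_of_nonneg_right h4 (mul_nonneg hw hu0)
    linarith
  have hsq : √(S.Q : ℝ) ≤ S.Q := by
    rw [Real.sqrt_le_left hQ0.le]
    nlinarith only [hQ]
  have hsq0 : 0 < √(S.Q : ℝ) := Real.sqrt_pos.2 hQ0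
  have hQz : (S.Q : ℝ)⁻¹ ≤ 1 / √(S.Q : ℝ) := by
    rw [one_div]
    exact inv_anti₀ hsq0 hsq
  have hmono : ∀ x : ℝ, x * S.Q ≤ S.H0 → x * S.H0⁻¹ ≤ (S.Q : ℝ)⁻¹ := by
    intro x hx
    rw [← div_eq_mul_inv, div_le_iff₀ hH, ← div_eq_inv_mul, le_div_iff₀ hQ0]
    exact hx
  have hΛ2 : 432 ≤ S.Λ ^ 2 := by nlinarith only [hΛ]
  have m1 : 4 * S.Λ * (S.Q : ℝ) ^ 2 * S.H0⁻¹ ≤ 1 / √(S.Q : ℝ) := by
    refine (hmono _ ?_).trans hQz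
    have h1 := S.mono_le_H0 (a := 0) (b := 0) (c := 3) (d := 2) (by norm_num) (by norm_num)
      (by norm_num) (by norm_num)
    have h2 := mul_le_mul_of_nonneg_right (show 4 ≤ S.Λ by linarith)
      (mul_nonneg hΛ0 (pow_nonneg hQ0.le 3))
    linarith
  have m2 : 432 * S.Λ ^ 5 * (S.Q : ℝ) ^ 4 * (S.D' : ℝ) ^ 4 * S.H0⁻¹ ≤ 1 / √(S.Q : ℝ) := by
    refine (hmono _ ?_).trans hQz
    have h1 := S.mono_le_H0 (a := 0) (b := 4) (c := 5) (d := 7) (by norm_num) (by norm_num)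
      (by norm_num) (by norm_num)
    have h2 := mul_le_mul_of_nonneg_right hΛ2 (mul_nonneg (mul_nonneg (pow_nonneg hΛ0 5)
      (pow_nonneg hQ0.le 5)) (pow_nonneg (by linarith : (0 : ℝ) ≤ S.D') 4))
    linarith
  have m3 : 36 * (S.D' : ℝ) ^ 4 * S.Λ ^ 3 * S.H0⁻¹ ≤ (S.Q : ℝ)⁻¹ := by
    refine hmono _ ?_
    have h1 := S.mono_le_H0 (a := 0) (b := 4) (c := 1) (d := 4) (by norm_num) (by norm_num)
      (by norm_num) (by norm_num)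
    have h2 := mul_le_mul_of_nonneg_right (show 36 ≤ S.Λ by linarith) (mul_nonneg (mul_nonneg
      (pow_nonneg hΛ0 3) hQ0.le) (pow_nonneg (by linarith : (0 : ℝ) ≤ S.D') 4))
    linarith
  have hx : 0 ≤ 1 / (S.D : ℝ) := one_div_nonneg.2 (by linarith)
  have hy : 0 ≤ 1 / √(S.D' : ℝ) := one_div_nonneg.2 (Real.sqrt_nonneg _)
  have hz : 0 ≤ 1 / √(S.Q : ℝ) := one_div_nonneg.2 (Real.sqrt_nonneg _)
  have hn : 0 ≤ (N : ℝ)⁻¹ := (inv_pos.2 hN0).le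
  obtain ⟨B, hB⟩ : ∃ B : ℝ, B = 4 * (S.Q : ℝ) ^ 2 * (3 * S.Λ ^ 2 * ε + S.H0⁻¹
      + 400 * S.Λ * (S.Q : ℝ) ^ 4 * (N : ℝ)⁻¹) + 432 * S.Λ ^ 4 * (S.Q : ℝ) ^ 4 * (S.D' : ℝ) ^ 4 * S.H0⁻¹ :=
    ⟨_, rfl⟩
  have hB0 : 0 ≤ B := by
    rw [hB]
    generalize S.H0⁻¹ = w at hw
    generalize (N : ℝ)⁻¹ = n at hn
    generalize S.Λ = Λ at hΛ0
    positivity
  have hSP : 2 * ((S.T : ℝ) * N) * S.es (S.s + S.k) * ∑ r ∈ Icc 2 S.k, S.Pos r (S.GX N g)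
      ≤ (S.T * N * S.es S.s) ^ 2 * (S.Λ * B) := by
    rw [mul_sum]
    refine (sum_le_card_nsmul _ _ ((S.T * N * S.es S.s) ^ 2 * B) fun r hr => ?_).trans ?_
    · obtain ⟨hr2, hrk⟩ := mem_Icc.1 hr
      have hP := Pos_GX_leT S hr2 hrk hN hW hg1 hχ1 hχ hg hε hJ hMR
      rw [div_eq_mul_inv] at hP
      rw [hB]
      exact SPSys_pos hΛ0 hT.le hN0 he (S.es_nonneg _) hw hε (Nat.cast_nonneg _) hDa
        (S.es_mul_le hL hLs hrk) hEx hP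
    · rw [nsmul_eq_mul, mul_left_comm]
      refine mul_le_mul_of_nonneg_left (mul_le_mul_of_nonneg_right ?_ hB0) (sq_nonneg _)
      refine le_trans ?_ S.k_le_Λ
      rw [Nat.card_Icc]
      exact_mod_cast (show S.k + 1 - 2 ≤ S.k by omega)
  have hTA := SPSys_ta hΛ0 (mul_pos hT hN0).le he (S.es_nonneg _) (S.es_nonneg _)
    (by linarith : (0 : ℝ) < S.D) (by linarith : (0 : ℝ) ≤ S.D') (add_nonneg hy hz) hDa hDa'
    (S.TA_le (S.supp_GX N g)) (S.nn_GX_le (by omega) hW hg1) hX hSP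
  have hbr := SPSys_br (D' := S.D') hΛ hx hy hz hε hn m1 m2
  rw [← hB] at hbr
  have hfin := hTA.trans (mul_le_mul_of_nonneg_left hbr (sq_nonneg _))
  rw [add_assoc _ (3 * η * N), div_eq_mul_inv (S.Λ ^ 4 * (S.Q : ℝ) ^ 6)]
  refine SPSys_fin hC (mul_nonneg (by linarith [mul_pos hT hN0]) (S.es_nonneg _)) hu0
    (int1T S (by omega) hW hη0 hη hF1 hg1 hF) hfin hEx ?_ hu
  refine le_trans (by linarith) (m3.trans ?_)
  refine Real.le_sqrt_of_sq_le ?_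
  have q1 : (S.Q : ℝ)⁻¹ ≤ 1 := inv_le_one_of_one_le₀ (by linarith)
  have q0 : 0 ≤ (S.Q : ℝ)⁻¹ := (inv_pos.2 hQ0).le
  have q2 : (S.Q : ℝ)⁻¹ ^ 2 ≤ (S.Q : ℝ)⁻¹ := pow_le_of_le_one q0 q1 two_ne_zero
  have q3 : 1 / (S.D : ℝ) + 1 / √(S.D' : ℝ) + 1 / √(S.Q : ℝ) ≤
      S.Λ ^ 14 * (1 / (S.D : ℝ) + 1 / √(S.D' : ℝ) + 1 / √(S.Q : ℝ)) :=
    le_mul_of_one_le_left (by linarith) (one_le_pow₀ hΛ1)
  have q4 : 0 ≤ S.Λ ^ 4 * (S.Q : ℝ) ^ 2 * ε :=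
    mul_nonneg (mul_nonneg (pow_nonneg hΛ0 4) (pow_nonneg hQ0.le 2)) hε
  have q5 : 0 ≤ S.Λ ^ 4 * (S.Q : ℝ) ^ 6 * (N : ℝ)⁻¹ :=
    mul_nonneg (mul_nonneg (pow_nonneg hΛ0 4) (pow_nonneg hQ0.le 6)) hn
  linarith

end Pool.Agent.Work.MP_82fd4a_nt.E
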