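import Pool.Agent.Work.MP_82fd4a_nt.Z.Port1
import Pool.Agent.Work.MP_82fd4a_nt.SumIA

/-! The level of distribution for intervals shorter by a power of the logarithm. -/

set_option autoImplicit false
open Filter Topology Finset

namespace Pool.Agent.Work.MP_82fd4a_nt.E

open Pool.Agent.Work.MP_82fd4a_nt.Z

lemma ev_pow (C : ℝ) (n : ℕ) {δ : ℝ} (hδ : 0 < δ) :
    ∀ᶠ x : ℕ in atTop, C * Real.log x ^ n ≤ (x : ℝ) ^ δ := by
  have h := (isLittleO_log_rpow_rpow_atTop (n : ℝ) hδ).bound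
    (show 0 < 1 / (|C| + 1) by positivity)
  filter_upwards [tendsto_natCast_atTop_atTop.eventually h, eventually_ge_atTop 1] with x hx h1
  have x1 : (1 : ℝ) ≤ x := by exact_mod_cast h1
  have l0 := Real.log_nonneg x1
  have p0 : 0 ≤ Real.log x ^ n := pow_nonneg l0 n
  have p1 : 0 ≤ (x : ℝ) ^ δ := by positivity
  rw [Real.rpow_natCast, Real.norm_of_nonneg p0, Real.norm_of_nonneg p1, one_div,
    ← div_eq_inv_mul, le_div_iff₀ (by positivity)] at hx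
  nlinarith [le_abs_self C]

theorem typeI_log (A : ℕ) : ∀ᶠ x : ℕ in atTop, ∀ M : ℝ, (x : ℝ) ^ (1 / 6 : ℝ) ≤ M →
    M ≤ (x : ℝ) ^ (1 / 5 : ℝ) → ∀ (R S : Finset ℕ) (a b : ℕ → ℝ),
    (∀ r ∈ R, 1 ≤ r ∧ r * M ≤ (x : ℝ) ^ (1 / 2 + 2 * del)) →
    (∀ m ∈ S, M ≤ m ∧ (m : ℝ) ≤ M * (x : ℝ) ^ del) →
    (∀ r, |a r| ≤ (x : ℝ) ^ del) → (∀ m, |b m| ≤ (x : ℝ) ^ del) →
    ∀ T : ℝ, Real.log x ^ 2 ≤ T → T ≤ Real.log x ^ A * √(x : ℝ) →
    |∑ r ∈ R, ∑ m ∈ S, a r * b m *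
        (∑ n ∈ Icc 1 (2 * x), gk x T (r * m * n) - Gam x T / (r * m))|
      ≤ Gam x T * (x : ℝ) ^ (-del) := by
  have hdel : 0 < del := by norm_num [del]
  have t2 : Tendsto (fun x : ℕ => Real.log x) atTop atTop :=
    Real.tendsto_log_atTop.comp tendsto_natCast_atTop_atTop
  filter_upwards [bil_exp, fourier_gk, ev_pow 1000 (A * 2) hdel, t2.eventually_ge_atTop 1,
    eventually_ge_atTop 1, ev_pow 1 A (show (0 : ℝ) < 1 / 2 by norm_num)]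
    with x hE hF hu hL hx hHx M hM hM' R S a b hR hS ha hb T hT hT'
  have hx1 : (1 : ℝ) ≤ x := by exact_mod_cast hx
  have hx0 : (0 : ℝ) ≤ x := by linarith
  have hH : 1 ≤ Real.log x ^ A := one_le_pow₀ hL
  rw [pow_mul] at hu
  rw [one_mul, ← Real.sqrt_eq_rpow] at hHx
  have hp : ∀ (k : ℕ) (c : ℝ), c = del * k → (x : ℝ) ^ c = ((x : ℝ) ^ del) ^ k := by
    intro k c h
    rw [h, Real.rpow_mul_natCast hx0]
  have e1 := hp 4000 1 (by norm_num [del])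
  have e2 := hp 2000 (1 / 2) (by norm_num [del])
  have e3 := hp 2002 (1 / 2 + 2 * del) (by norm_num [del])
  have e4 := hp 1995 (1 / 2 - 5 * del) (by norm_num [del])
  have e5 := hp 4010 (1 + 10 * del) (by norm_num [del])
  have e6 := hp 13 (13 * del) (by norm_num [del])
  rw [Real.rpow_one] at e1
  rw [← Real.sqrt_eq_rpow] at e2
  have hT1 : 1 ≤ T := le_trans (by nlinarith) hT
  have hTx : T ≤ x := hT'.trans ((mul_le_mul_of_nonneg_right hHx (Real.sqrt_nonneg _)).trans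
    (Real.mul_self_sqrt hx0).le)
  rw [Real.rpow_neg hx0]
  refine ti_coreH x hH hu e1 ((Real.one_le_rpow hx1 (by norm_num)).trans hM) hT1 (e2 ▸ hT') R S a b
    (e3 ▸ hR) hS ha hb (hF T hT hTx) fun y hy hy' => ?_
  rw [← e6, ← Real.rpow_neg hx0]
  refine hE M hM hM' _ S a b (fun r hr => ?_) hS ha hb y hy (e5 ▸ hy')
  obtain ⟨h1, h2⟩ := mem_filter.1 hr
  exact ⟨e4 ▸ not_le.1 h2, (hR r h1).2⟩

lemma pair_coef {x : ℕ} (h1 : ∀ n : ℕ, n ≤ x → 2 * tau n ^ 1 ≤ (x : ℝ) ^ del) (D E : Finset ℕ)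
    (hD : ∀ d ∈ D, 1 ≤ d) (hE : ∀ e ∈ E, 1 ≤ e) (hx : ∀ d ∈ D, ∀ e ∈ E, d * e ≤ x) {f : ℕ → ℝ}
    (hf : ∀ e, |f e| ≤ 1) (r : ℕ) :
    |∑ u ∈ D ×ˢ E with u.1 * u.2 = r, f u.2| ≤ (x : ℝ) ^ del := by
  by_cases hr : r ≤ x
  · refine (abs_sum_le_sum_abs _ _).trans ((sum_le_card_nsmul _ _ 1 fun u _ => hf _).trans ?_)
    rw [nsmul_eq_mul, mul_one]
    have h5 := si_card_pairs D E hD hE r
    have h6 := h1 r hr
    rw [pow_one] at h6
    linarith [tau_nonneg r]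
  · rw [filter_false_of_mem (p := fun u : ℕ × ℕ => u.1 * u.2 = r) fun u hu h => hr
      (h.symm.trans_le (hx _ (mem_product.1 hu).1 _ (mem_product.1 hu).2))]
    simp only [sum_empty, abs_zero]
    positivity

theorem TI2 (A : ℕ) : ∀ᶠ x : ℕ in atTop, ∀ (P Q D E : Finset ℕ) (f : ℕ → ℝ),
    (∀ p ∈ P, (x : ℝ) ^ (1 / 6 : ℝ) ≤ p ∧ (p : ℝ) ≤ 2 * (x : ℝ) ^ (1 / 6 : ℝ)) →
    (∀ q ∈ Q, 1 ≤ q ∧ q * (x : ℝ) ^ (1 / 6 : ℝ) ≤ (x : ℝ) ^ (1 / 2 + del)) →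
    (∀ d ∈ D, 1 ≤ d ∧ 2 * (d : ℝ) ≤ (x : ℝ) ^ del) →
    (∀ e ∈ E, 1 ≤ e ∧ (e : ℝ) ≤ (x : ℝ) ^ del) → (∀ e, |f e| ≤ 1) →
    ∀ T : ℝ, Real.log x ^ 2 ≤ T → T ≤ Real.log x ^ A * √(x : ℝ) →
    |∑ p ∈ P, ∑ q ∈ Q, ∑ d ∈ D, ∑ e ∈ E, f e *
        (siG x T (p * q * d * e) - Gam x T / ((p : ℝ) * q * d * e))|
      ≤ Gam x T * (x : ℝ) ^ (-del) := by
  filter_upwards [typeI_log A, si_tau_le 1, eventually_ge_atTop 1]
    with x hx h1 hx1 P Q D E f hP hQ hD hE hf T hT hT'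
  have hdel : del = 1 / 4000 := rfl
  have hx1' : (1 : ℝ) ≤ x := by exact_mod_cast hx1
  have hx0 : (0 : ℝ) < x := by linarith
  set M := (x : ℝ) ^ (1 / 6 : ℝ) with hM
  have hM0 : 1 ≤ M := Real.one_le_rpow hx1' (by norm_num)
  have hM2 : M ≤ (x : ℝ) ^ (1 / 5 : ℝ) := Real.rpow_le_rpow_of_exponent_le hx1' (by norm_num)
  set ψ : ℕ × ℕ → ℕ := fun u => u.1 * u.2 with hψ
  have hxd : 0 ≤ (x : ℝ) ^ del := by positivity
  have hR : ∀ q ∈ Q, ∀ e ∈ E, ((q * e : ℕ) : ℝ) * M ≤ (x : ℝ) ^ (1 / 2 + 2 * del) := by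
    intro q hq e he
    have h3 : (x : ℝ) ^ (1 / 2 + 2 * del) = (x : ℝ) ^ (1 / 2 + del) * (x : ℝ) ^ del := by
      rw [← Real.rpow_add hx0]; ring_nf
    rw [h3]
    calc ((q * e : ℕ) : ℝ) * M = (q * M) * e := by push_cast; ring
      _ ≤ _ := mul_le_mul (hQ _ hq).2 (hE _ he).2 (by positivity) (by positivity)
  have hS : ∀ p ∈ P, ∀ d ∈ D, M ≤ ((p * d : ℕ) : ℝ) ∧ ((p * d : ℕ) : ℝ) ≤ M * (x : ℝ) ^ del := by
    intro p hp d hd
    have d1 : (1 : ℝ) ≤ d := by exact_mod_cast (hD d hd).1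
    push_cast
    refine ⟨(hP p hp).1.trans (le_mul_of_one_le_right (by positivity) d1), ?_⟩
    calc (p : ℝ) * d ≤ 2 * M * d := mul_le_mul_of_nonneg_right (hP p hp).2 (by positivity)
      _ = M * (2 * d) := by ring
      _ ≤ _ := mul_le_mul_of_nonneg_left (hD d hd).2 (by positivity)
  have P1 : ∀ p ∈ P, 1 ≤ p := fun p hp => by exact_mod_cast hM0.trans (hP p hp).1
  have key := hx M le_rfl hM2 ((Q ×ˢ E).image ψ) ((P ×ˢ D).image ψ)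
    (fun r => ∑ u ∈ Q ×ˢ E with ψ u = r, f u.2)
    (fun m => ∑ u ∈ P ×ˢ D with ψ u = m, (fun _ => (1 : ℝ)) u.2) (fun r hr => by
      obtain ⟨u, hu, rfl⟩ := mem_image.1 hr
      obtain ⟨hu1, hu2⟩ := mem_product.1 hu
      exact ⟨Nat.mul_pos (hQ _ hu1).1 (hE _ hu2).1, hR _ hu1 _ hu2⟩) (fun r hr => by
      obtain ⟨u, hu, rfl⟩ := mem_image.1 hr
      obtain ⟨hu1, hu2⟩ := mem_product.1 hu
      exact hS _ hu1 _ hu2)
    (pair_coef h1 Q E (fun q hq => (hQ q hq).1) (fun q hq => (hE q hq).1) (fun q hq e he => by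
      have h5 : (x : ℝ) ^ (1 / 2 + 2 * del) ≤ x ^ (1 : ℝ) :=
        Real.rpow_le_rpow_of_exponent_le hx1' (by rw [hdel]; norm_num)
      rw [Real.rpow_one] at h5
      have h6 : ((q * e : ℕ) : ℝ) ≤ (q * e : ℕ) * M := le_mul_of_one_le_right (by positivity) hM0
      exact_mod_cast h6.trans ((hR q hq e he).trans h5)) hf)
    (pair_coef h1 P D P1 (fun q hq => (hD q hq).1) (fun p hp d hd => by
      have h5 : (x : ℝ) ^ (1 / 6 + del) ≤ x ^ (1 : ℝ) :=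
        Real.rpow_le_rpow_of_exponent_le hx1' (by rw [hdel]; norm_num)
      rw [Real.rpow_one, Real.rpow_add hx0] at h5
      exact_mod_cast (hS p hp d hd).2.trans h5) (f := fun _ => (1 : ℝ)) (fun _ => by simp))
    T hT hT'
  refine le_trans (le_of_eq ?_) key
  congr 1
  simp only [mul_assoc (∑ u ∈ Q ×ˢ E with ψ u = _, f u.2)]
  simp only [← mul_sum]
  rw [← si_regroup (Q ×ˢ E) ψ (fun u => f u.2), sum_product]
  rw [sum_comm]
  refine sum_congr rfl fun q _ => ?_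
  simp only [sum_comm (s := D)]
  rw [sum_comm]
  refine sum_congr rfl fun e _ => ?_
  rw [← si_regroup (P ×ˢ D) ψ (fun _ => (1 : ℝ)), sum_product, mul_sum]
  refine sum_congr rfl fun p _ => ?_
  rw [mul_sum]
  refine sum_congr rfl fun d _ => ?_
  simp only [hψ, siG, one_mul]
  congr 2
  · refine sum_congr rfl fun n _ => ?_
    congr 1
    ring
  · push_cast
    ring

end Pool.Agent.Work.MP_82fd4a_nt.E
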