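import Pool.Agent.Work.MP_82fd4a_nt.E.Core
import Pool.Agent.Work.MP_82fd4a_nt.E.Red2
import Pool.Agent.Work.MP_678620_nt.SPTwo
import Pool.Agent.Work.MP_678620_nt.TBConv
import Pool.Agent.Work.MP_678620_nt.TBAsy

/-! The twisted two-point bound with a saving of any power of the logarithm. -/

set_option autoImplicit false
open Finset Filter

namespace Pool.Agent.Work.MP_82fd4a_nt.E

open Pool.Agent.Work.MP_678620_nt Pool.Agent.Work.MP_82fd4a_nt.Z

/-- the logarithmic weight on a prime times a number with exactly `k` primes of `E` -/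
noncomputable def GG (z : ℝ) (E : Finset ℕ) (k n : ℕ) : ℝ :=
  if RE z E k n ∧ (rp z n).Prime then Real.log (rp z n) else 0

/-- its model -/
noncomputable def FF (z : ℝ) (E : Finset ℕ) (k n : ℕ) : ℝ :=
  if RE z E k n ∧ z < rp z n then (Vz z)⁻¹ else 0

/-- the difference -/
noncomputable def wd (z : ℝ) (E : Finset ℕ) (k n : ℕ) : ℝ := GG z E k n - FF z E k n

lemma wd_eq {z : ℝ} {E : Finset ℕ} (hz : 1 ≤ z) (hE : ∀ p ∈ E, (p : ℝ) ≤ z) (k : ℕ) {n : ℕ}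
    (hn : n ≠ 0) : (if wE E n = k then MP_678620_nt.conv (bE 1 E) (gam z 1 w1) n -
      MP_678620_nt.conv (bE 1 E) (flat z 1 w1) n else 0) = (wd z E k n : ℂ) := by
  have t0 : rp z n ≠ 0 := fun h => hn (by rw [← sp_mul_rp z n, h, mul_zero])
  have tr := rou_rp z hn
  have haz : ((1 : ℕ) : ℝ) ≤ z := by exact_mod_cast hz
  have h1 := TB_conv one_pos haz hE hn (fun m hm => (gam_supp (TB_dat one_pos haz hE) m hm).1)
  have h2 := TB_conv one_pos haz hE hn (γ := flat z 1 w1) (fun m hm => (flat_supp m hm).1)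
  rw [Nat.cast_one, one_mul] at h1 h2
  rw [h1, h2, TB_gam tr, TB_flat tr t0, wd, GG, FF]
  by_cases c1 : wE E n = k <;> by_cases c2 : ∀ p ∈ PZ z, (p : ℤ) ∣ n → p ∈ E <;>
    by_cases c3 : (rp z n).Prime <;> by_cases c4 : z < rp z n <;>
    simp only [RE, c1, c2, c3, c4] <;> simp

lemma GG_nonneg (z : ℝ) (E : Finset ℕ) (k n : ℕ) : 0 ≤ GG z E k n := by
  unfold GG
  split_ifs
  · exact Real.log_natCast_nonneg _
  · exact le_rfl

lemma FF_nonneg (z : ℝ) (E : Finset ℕ) (k n : ℕ) : 0 ≤ FF z E k n := by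
  unfold FF
  split_ifs
  · exact (inv_pos.2 (Vz_pos z)).le
  · exact le_rfl

lemma GG_le (z : ℝ) (E : Finset ℕ) (k n : ℕ) : GG z E k n ≤ Real.log n := by
  unfold GG
  split_ifs with h
  · exact Real.log_le_log (by exact_mod_cast h.2.pos) (by exact_mod_cast Nat.div_le_self _ _)
  · exact Real.log_natCast_nonneg _

lemma FF_le (z : ℝ) (E : Finset ℕ) (k n : ℕ) : FF z E k n ≤ (Vz z)⁻¹ := by
  unfold FF
  split_ifs
  · exact le_rfl
  · exact (inv_pos.2 (Vz_pos z)).le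

lemma wd_le : ∀ᶠ X : ℕ in atTop, ∀ (E : Finset ℕ) (k n : ℕ), n ≤ X ^ 3 →
    |wd (zz X) E k n| ≤ Real.log X ^ 3 := by
  filter_upwards [Vz_inv_le, SPTwo_log] with X h1 h2 E k n hn
  have a1 := (GG_le (zz X) E k n).trans (spc_log_three hn)
  have a2 := (FF_le (zz X) E k n).trans h1
  have a3 := GG_nonneg (zz X) E k n
  have a4 := FF_nonneg (zz X) E k n
  have a5 : 3 * Real.log X ≤ Real.log X ^ 3 := by nlinarith [sq_nonneg (Real.log X)]
  rw [wd, abs_le]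
  constructor <;> linarith

lemma sum_Ioc_cast (f : ℤ → ℂ) (a b : ℕ) :
    ∑ n ∈ Ioc (a : ℤ) b, f n = ∑ n ∈ Ioc a b, f n := by
  refine (sum_nbij (fun n : ℕ => (n : ℤ)) (fun n hn => ?_) (fun _ _ _ _ h => Int.natCast_inj.1 h)
    (fun n hn => ?_) fun _ _ => rfl).symm
  · rw [mem_Ioc] at hn ⊢
    omega
  · rw [mem_coe, mem_Ioc] at hn
    exact ⟨n.toNat, mem_coe.2 (mem_Ioc.2 (by omega)), by beta_reduce; omega⟩

theorem two_tw (A : ℕ) {c0 : ℝ} (hc0 : 0 < c0) : ∃ k0 : ℕ, ∀ᶠ X : ℕ in atTop,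
    ∀ N : ℕ, X ≤ N ^ 2 → N ≤ X ^ 2 → ∀ E : Finset ℕ, Eok X c0 E → ∀ k : ℕ, k0 ≤ k →
    (k : ℝ) ≤ Real.log (Real.log X) → ∀ δ : ℕ, 1 ≤ δ → (δ : ℝ) ≤ Real.log X ^ A →
    ∀ τ : ℝ, |τ| ≤ (X : ℝ) ^ 3 / 2 →
    ‖∑ n ∈ Ioc N (2 * N), (starRingEnd ℂ) ((wd (zz X) E k n : ℂ) * nz τ n) *
        ((wd (zz X) E k (n + δ) : ℂ) * nz τ (n + δ))‖ ≤ N / Real.log X ^ A := by
  obtain ⟨k0, B, H⟩ := sparse_coreT (A + 6) hc0
  refine ⟨k0, ?_⟩
  filter_upwards [H, mr_difT (A + 6) B hc0, conv_bound, SPTwo_log, zz_big 0] with X H1 H2 H3 hl hz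
    N hN1 hN2 E hE k hk hkA δ δ1 hδ τ hτ
  have hs := SPTwo_small hE hl
  have z1 : 1 ≤ zz X := by simpa using hz.1
  have l0 : 0 < Real.log X := by linarith
  have ll : 0 ≤ Real.log (Real.log X) := Real.log_nonneg (by linarith)
  have pw : Real.log X ^ A ≤ Real.log X ^ (A + 6) := pow_le_pow_right₀ (by linarith) (by omega)
  have kk : (k : ℝ) ≤ (A + 6 : ℕ) * Real.log (Real.log X) := by
    push_cast
    nlinarith [Nat.cast_nonneg (α := ℝ) A]
  have hd : Dat (zz X) 1 (bE 1 E) w1 :=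
    TB_dat one_pos (by exact_mod_cast z1) fun p hp => (hs p hp).2
  have hβ := TB_inv (E := E) one_pos fun p hp => ⟨(hs p hp).1, (hs p hp).1.one_lt⟩
  have hh : (δ : ℤ) ≠ 0 := by omega
  have hhA : |((δ : ℤ) : ℝ)| ≤ Real.log X ^ (A + 6) := by
    rw [Int.cast_natCast, Nat.abs_cast]
    exact hδ.trans pw
  set β := bE 1 E with hβd
  obtain ⟨t, ht⟩ : ∃ t : ℂ, t = ((Real.log X ^ 3)⁻¹ : ℝ) := ⟨_, rfl⟩
  have tn : ‖t‖ = (Real.log X ^ 3)⁻¹ := by
    rw [ht, Complex.norm_real, Real.norm_of_nonneg (by positivity)]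
  have sc : ∀ u : ℂ, ‖u‖ ≤ Real.log X ^ 3 → ‖t * u‖ ≤ 1 := fun u hu => by
    rw [norm_mul, tn, inv_mul_le_iff₀ (by positivity), mul_one]
    exact hu
  have hd' : Dat (zz X) 1 (fun b => if wE E b = k then β b else 0) w1 :=
    ⟨fun n => by
      split_ifs
      · exact hd.β_le n
      · simp, fun n hn => hd.β_supp n fun e => hn (by simp [e]), hd.w_nonneg, hd.w_le, hd.w_supp⟩
  have g1 : ∀ n, gam (zz X) 1 w1 n ≠ 0 → Rou (zz X) n := fun n hn => (gam_supp hd n hn).1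
  have g2 : ∀ n, flat (zz X) 1 w1 n ≠ 0 → Rou (zz X) n := fun n hn => (flat_supp n hn).1
  have mr := (H2 N hN1 hN2 _ w1 hd' τ hτ δ hh hhA).smul (t := t)
    (by simpa using sc 1 (by simpa using one_le_pow₀ (by linarith)))
  obtain ⟨g, hg⟩ : ∃ g : ℤ → ℂ, g = fun n => t * (MP_678620_nt.conv β (gam (zz X) 1 w1) n -
    MP_678620_nt.conv β (flat (zz X) 1 w1) n) := ⟨_, rfl⟩
  have g3 : ∀ n : ℤ, 1 ≤ n → n ≤ (X : ℤ) ^ 3 → ‖g n‖ ≤ 1 := fun n _ hn => by
    rw [hg]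
    exact sc _ (H3 1 β w1 hd n hn).2.2
  have g4 : ∀ p ∈ E, ∀ n : ℤ, g (p * n) = g n := fun p hp n => by
    simp only [hg, conv_mul hd.β_supp g1 (hs p hp).1 (hs p hp).2 (hβ p hp) n,
      conv_mul hd.β_supp g2 (hs p hp).1 (hs p hp).2 (hβ p hp) n]
  have main := H1 N hN1 hN2 E hE k k hk hk kk kk δ hh hhA τ g g g3 g3 g4 g4 (by
    have e : (fun n : ℤ => nzi τ n * if wE E n = k then g n else 0) = fun n : ℤ => t * (nzi τ n *
        (MP_678620_nt.conv (fun b => if wE E b = k then β b else 0) (gam (zz X) 1 w1) n -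
          MP_678620_nt.conv (fun b => if wE E b = k then β b else 0) (flat (zz X) 1 w1) n)) := by
      funext n
      rw [← conv_wE hd.β_supp g1 hs, ← conv_wE hd.β_supp g2 hs, hg]
      split_ifs
      · ring
      · simp
    rw [e]
    exact mr)
  have g5 : ∀ n : ℕ, n ≠ 0 → (if wE E n = k then g n else 0) = t * wd (zz X) E k n :=
    fun n hn => by
      rw [← wd_eq z1 (fun p hp => (hs p hp).2) k hn, hg]
      split_ifs
      · rfl
      · simp
  have N0 : N ≠ 0 := by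
    rintro rfl
    have : X = 0 := by simpa using hN1
    rw [this] at l0
    simp at l0
  have e : ∀ n ∈ Ioc N (2 * N), ((starRingEnd ℂ) (nzi τ n) * if wE E n = k then g n else 0) *
      (nzi τ (n + δ) * if wE E (n + δ) = k then g (n + δ) else 0) =
      t * t * ((starRingEnd ℂ) ((wd (zz X) E k n : ℂ) * nz τ n) *
        ((wd (zz X) E k (n + δ) : ℂ) * nz τ (n + δ))) := fun n hn => by
    have := (mem_Ioc.1 hn).1
    rw [← Nat.cast_add, g5 n (by omega), g5 (n + δ) (by omega), nzi_nat, nzi_nat, map_mul,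
      Complex.conj_ofReal]
    ring
  rw [show 2 * (N : ℤ) = (2 * N : ℕ) by push_cast; rfl, sum_Ioc_cast, sum_congr rfl e, ← mul_sum,
    norm_mul, norm_mul, tn, ← mul_inv, inv_mul_le_iff₀ (by positivity)] at main
  refine main.trans (le_of_eq ?_)
  field_simp
  ring

lemma dyadic (Z : ℕ → ℂ) {B δ T : ℝ} (K : ℕ) (B0 : 0 ≤ B) (δ0 : 0 ≤ δ) (T0 : 0 < T)
    (hT : B ≤ δ * T) (hZ : ∀ n ≤ K, ‖Z n‖ ≤ B)
    (h : ∀ M : ℕ, T ≤ M → M ≤ K → ‖∑ n ∈ Ioc M (2 * M), Z n‖ ≤ δ * M) (N : ℕ) : N ≤ K →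
    ‖∑ n ∈ Ioc 0 N, Z n‖ ≤ 2 * δ * N + 2 * (T + 1) * B := by
  induction N using Nat.strong_induction_on with
  | _ N ih =>
  intro hN
  obtain ⟨M, m1, m2⟩ : ∃ M, 2 * M ≤ N ∧ N ≤ 2 * M + 1 := ⟨N / 2, by omega, by omega⟩
  have m1' : 2 * (M : ℝ) ≤ N := by exact_mod_cast m1
  have m2' : (N : ℝ) ≤ 2 * M + 1 := by exact_mod_cast m2
  have tr : ∀ a b : ℕ, b ≤ K → ‖∑ n ∈ Ioc a b, Z n‖ ≤ (b - a : ℕ) * B := fun a b hb => by
    refine (norm_sum_le _ _).trans ((sum_le_card_nsmul _ _ B fun n hn =>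
      hZ n ((mem_Ioc.1 hn).2.trans hb)).trans (le_of_eq ?_))
    rw [Nat.card_Ioc, nsmul_eq_mul]
  rcases lt_or_ge (M : ℝ) T with c | c
  · have a := tr 0 N hN
    rw [Nat.sub_zero] at a
    have b2 := mul_nonneg δ0 (Nat.cast_nonneg (α := ℝ) N)
    have b3 := mul_le_mul_of_nonneg_right (show (N : ℝ) ≤ 2 * (T + 1) by linarith) B0
    linarith
  · have M0 : 0 < M := by exact_mod_cast T0.trans_le c
    have a1 := ih M (by omega) (by omega)
    have a2 := h M c (by omega)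
    have a3 := tr (2 * M) N hN
    have a4 : ((N - 2 * M : ℕ) : ℝ) * B ≤ 1 * B := by
      gcongr
      exact_mod_cast (by omega : N - 2 * M ≤ 1)
    rw [← sum_Ioc_consecutive Z (Nat.zero_le (2 * M)) m1,
      ← sum_Ioc_consecutive Z (Nat.zero_le M) (by omega : M ≤ 2 * M)]
    have b3 := mul_le_mul_of_nonneg_left m1' δ0
    have b4 := mul_le_mul_of_nonneg_left c δ0
    refine (norm_add_le _ _).trans ((add_le_add (norm_add_le _ _) le_rfl).trans ?_)
    linarith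

theorem two_range (A : ℕ) {c0 : ℝ} (hc0 : 0 < c0) : ∃ k0 : ℕ, ∀ᶠ X : ℕ in atTop,
    ∀ N : ℕ, X ≤ 8 * N → 12 * N ≤ X ^ 2 → ∀ E : Finset ℕ, Eok X c0 E → ∀ k : ℕ, k0 ≤ k →
    (k : ℝ) ≤ Real.log (Real.log X) → ∀ δ : ℕ, 1 ≤ δ → (δ : ℝ) ≤ Real.log X ^ A →
    ∀ τ : ℝ, |τ| ≤ (X : ℝ) ^ 3 / 2 → ∀ M : ℕ, N ≤ M → M ≤ 11 * N →
    ‖∑ n ∈ range M, (starRingEnd ℂ) ((wd (zz X) E k n : ℂ) * nz τ n) *
        ((wd (zz X) E k (n + δ) : ℂ) * nz τ (n + δ))‖ ≤ N / Real.log X ^ A := by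
  obtain ⟨k0, H⟩ := two_tw (A + 1) hc0
  refine ⟨k0, ?_⟩
  filter_upwards [H, wd_le, TB_tend.eventually_ge_atTop 100, SPTwo_pow (2 * (2 * A + 14)),
    eventually_ge_atTop 1] with X H hw hl hp X1 N n1 n2 E hE k hk hkA δ δ1 hδ τ hτ M m1 m2
  set l := Real.log X with hld
  have l1 : 1 ≤ l := by linarith
  have X0 : (1 : ℝ) ≤ X := by exact_mod_cast X1
  have n1' : (X : ℝ) ≤ 8 * N := by exact_mod_cast n1
  have mono : ∀ {a b : ℕ}, a ≤ b → l ^ a ≤ l ^ b := fun h => pow_le_pow_right₀ l1 h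
  have p1 : 0 < l ^ (2 * A + 14) := by positivity
  have p2 : 24 * l ^ (2 * A + 14) ≤ √X := by
    refine Real.le_sqrt_of_sq_le ?_
    rw [mul_pow, ← pow_mul, mul_comm (2 * A + 14)]
    linarith
  have p3 : √(X : ℝ) * √X = X := Real.mul_self_sqrt (by linarith)
  have p4 : 1 ≤ l ^ (2 * A + 14) := one_le_pow₀ l1
  have p5 : 3 * l ^ (2 * A + 14) * √X ≤ N := by nlinarith
  have p6 : l ^ (2 * A + 14) ≤ N := by nlinarith
  have N0 : (0 : ℝ) < N := by linarith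
  have hδN : δ ≤ N := by exact_mod_cast hδ.trans ((mono (by omega)).trans p6)
  have XX : X ^ 2 ≤ X ^ 3 := Nat.pow_le_pow_right X1 (by norm_num)
  have key := dyadic (fun n => (starRingEnd ℂ) ((wd (zz X) E k n : ℂ) * nz τ n) *
    ((wd (zz X) E k (n + δ) : ℂ) * nz τ (n + δ))) (B := l ^ 3 * l ^ 3) (δ := 1 / l ^ (A + 1))
    (T := N / l ^ (A + 7)) (11 * N) (by positivity) (by positivity) (by positivity)
    (by
      rw [div_mul_div_comm, one_mul, le_div_iff₀ (by positivity)]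
      refine le_trans (le_of_eq ?_) p6
      ring)
    (fun n hn => by
      have b : ∀ j ≤ X ^ 3, ‖(wd (zz X) E k j : ℂ) * nz τ j‖ ≤ l ^ 3 := fun j hj => by
        rw [norm_mul, Complex.norm_real]
        exact (mul_le_of_le_one_right (norm_nonneg _) (norm_nz_le _ _)).trans (hw E k j hj)
      rw [norm_mul, Complex.norm_conj]
      exact mul_le_mul (b _ (by omega)) (b _ (by omega)) (norm_nonneg _) (by positivity))
    (fun M' a1 a2 => by
      rw [one_div_mul_eq_div]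
      refine H M' ?_ (by omega) E hE k hk hkA δ δ1 (hδ.trans (mono (by omega))) τ hτ
      have a3 : √(X : ℝ) ≤ M' := by
        refine le_trans ?_ a1
        rw [le_div_iff₀ (by positivity)]
        have := mono (show A + 7 ≤ 2 * A + 14 by omega)
        nlinarith [Real.sqrt_nonneg (X : ℝ)]
      have a4 : (X : ℝ) ≤ (M' : ℝ) ^ 2 := by
        rw [← p3, sq]
        exact mul_le_mul a3 a3 (Real.sqrt_nonneg _) (Nat.cast_nonneg _)
      exact_mod_cast a4) (M - 1) (by omega)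
  have N1 : 1 ≤ N := by exact_mod_cast N0
  have e : range M = insert 0 (Ioc 0 (M - 1)) := by
    ext n
    simp only [mem_range, mem_insert, mem_Ioc]
    omega
  rw [e, sum_insert (by simp)]
  simp only [nz, if_true, mul_zero, map_zero, zero_mul, zero_add] at key ⊢
  refine key.trans ?_
  have c1 : ((M - 1 : ℕ) : ℝ) ≤ 11 * N := by exact_mod_cast (by omega : M - 1 ≤ 11 * N)
  have c2 : 1 ≤ N / l ^ (A + 7) :=
    (one_le_div (by positivity)).2 ((mono (by omega)).trans p6)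
  calc _ ≤ 2 * (1 / l ^ (A + 1)) * (11 * N) +
        2 * (N / l ^ (A + 7) + N / l ^ (A + 7)) * (l ^ 3 * l ^ 3) := by gcongr
    _ = N / l ^ A * (26 / l) := by field_simp; ring
    _ ≤ _ := mul_le_of_le_one_right (by positivity) ((div_le_one (by linarith)).2 (by linarith))

end Pool.Agent.Work.MP_82fd4a_nt.E
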