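import Pool.Agent.Work.MP_82fd4a_nt.E.Flat

/-! The upper bound when there is no admissible integer close to `x`. -/

set_option autoImplicit false
open Filter Topology Finset

namespace Pool.Agent.Work.MP_82fd4a_nt.E

open Pool.Agent.Work.MP_82fd4a_nt.Z Pool.Agent.Work.MP_678620_nt

lemma TIup (A : ℕ) : ∀ᶠ x : ℕ in atTop, ∀ (P Q D : Finset ℕ),
    (∀ p ∈ P, (x : ℝ) ^ (1 / 6 : ℝ) ≤ p ∧ (p : ℝ) ≤ 2 * (x : ℝ) ^ (1 / 6 : ℝ)) →
    (∀ q ∈ Q, 1 ≤ q ∧ q * (x : ℝ) ^ (1 / 6 : ℝ) ≤ (x : ℝ) ^ (1 / 2 + del)) →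
    (∀ d ∈ D, 1 ≤ d ∧ 2 * (d : ℝ) ≤ (x : ℝ) ^ del) →
    ∑ p ∈ P, (p : ℝ)⁻¹ ≤ 1 → ∑ q ∈ Q, (q : ℝ)⁻¹ ≤ 1 →
    ∀ T : ℝ, Real.log x ^ 2 ≤ T → T ≤ Real.log x ^ A * √(x : ℝ) →
    ∑ p ∈ P, ∑ q ∈ Q, ∑ d ∈ D, siG x T (p * q * d)
      ≤ Gam x T * (∑ d ∈ D, (d : ℝ)⁻¹ + (x : ℝ) ^ (-del)) := by
  have hdel : 0 < del := by norm_num [del]
  filter_upwards [TI2 A, su_ev 1 hdel] with x hI h1 P Q D hP hQ hD s1 s2 T hT hT'
  have key := (abs_le.1 (hI P Q D {1} (fun _ => 1) hP hQ hD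
    (fun e he => by rw [mem_singleton.1 he]; exact ⟨le_rfl, by simpa using h1⟩)
    (fun _ => by simp) T hT hT')).2
  simp only [mul_sub, sum_sub_distrib, sum4] at key
  simp only [sum_singleton, mul_one, one_mul, Nat.cast_one, div_one] at key
  have G0 : 0 ≤ Gam x T := sum_nonneg fun _ _ => gk_nonneg _ _ _
  have a : (∑ p ∈ P, (p : ℝ)⁻¹) * (∑ q ∈ Q, (q : ℝ)⁻¹) * ∑ d ∈ D, (d : ℝ)⁻¹ ≤
      ∑ d ∈ D, (d : ℝ)⁻¹ :=
    mul_le_of_le_one_left (by positivity) (mul_le_one₀ s1 (by positivity) s2)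
  have b := mul_le_mul_of_nonneg_left a G0
  linarith

lemma GG_struct {z : ℝ} {E : Finset ℕ} {k a p q : ℕ} (hz : 0 ≤ z)
    (hE : ∀ r ∈ E, r.Prime ∧ (r : ℝ) ≤ z) (hp : p.Prime) (hq : q.Prime) (zp : z < p) (pq : p < q)
    (a0 : a ≠ 0) (hG : GG z E k a ≠ 0) (hS : ¬ SqE E a) (ha : ∀ d ∈ DE E k, q * d < a) :
    Squarefree (p * q * a) ∧ (p * q * a).primeFactors.card = k + 3 := by
  have h : RE z E k a ∧ (rp z a).Prime := by by_contra hc; exact hG (if_neg hc)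
  obtain ⟨S, hS, e⟩ := TB_K1 hz hE a0 h.1 hS
  obtain ⟨s1, s2⟩ := mem_powersetCard.1 hS
  set r := rp z a
  have qr : q < r := by
    have := ha _ (mem_image_of_mem _ hS)
    rw [← e, mul_comm] at this
    exact lt_of_mul_lt_mul_left this (Nat.zero_le _)
  have lt : ∀ s ∈ S, s < p := fun s hs => by exact_mod_cast (hE s (s1 hs)).2.trans_lt zp
  have n1 : r ∉ S := fun hc => by have := lt r hc; omega
  have n2 : q ∉ insert r S := by
    rw [mem_insert]; rintro (hc | hc)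
    · omega
    · have := lt q hc; omega
  have n3 : p ∉ insert q (insert r S) := by
    rw [mem_insert, mem_insert]; rintro (hc | hc | hc)
    · omega
    · omega
    · have := lt p hc; omega
  have e2 : p * q * a = ∏ s ∈ insert p (insert q (insert r S)), s := by
    rw [prod_insert n3, prod_insert n2, prod_insert n1, ← e]; ring
  have pr : ∀ s ∈ insert p (insert q (insert r S)), s.Prime := by
    intro s hs
    simp only [mem_insert] at hs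
    rcases hs with rfl | rfl | rfl | hs
    exacts [hp, hq, h.2, (hE s (s1 hs)).1]
  rw [e2, Nat.primeFactors_prod pr, card_insert_of_notMem n3, card_insert_of_notMem n2,
    card_insert_of_notMem n1, s2]
  refine ⟨Finset.squarefree_prod_of_pairwise_isCoprime (fun s hs t ht hne => ?_)
    fun s hs => (pr s hs).squarefree, rfl⟩
  exact Nat.coprime_iff_isRelPrime.1 ((Nat.coprime_primes (pr s hs) (pr t ht)).2 hne)

theorem gg_le (A k : ℕ) : ∀ᶠ x : ℕ in atTop, ∀ (P Q E : Finset ℕ),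
    (∀ p ∈ P, (x : ℝ) ^ (1 / 6 : ℝ) ≤ p ∧ (p : ℝ) ≤ 2 * (x : ℝ) ^ (1 / 6 : ℝ)) →
    (∀ q ∈ Q, 1 ≤ q ∧ q * (x : ℝ) ^ (1 / 6 : ℝ) ≤ (x : ℝ) ^ (1 / 2 + del)) →
    (∀ p ∈ P, ∀ q ∈ Q, ((p * q : ℕ) : ℝ) ≤ 2 * √(x : ℝ)) →
    (∀ p ∈ P, ∀ q ∈ Q, p.Prime ∧ q.Prime ∧ zz x.sqrt < p ∧ p < q) →
    ∑ p ∈ P, (p : ℝ)⁻¹ ≤ 1 → ∑ q ∈ Q, (q : ℝ)⁻¹ ≤ 1 →
    (∀ p ∈ E, p.Prime ∧ (p : ℝ) ≤ Real.exp (Real.log x.sqrt ^ (1 / 4 : ℝ))) →
    ∀ T Δ : ℝ, 2 * Real.log x ^ 2 ≤ T → T ≤ Real.log x ^ A * √(x : ℝ) →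
    (∀ n : ℕ, Squarefree n → n.primeFactors.card = k + 3 → Δ ≤ |(n : ℝ) - x|) →
    PS x T P Q (GG (zz x.sqrt) E k) ≤ 2 * Real.log x *
      (Gam x T * (∑ r ∈ E, ((r : ℝ) ^ 2)⁻¹ + (x : ℝ) ^ (-del))
        + Real.exp (-(T * Δ / (4 * x))) * (Gam x (T / 2) * 2)) := by
  have hdel : 0 < del := by norm_num [del]
  filter_upwards [TIup A, ev_sqrt (ev_H k), ev_sqrt (ev_H 2), eventually_ge_atTop 2,
    su_ev 2 hdel, su_ev 2 (show (0 : ℝ) < 1 / 10 by norm_num)]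
    with x hI hH hH2 x2 h2 h4 P Q E hP hQ hPQ hpr s1 s2 hE T Δ hT hT' far
  have hx2 : (2 : ℝ) ≤ x := by exact_mod_cast x2
  have hx1 : (1 : ℝ) ≤ x := by linarith
  have hx0 : (0 : ℝ) < x := by linarith
  have L0 : 0 ≤ Real.log x := Real.log_nonneg hx1
  set z := zz x.sqrt with hz
  have z0 : 0 < z := Real.exp_pos _
  have sd : (x.sqrt : ℝ) ^ del ≤ (x : ℝ) ^ del :=
    Real.rpow_le_rpow (by positivity) (by exact_mod_cast Nat.sqrt_le_self x) hdel.le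
  have hEz : ∀ p ∈ E, p.Prime ∧ (p : ℝ) ≤ z := fun p hp => ⟨(hE p hp).1, (hE p hp).2.trans hH.1⟩
  have hDE : ∀ d ∈ DE E k, 2 * (d : ℝ) ≤ (x : ℝ) ^ del := fun d hd => by
    linarith [(DE_size hE hd).2, hH.2]
  have T0 : 0 ≤ T := le_trans (by positivity) hT
  set D := E.image (fun r => r ^ 2) with hD
  have hD1 : ∀ d ∈ D, 1 ≤ d ∧ 2 * (d : ℝ) ≤ (x : ℝ) ^ del := fun d hd => by
    obtain ⟨r, hr, rfl⟩ := mem_image.1 hd
    refine ⟨pow_pos (hE r hr).1.pos 2, le_trans ?_ (hH2.2.trans sd)⟩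
    push_cast
    gcongr
    exact (hE r hr).2
  have u1 := hI P Q D hP hQ hD1 s1 s2 T (by nlinarith) hT'
  have u2 := hI P Q {1} hP hQ (fun e he => by
    rw [mem_singleton.1 he]; exact ⟨le_rfl, by simpa using h2⟩) s1 s2 (T / 2) (by linarith)
    (by linarith)
  simp only [sum_singleton, mul_one, Nat.cast_one, inv_one] at u2
  have G0 : ∀ U, 0 ≤ Gam x U := fun U => sum_nonneg fun _ _ => gk_nonneg _ _ _
  have v1 : ∑ d ∈ D, (d : ℝ)⁻¹ ≤ ∑ r ∈ E, ((r : ℝ) ^ 2)⁻¹ := by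
    refine (sum_image_le_of_nonneg fun _ _ => by positivity).trans (le_of_eq ?_)
    simp
  have v2 : (x : ℝ) ^ (-del) ≤ 1 := Real.rpow_le_one_of_one_le_of_nonpos hx1 (by linarith)
  set ε := Real.exp (-(T * Δ / (4 * x))) with hε
  have ε0 : 0 ≤ ε := (Real.exp_pos _).le
  have main : PS x T P Q (GG z E k) ≤ 2 * Real.log x *
      (∑ p ∈ P, ∑ q ∈ Q, ∑ d ∈ D, siG x T (p * q * d)
        + ε * ∑ p ∈ P, ∑ q ∈ Q, siG x (T / 2) (p * q)) := by
    rw [PS, mul_sum (a := ε), ← sum_add_distrib, mul_sum]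
    refine sum_le_sum fun p hp => ?_
    rw [mul_sum (a := ε), ← sum_add_distrib, mul_sum]
    refine sum_le_sum fun q hq => ?_
    obtain ⟨pp, qp, zp, pq⟩ := hpr p hp q hq
    have pq0 : 0 < p * q := Nat.mul_pos pp.pos qp.pos
    have b1 : ∑ d ∈ D, siG x T (p * q * d) =
        ∑ a ∈ Icc 1 (2 * x), ∑ d ∈ D, if d ∣ a then gk x T (p * q * a) else 0 := by
      rw [sum_comm]
      refine sum_congr rfl fun d hd => ?_
      have := si_dvd_sum x T pq0 (hD1 d hd).1 (fun _ => 1)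
      simp only [one_mul] at this
      rw [this, siG]
      exact sum_congr rfl fun m _ => by rw [mul_assoc (p * q)]
    rw [b1, siG, mul_sum (a := ε), ← sum_add_distrib, mul_sum]
    refine sum_le_sum fun a ha => ?_
    obtain ⟨a1, a2⟩ := mem_Icc.1 ha
    have w0 : ∀ d ∈ D, 0 ≤ if d ∣ a then gk x T (p * q * a) else 0 := fun d _ => by
      split_ifs
      exacts [gk_nonneg _ _ _, le_rfl]
    have w1 := sum_nonneg w0
    have w2 := mul_nonneg ε0 (gk_nonneg x (T / 2) (p * q * a))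
    by_cases h0 : GG z E k a * gk x T (p * q * a) = 0
    · rw [h0]; positivity
    have g1 : GG z E k a ≤ 2 * Real.log x := by
      refine (GG_le _ _ _ _).trans ?_
      rw [show 2 * Real.log x = Real.log ((x : ℝ) * x) by rw [Real.log_mul hx0.ne' hx0.ne']; ring]
      refine Real.log_le_log (by exact_mod_cast a1) ?_
      have : (a : ℝ) ≤ 2 * x := by exact_mod_cast a2
      nlinarith
    refine mul_le_mul g1 ?_ (gk_nonneg _ _ _) (by positivity)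
    by_cases hS : SqE E a
    · obtain ⟨r, hr, h⟩ := hS
      have h' : r ^ 2 ∣ a := by exact_mod_cast h
      have := single_le_sum w0 (mem_image_of_mem (fun r => r ^ 2) hr)
      rw [if_pos h'] at this
      linarith
    · obtain ⟨c1, c2⟩ := GG_struct z0.le hEz pp qp zp pq (by omega) (left_ne_zero_of_mul h0) hS
        fun d hd => by
          have c1 : (x : ℝ) < 2 * ((p * q : ℕ) * a) := by
            exact_mod_cast (gk_ne_zero (right_ne_zero_of_mul h0)).1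
          have c2 := mul_le_mul_of_nonneg_right (hPQ p hp q hq) (Nat.cast_nonneg (α := ℝ) a)
          have c5 := Real.mul_self_sqrt hx0.le
          have c6 : 0 < √(x : ℝ) := Real.sqrt_pos.2 hx0
          have c7 : √(x : ℝ) < 4 * a := by
            by_contra hc
            nlinarith
          have e1 : (x : ℝ) ^ (1 / 2 + del) = (x : ℝ) ^ (1 / 3 + del) * (x : ℝ) ^ (1 / 6 : ℝ) := by
            rw [← Real.rpow_add hx0]; ring_nf
          have c3 : (q : ℝ) ≤ (x : ℝ) ^ (1 / 3 + del) :=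
            le_of_mul_le_mul_right ((hQ q hq).2.trans_eq e1) (by positivity)
          have c4 : (x : ℝ) ^ (1 / 3 + del) * (x : ℝ) ^ del * (x : ℝ) ^ (1 / 10 : ℝ) ≤ √(x : ℝ) := by
            rw [← Real.rpow_add hx0, ← Real.rpow_add hx0, Real.sqrt_eq_rpow]
            exact Real.rpow_le_rpow_of_exponent_le hx1 (by norm_num [del])
          have c8 : (q : ℝ) * (2 * d) * 2 ≤
              (x : ℝ) ^ (1 / 3 + del) * (x : ℝ) ^ del * (x : ℝ) ^ (1 / 10 : ℝ) := by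
            gcongr
            exact hDE d hd
          have c9 : (q : ℝ) * d < a := by linarith
          exact_mod_cast c9
      linarith [gk_tail (show 0 < x by omega) T0 (far _ c1 c2)]
  refine main.trans (mul_le_mul_of_nonneg_left (add_le_add (u1.trans ?_)
    (mul_le_mul_of_nonneg_left (u2.trans ?_) ε0)) (by positivity))
  · exact mul_le_mul_of_nonneg_left (by linarith) (G0 _)
  · exact mul_le_mul_of_nonneg_left (by linarith) (G0 _)

lemma PS_bil {x Y : ℕ} (T : ℝ) {P Q : Finset ℕ}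
    (h : ∀ p ∈ P, ∀ q ∈ Q, Y < p * q ∧ p * q ≤ 2 * Y) (w : ℕ → ℝ) :
    BilY x Y T (fun b => #{u ∈ P ×ˢ Q | u.1 * u.2 = b}) w = PS x T P Q w := by
  rw [PS, ← sum_product', BilY, ← sum_fiberwise_of_maps_to (s := P ×ˢ Q) (t := Ioc Y (2 * Y))
    (g := fun u => u.1 * u.2) fun u hu => mem_Ioc.2 (h _ (mem_product.1 hu).1 _ (mem_product.1 hu).2)]
  refine sum_congr rfl fun b _ => ?_
  have e : ∀ u ∈ (P ×ˢ Q).filter (fun u => u.1 * u.2 = b),
      ∑ a ∈ Icc 1 (2 * x), w a * gk x T (u.1 * u.2 * a) =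
        ∑ a ∈ Icc 1 (2 * x), w a * gk x T (b * a) := fun u hu => by rw [(mem_filter.1 hu).2]
  rw [sum_congr rfl e, sum_const, nsmul_eq_mul, mul_sum]
  exact sum_congr rfl fun a _ => by ring

lemma card_le_one_pairs {P Q : Finset ℕ} (h : ∀ p ∈ P, ∀ q ∈ Q, p.Prime ∧ q.Prime ∧ p < q)
    (b : ℕ) : |(#{u ∈ P ×ˢ Q | u.1 * u.2 = b} : ℝ)| ≤ 1 := by
  rw [Nat.abs_cast]
  have : #{u ∈ P ×ˢ Q | u.1 * u.2 = b} ≤ 1 := by
    rw [card_le_one]
    intro u hu v hv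
    obtain ⟨hu, eu⟩ := mem_filter.1 hu
    obtain ⟨hv, ev⟩ := mem_filter.1 hv
    obtain ⟨u1, u2⟩ := mem_product.1 hu
    obtain ⟨v1, v2⟩ := mem_product.1 hv
    obtain ⟨a1, -, -⟩ := h _ u1 _ u2
    obtain ⟨b1, b2, -⟩ := h _ v1 _ v2
    have e := eu.trans ev.symm
    have e1 : u.1 = v.1 := by
      rcases (Nat.Prime.dvd_mul a1).1 (e ▸ dvd_mul_right u.1 u.2) with d | d
      · exact (Nat.prime_dvd_prime_iff_eq a1 b1).1 d
      · exact absurd ((Nat.prime_dvd_prime_iff_eq a1 b2).1 d) (h _ u1 _ v2).2.2.ne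
    rw [e1] at e
    exact Prod.ext e1 (Nat.eq_of_mul_eq_mul_left b1.pos e)
  exact_mod_cast this

end Pool.Agent.Work.MP_82fd4a_nt.E
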